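import Pool.Agent.Zk89.QM.Red

/-!
# Functions which are Riemann integrable with respect to the algebra
-/

set_option autoImplicit false
set_option linter.unusedSectionVars false

open Filter Topology MeasureTheory

noncomputable section

namespace Pool.Agent.Zk89.QM

open Pool.Agent.W761.Box

theorem lim_close {ι : Type*} [SemilatticeSup ι] [Nonempty ι] (A : ι → ℂ) (Ai : ℕ → ι → ℂ)
    (L : ℕ → ℂ) (B : ℕ → ι → ℝ) (b : ℕ → ℝ) (h1 : ∀ i, Tendsto (Ai i) atTop (𝓝 (L i)))
    (h2 : ∀ i, ∀ᶠ N in atTop, ‖A N - Ai i N‖ ≤ B i N)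
    (h3 : ∀ i, Tendsto (B i) atTop (𝓝 (b i))) (h4 : Tendsto b atTop (𝓝 0)) :
    ∃ l, Tendsto A atTop (𝓝 l) ∧ Tendsto L atTop (𝓝 l) := by
  have hc : CauchySeq A := by
    rw [Metric.cauchySeq_iff']
    intro ε hε
    obtain ⟨i, hi⟩ := ((tendsto_order.1 h4).2 (ε / 8) (by positivity)).exists
    have e1 := (Metric.tendsto_nhds.1 (h1 i)) (ε / 8) (by positivity)
    have e2 := (tendsto_order.1 (h3 i)).2 (ε / 4) (by linarith)
    obtain ⟨N, hN⟩ := eventually_atTop.1 ((h2 i).and (e1.and e2))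
    have hb : ∀ n ≥ N, ‖A n - L i‖ < ε / 2 := by
      intro n hn
      obtain ⟨h5, h6, h7⟩ := hN n hn
      rw [dist_eq_norm] at h6
      have e : A n - L i = (A n - Ai i n) + (Ai i n - L i) := by ring
      rw [e]
      refine (norm_add_le _ _).trans_lt ?_
      linarith
    refine ⟨N, fun n hn => ?_⟩
    rw [dist_eq_norm]
    have e : A n - A N = (A n - L i) - (A N - L i) := by ring
    rw [e]
    refine (norm_sub_le _ _).trans_lt ?_
    have := hb n hn
    have := hb N le_rfl
    linarith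
  obtain ⟨l, hl⟩ := cauchySeq_tendsto_of_complete hc
  refine ⟨l, hl, ?_⟩
  have hle : ∀ i, ‖L i - l‖ ≤ b i := by
    intro i
    have e1 : Tendsto (fun N => ‖A N - Ai i N‖) atTop (𝓝 ‖l - L i‖) := (hl.sub (h1 i)).norm
    rw [norm_sub_rev]
    exact le_of_tendsto_of_tendsto e1 (h3 i) (h2 i)
  rw [tendsto_iff_norm_sub_tendsto_zero]
  exact squeeze_zero (fun i => norm_nonneg _) hle h4

variable {X G : Type*} [Group G] [MeasurableSpace X] {μ : Measure X} [IsProbabilityMeasure μ]
  {Φ : G →* Equiv.Perm X} {ρ : G → ℝ} {𝒮 : Set (X → ℂ)} {Nm : (X → ℂ) → ℝ} {A : ℝ} {a : ℕ}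
  {k : ℕ}

/-- `f` is within `h` of `u` with `u, h` in the algebra and `∫ h` arbitrarily small -/
def RInt (μ : Measure X) (𝒮 : Set (X → ℂ)) (f : X → ℂ) : Prop :=
  AEStronglyMeasurable f μ ∧ ∀ ε : ℝ, 0 < ε → ∃ u ∈ 𝒮, ∃ h ∈ 𝒮,
    (∀ᵐ x ∂μ, ‖f x - u x‖ ≤ (h x).re) ∧ (∫ x, h x ∂μ).re ≤ ε

theorem EM.rint [Nonempty X] (h : EM μ Φ ρ 𝒮 Nm A a) {f : X → ℂ} (hf : f ∈ 𝒮) : RInt μ 𝒮 f := by
  refine ⟨(h.meas f hf).aestronglyMeasurable, fun ε hε => ⟨f, hf, fun x => 1 - 1,
    h.sub _ h.one 1, Eventually.of_forall fun x => by simp, ?_⟩⟩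
  simp [hε.le]

theorem EM.rint_bdd (h : EM μ Φ ρ 𝒮 Nm A a) {f : X → ℂ} (hf : RInt μ 𝒮 f) :
    ∃ C : ℝ, 0 ≤ C ∧ ∀ᵐ x ∂μ, ‖f x‖ ≤ C := by
  obtain ⟨u, hu, w, hw, h1, -⟩ := hf.2 1 one_pos
  refine ⟨|Nm u + Nm w|, abs_nonneg _, ?_⟩
  filter_upwards [h1] with x hx
  have e : f x = (f x - u x) + u x := by ring
  rw [e]
  refine (norm_add_le _ _).trans (le_trans ?_ (le_abs_self _))
  have h2 := h.bdd u hu x
  have h3 := h.bdd w hw x
  have h4 := (Complex.re_le_norm (w x))
  linarith

/-- the approximation step -/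
theorem EM.step [Nonempty X] (h : EM μ Φ ρ 𝒮 Nm A a) (hA : 1 ≤ A) (𝒬 : PCls G) {J : Type}
    [Fintype J] [DecidableEq J] (F : J → X → ℂ) (hF : ∀ j, RInt μ 𝒮 (F j))
    (s : J → (Fin k → ℕ) → G) (hs : ∀ j, 𝒬.P k (s j)) (v : J) (hv : ∀ g, ∃ m, s v m ≠ g)
    (u w : ℕ → X → ℂ) (hw : ∀ i, w i ∈ 𝒮)
    (hdom : ∀ i, ∀ᵐ x ∂μ, ‖F v x - u i x‖ ≤ (w i x).re)
    (hint : ∀ i : ℕ, (∫ x, w i x ∂μ).re ≤ 1 / ((i : ℝ) + 1)) (Λ : ℕ → X → ℂ)
    (hΛ : ∀ i, ∀ᵐ x ∂μ, Tendsto (fun N => bxc k N fun m =>
      ∏ j, (Function.update F v (u i)) j (Φ (s j m) x)) atTop (𝓝 (Λ i x))) :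
    ∀ᵐ x ∂μ, ∃ l, Tendsto (fun N => bxc k N fun m => ∏ j, F j (Φ (s j m) x)) atTop (𝓝 l) ∧
      Tendsto (fun i => Λ i x) atTop (𝓝 l) := by
  classical
  choose C hC0 hC using fun j => h.rint_bdd (hF j)
  set D : ℝ := ∏ l ∈ Finset.univ.erase v, (C l + 1) with hD
  have hD0 : 0 ≤ D := Finset.prod_nonneg fun l _ => by linarith [hC0 l]
  have hb : ∀ᵐ x ∂μ, ∀ (j : J) (m : Fin k → ℕ), ‖F j (Φ (s j m) x)‖ ≤ C j := by
    rw [ae_all_iff]
    intro j
    rw [ae_all_iff]
    intro m
    exact (h.mp _).quasiMeasurePreserving.ae (hC j)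
  have hd : ∀ᵐ x ∂μ, ∀ (i : ℕ) (m : Fin k → ℕ),
      ‖F v (Φ (s v m) x) - u i (Φ (s v m) x)‖ ≤ (w i (Φ (s v m) x)).re := by
    rw [ae_all_iff]
    intro i
    rw [ae_all_iff]
    intro m
    exact (h.mp _).quasiMeasurePreserving.ae (hdom i)
  have hw1 : ∀ᵐ x ∂μ, ∀ i : ℕ, Tendsto (fun N => bx k N fun m => (w i (Φ (s v m) x)).re) atTop
      (𝓝 (∫ x, w i x ∂μ).re) := by
    rw [ae_all_iff]
    intro i
    have h1 := h.conv_prod hA 𝒬 (J := Unit) (fun _ => w i) (fun _ => hw i) (fun _ => s v)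
      (fun _ => hs v) (fun _ => hv) (fun j j' hjj => absurd (Subsingleton.elim j j') hjj)
    filter_upwards [h1] with x hx
    have h2 := (Complex.continuous_re.tendsto _).comp hx
    simp only [Finset.univ_unique, Finset.prod_singleton] at h2
    refine h2.congr fun N => ?_
    rw [Function.comp_apply]
    unfold Pool.Agent.W761.Box.bxc Pool.Agent.W761.Box.bx
    have h3 : (∏ j, (N j : ℂ))⁻¹ = (((∏ j, (N j : ℝ))⁻¹ : ℝ) : ℂ) := by push_cast; rfl
    rw [h3, Complex.re_ofReal_mul, Complex.re_sum]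
  have hint0 : ∀ i, 0 ≤ (∫ x, w i x ∂μ).re := by
    intro i
    have hi : Integrable (w i) μ := Integrable.of_bound (h.meas _ (hw i)).aestronglyMeasurable
      (Nm (w i)) (Eventually.of_forall (h.bdd _ (hw i)))
    have e : (∫ x, w i x ∂μ).re = ∫ x, (w i x).re ∂μ := (integral_re hi).symm
    rw [e]
    refine integral_nonneg_of_ae ?_
    filter_upwards [hdom i] with x hx
    exact (norm_nonneg _).trans hx
  have hb0 : Tendsto (fun i : ℕ => D * (∫ x, w i x ∂μ).re) atTop (𝓝 0) := by
    have h1 : Tendsto (fun i : ℕ => (∫ x, w i x ∂μ).re) atTop (𝓝 0) :=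
      squeeze_zero hint0 hint tendsto_one_div_add_atTop_nhds_zero_nat
    have h2 := h1.const_mul D
    rwa [mul_zero] at h2
  filter_upwards [hb, hd, hw1, ae_all_iff.2 hΛ] with x hx1 hx2 hx3 hx4
  refine lim_close _ (fun i N => bxc k N fun m =>
      ∏ j, (Function.update F v (u i)) j (Φ (s j m) x)) (fun i => Λ i x)
      (fun i N => D * bx k N fun m => (w i (Φ (s v m) x)).re) _ hx4 (fun i => ?_)
      (fun i => (hx3 i).const_mul D) hb0
  refine Eventually.of_forall fun N => ?_
  rw [← bxc_sub]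
  refine (bxc_norm _ _ _).trans ?_
  rw [← bx_mul]
  refine bx_mono fun m => ?_
  rw [← Finset.mul_prod_erase _ (fun j => F j (Φ (s j m) x)) (Finset.mem_univ v),
    ← Finset.mul_prod_erase _ (fun j => (Function.update F v (u i)) j (Φ (s j m) x))
      (Finset.mem_univ v), Function.update_self]
  have e1 : ∏ j ∈ Finset.univ.erase v, (Function.update F v (u i)) j (Φ (s j m) x) =
      ∏ j ∈ Finset.univ.erase v, F j (Φ (s j m) x) := by
    refine Finset.prod_congr rfl fun j hj => ?_
    rw [Function.update_of_ne (Finset.ne_of_mem_erase hj)]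
  rw [e1, ← sub_mul, norm_mul, mul_comm]
  refine mul_le_mul ?_ (hx2 i m) (norm_nonneg _) hD0
  rw [norm_prod]
  exact Finset.prod_le_prod (fun _ _ => norm_nonneg _) fun j _ => by linarith [hx1 j m]

/-- **Arbitrary families, Riemann integrable functions.** -/
theorem EM.riem_all [Nonempty X] (h : EM μ Φ ρ 𝒮 Nm A a) (hA : 1 ≤ A) (𝒬 : PCls G) {J : Type}
    [Fintype J] [DecidableEq J] (F : J → X → ℂ) (hF : ∀ j, RInt μ 𝒮 (F j))
    (s : J → (Fin k → ℕ) → G) (hs : ∀ j, 𝒬.P k (s j)) :
    ∀ᵐ x ∂μ, ∃ L, Tendsto (fun N => bxc k N fun m => ∏ j, F j (Φ (s j m) x)) atTop (𝓝 L) := by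
  classical
  have key : ∀ (B : Finset J) (F : J → X → ℂ), (∀ j, RInt μ 𝒮 (F j)) → (∀ j ∉ B, F j ∈ 𝒮) →
      ∀ᵐ x ∂μ, ∃ L, Tendsto (fun N => bxc k N fun m => ∏ j, F j (Φ (s j m) x)) atTop (𝓝 L) := by
    intro B
    induction B using Finset.induction_on with
    | empty =>
      intro F _ hF2
      exact h.conv_all hA 𝒬 F (fun j => hF2 j (Finset.notMem_empty j)) s hs
    | insert v B hv ih =>
      intro F hF1 hF2
      have hup : ∀ u ∈ 𝒮, (∀ j, RInt μ 𝒮 (Function.update F v u j)) ∧
          ∀ j ∉ B, Function.update F v u j ∈ 𝒮 := by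
        intro u hu
        constructor
        · intro j
          by_cases hj : j = v
          · subst hj
            rw [Function.update_self]
            exact h.rint hu
          · rw [Function.update_of_ne hj]
            exact hF1 j
        · intro j hjB
          by_cases hj : j = v
          · subst hj
            rw [Function.update_self]
            exact hu
          · rw [Function.update_of_ne hj]
            refine hF2 j fun hc => ?_
            rcases Finset.mem_insert.1 hc with h1 | h1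
            · exact hj h1
            · exact hjB h1
      by_cases hcst : ∀ g, ∃ m, s v m ≠ g
      · choose u hu w hw hdom hint using fun i : ℕ =>
          (hF1 v).2 (1 / ((i : ℝ) + 1)) (by positivity)
        have hconv := fun i => ih _ (hup (u i) (hu i)).1 (hup (u i) (hu i)).2
        let Λ : ℕ → X → ℂ := fun i x => limUnder atTop fun N => bxc k N fun m =>
          ∏ j, (Function.update F v (u i)) j (Φ (s j m) x)
        have h1 := h.step hA 𝒬 F hF1 s hs v hcst u w hw hdom hint Λ fun i => by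
          filter_upwards [hconv i] with x hx
          exact tendsto_nhds_limUnder hx
        filter_upwards [h1] with x hx
        obtain ⟨l, hl, -⟩ := hx
        exact ⟨l, hl⟩
      · push Not at hcst
        obtain ⟨g, hg⟩ := hcst
        have h1 := ih _ (hup _ h.one).1 (hup _ h.one).2
        filter_upwards [h1] with x hx
        obtain ⟨L, hL⟩ := hx
        refine ⟨F v (Φ g x) * L, (hL.const_mul (F v (Φ g x))).congr fun N => ?_⟩
        rw [← bxc_mul]
        congr 1
        funext m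
        rw [← Finset.mul_prod_erase _ (fun j => F j (Φ (s j m) x)) (Finset.mem_univ v),
          ← Finset.mul_prod_erase _ (fun j => (Function.update F v (fun _ => 1)) j (Φ (s j m) x))
            (Finset.mem_univ v), Function.update_self, one_mul, hg m]
        congr 1
        refine Finset.prod_congr rfl fun j hj => ?_
        rw [Function.update_of_ne (Finset.ne_of_mem_erase hj)]
  exact key Finset.univ F hF fun j hj => absurd (Finset.mem_univ j) hj

/-- **Nondegenerate families, Riemann integrable functions.** -/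
theorem EM.riem_prod [Nonempty X] (h : EM μ Φ ρ 𝒮 Nm A a) (hA : 1 ≤ A) (𝒬 : PCls G) {J : Type}
    [Fintype J] [DecidableEq J] (F : J → X → ℂ) (hF : ∀ j, RInt μ 𝒮 (F j))
    (s : J → (Fin k → ℕ) → G) (hs : ∀ j, 𝒬.P k (s j)) (hne : ∀ j, ∀ g, ∃ m, s j m ≠ g)
    (hdiff : ∀ j j', j ≠ j' → ∀ g, ∃ m, s j m * (s j' m)⁻¹ ≠ g) :
    ∀ᵐ x ∂μ, Tendsto (fun N => bxc k N fun m => ∏ j, F j (Φ (s j m) x)) atTop
      (𝓝 (∏ j, ∫ x, F j x ∂μ)) := by
  classical
  have key : ∀ (B : Finset J) (F : J → X → ℂ), (∀ j, RInt μ 𝒮 (F j)) → (∀ j ∉ B, F j ∈ 𝒮) →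
      ∀ᵐ x ∂μ, Tendsto (fun N => bxc k N fun m => ∏ j, F j (Φ (s j m) x)) atTop
        (𝓝 (∏ j, ∫ x, F j x ∂μ)) := by
    intro B
    induction B using Finset.induction_on with
    | empty =>
      intro F _ hF2
      exact h.conv_prod hA 𝒬 F (fun j => hF2 j (Finset.notMem_empty j)) s hs hne hdiff
    | insert v B hv ih =>
      intro F hF1 hF2
      choose u hu w hw hdom hint using fun i : ℕ =>
          (hF1 v).2 (1 / ((i : ℝ) + 1)) (by positivity)
      have hup : ∀ i, (∀ j, RInt μ 𝒮 (Function.update F v (u i) j)) ∧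
          ∀ j ∉ B, Function.update F v (u i) j ∈ 𝒮 := by
        intro i
        constructor
        · intro j
          by_cases hj : j = v
          · subst hj
            rw [Function.update_self]
            exact h.rint (hu i)
          · rw [Function.update_of_ne hj]
            exact hF1 j
        · intro j hjB
          by_cases hj : j = v
          · subst hj
            rw [Function.update_self]
            exact hu i
          · rw [Function.update_of_ne hj]
            refine hF2 j fun hc => ?_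
            rcases Finset.mem_insert.1 hc with h1 | h1
            · exact hj h1
            · exact hjB h1
      have hconv := fun i => ih _ (hup i).1 (hup i).2
      have h1 := h.step hA 𝒬 F hF1 s hs v (hne v) u w hw hdom hint
        (fun i _ => ∏ j, ∫ x, (Function.update F v (u i)) j x ∂μ) hconv
      obtain ⟨C, hC0, hC⟩ := h.rint_bdd (hF1 v)
      have hFi : Integrable (F v) μ := Integrable.of_bound (hF1 v).1 C hC
      have hint' : Tendsto (fun i => ∫ x, u i x ∂μ) atTop (𝓝 (∫ x, F v x ∂μ)) := by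
        rw [tendsto_iff_norm_sub_tendsto_zero]
        refine squeeze_zero (fun i => norm_nonneg _) (fun i => ?_)
          tendsto_one_div_add_atTop_nhds_zero_nat
        have hui : Integrable (u i) μ := Integrable.of_bound
          (h.meas _ (hu i)).aestronglyMeasurable (Nm (u i)) (Eventually.of_forall (h.bdd _ (hu i)))
        have hwi : Integrable (w i) μ := Integrable.of_bound
          (h.meas _ (hw i)).aestronglyMeasurable (Nm (w i)) (Eventually.of_forall (h.bdd _ (hw i)))
        rw [← integral_sub hui hFi]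
        refine (norm_integral_le_integral_norm _).trans (le_trans ?_ (hint i))
        have e : (∫ x, w i x ∂μ).re = ∫ x, (w i x).re ∂μ := (integral_re hwi).symm
        rw [e]
        refine integral_mono_ae (hui.sub hFi).norm hwi.re ?_
        filter_upwards [hdom i] with x hx
        rw [norm_sub_rev] at hx
        exact hx
      have hprod : Tendsto (fun i => ∏ j, ∫ x, (Function.update F v (u i)) j x ∂μ) atTop
          (𝓝 (∏ j, ∫ x, F j x ∂μ)) := by
        refine tendsto_finsetProd _ fun j _ => ?_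
        by_cases hj : j = v
        · subst hj
          simp only [Function.update_self]
          exact hint'
        · simp only [Function.update_of_ne hj]
          exact tendsto_const_nhds
      filter_upwards [h1] with x hx
      obtain ⟨l, hl, hl'⟩ := hx
      rw [← tendsto_nhds_unique hl' hprod]
      exact hl
  exact key Finset.univ F hF fun j hj => absurd (Finset.mem_univ j) hj

end Pool.Agent.Zk89.QM
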