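import Pool.Agent.Zk89.QM.Mix

/-!
# Actions with an independent σ-algebra are effectively mixing of all orders on local functions
-/

set_option autoImplicit false
set_option linter.unusedSectionVars false
set_option warn.classDefReducibility false

open Filter Topology MeasureTheory ProbabilityTheory
open scoped Pointwise

noncomputable section

namespace Pool.Agent.Zk89.QM.Bern

section len

variable {G : Type*} [Group G] [DecidableEq G] (S : Finset G)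

/-- word length -/
def len (g : G) : ℕ := sInf {n | g ∈ S ^ n}

variable {S}

theorem len_le {g : G} {n : ℕ} (h : g ∈ S ^ n) : len S g ≤ n := Nat.sInf_le h

theorem mem_len (hgen : ∀ g : G, ∃ n, g ∈ S ^ n) (g : G) : g ∈ S ^ len S g :=
  Nat.sInf_mem (s := {n | g ∈ S ^ n}) (hgen g)

theorem mono (h1 : (1 : G) ∈ S) {m n : ℕ} (h : m ≤ n) : S ^ m ⊆ S ^ n :=
  Finset.pow_subset_pow_right h1 h

theorem len_one : len S 1 = 0 := by
  have : len S 1 ≤ 0 := len_le (by simp)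
  omega

theorem inv_mem (hinv : ∀ g ∈ S, g⁻¹ ∈ S) {g : G} {n : ℕ} (h : g ∈ S ^ n) : g⁻¹ ∈ S ^ n := by
  have e : (S ^ n)⁻¹ = S ^ n := by
    rw [← inv_pow]
    congr 1
    ext x
    rw [Finset.mem_inv']
    constructor
    · intro hx
      have := hinv _ hx
      rwa [inv_inv] at this
    · intro hx
      exact hinv _ hx
  rw [← e, Finset.mem_inv']
  rwa [inv_inv]

theorem len_inv_le (hinv : ∀ g ∈ S, g⁻¹ ∈ S) (hgen : ∀ g : G, ∃ n, g ∈ S ^ n) (g : G) :
    len S g⁻¹ ≤ len S g := len_le (inv_mem hinv (mem_len hgen g))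

theorem len_inv (hinv : ∀ g ∈ S, g⁻¹ ∈ S) (hgen : ∀ g : G, ∃ n, g ∈ S ^ n) (g : G) :
    len S g⁻¹ = len S g := by
  refine le_antisymm (len_inv_le hinv hgen g) ?_
  have := len_inv_le hinv hgen g⁻¹
  rwa [inv_inv] at this

theorem mul_mem {g h : G} {m n : ℕ} (h1 : g ∈ S ^ m) (h2 : h ∈ S ^ n) : g * h ∈ S ^ (m + n) := by
  rw [pow_add]
  exact Finset.mul_mem_mul h1 h2

theorem len_mul (hgen : ∀ g : G, ∃ n, g ∈ S ^ n) (g h : G) :
    len S (g * h) ≤ len S g + len S h :=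
  len_le (mul_mem (mem_len hgen g) (mem_len hgen h))

theorem ball (h1 : (1 : G) ∈ S) (hgen : ∀ g : G, ∃ n, g ∈ S ^ n) {R : ℝ} (hR : 1 ≤ R)
    (T : Finset G) (hT : ∀ g ∈ T, (2 : ℝ) ^ len S g ≤ R) :
    (T.card : ℝ) ≤ 1 * R ^ (Real.logb 2 S.card) := by
  set n := ⌊Real.logb 2 R⌋₊ with hn
  have hR0 : 0 < R := by linarith
  have hsub : T ⊆ S ^ n := by
    intro g hg
    refine mono h1 ?_ (mem_len hgen g)
    rw [hn]
    refine Nat.le_floor ?_
    rw [Real.le_logb_iff_rpow_le (by norm_num) hR0, Real.rpow_natCast]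
    exact hT g hg
  have hS : (1 : ℝ) ≤ S.card := by
    exact_mod_cast Finset.card_pos.2 ⟨1, h1⟩
  have h2 : (T.card : ℝ) ≤ (S.card : ℝ) ^ n := by
    exact_mod_cast (Finset.card_le_card hsub).trans Finset.card_pow_le
  have h3 : (n : ℝ) ≤ Real.logb 2 R := Nat.floor_le (Real.logb_nonneg (by norm_num) hR)
  rw [one_mul]
  refine h2.trans ?_
  rw [← Real.rpow_natCast]
  refine (Real.rpow_le_rpow_of_exponent_le hS h3).trans (le_of_eq ?_)
  rw [Real.rpow_def_of_pos (by linarith), Real.rpow_def_of_pos hR0, Real.logb, Real.logb]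
  congr 1
  ring

end len

section loc

variable {X G : Type*} [Group G]

/-- the σ-algebra generated by the translates of `𝒜` by the elements of `E` -/
def Sg (Φ : G →* Equiv.Perm X) (𝒜 : MeasurableSpace X) (E : Set G) : MeasurableSpace X :=
  ⨆ g ∈ E, 𝒜.comap (Φ g)

theorem Sg_mono (Φ : G →* Equiv.Perm X) (𝒜 : MeasurableSpace X) {E F : Set G} (h : E ⊆ F) :
    Sg Φ 𝒜 E ≤ Sg Φ 𝒜 F :=
  iSup₂_le fun g hg => le_iSup₂_of_le g (h hg) le_rfl

theorem Sg_comap (Φ : G →* Equiv.Perm X) (𝒜 : MeasurableSpace X) (E : Set G) (p : G) :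
    (Sg Φ 𝒜 E).comap (Φ p) = Sg Φ 𝒜 ((fun h => h * p) '' E) := by
  unfold Sg
  simp only [MeasurableSpace.comap_iSup, iSup_image]
  refine iSup_congr fun g => iSup_congr fun _ => ?_
  rw [MeasurableSpace.comap_comp]
  congr 1
  funext x
  simp [map_mul]

theorem meas_shift {Φ : G →* Equiv.Perm X} {𝒜 : MeasurableSpace X} {E : Set G} {f : X → ℂ}
    (hf : Measurable[Sg Φ 𝒜 E] f) (p : G) :
    Measurable[Sg Φ 𝒜 ((fun h => h * p) '' E)] fun x => f (Φ p x) := by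
  rw [← Sg_comap]
  exact hf.comp (comap_measurable _)

variable {𝒜 : MeasurableSpace X} [mX : MeasurableSpace X] {μ : Measure X}
  [IsProbabilityMeasure μ] {Φ : G →* Equiv.Perm X}

theorem Sg_le (hmp : ∀ g, MeasurePreserving (Φ g) μ μ) (h𝒜 : 𝒜 ≤ mX)
    (E : Set G) : Sg Φ 𝒜 E ≤ mX := by
  refine iSup₂_le fun g _ => ?_
  exact (MeasurableSpace.comap_mono h𝒜).trans (hmp g).measurable.comap_le

omit [IsProbabilityMeasure μ] in
theorem prod_meas (m : MeasurableSpace X) {I : Type*} (T : Finset I) (F : I → X → ℂ)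
    (hF : ∀ i ∈ T, Measurable[m] (F i)) : Measurable[m] fun x => ∏ i ∈ T, F i x := by
  classical
  induction T using Finset.induction_on with
  | empty => simp only [Finset.prod_empty]; exact measurable_const
  | insert v T hv ih =>
    simp only [Finset.prod_insert hv]
    exact Measurable.mul (hF v (Finset.mem_insert_self _ _))
      (ih fun i hi => hF i (Finset.mem_insert_of_mem hi))

theorem indep_two {m₁ m₂ : MeasurableSpace X} (hI : Indep m₁ m₂ μ) (h1 : m₁ ≤ mX)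
    (h2 : m₂ ≤ mX) (f g : X → ℂ) (hf : Measurable[m₁] f) (hg : Measurable[m₂] g) :
    ∫ x, f x * g x ∂μ = (∫ x, f x ∂μ) * ∫ x, g x ∂μ := by
  have hIF : IndepFun f g μ := by
    rw [IndepFun_iff_Indep]
    exact indep_of_indep_of_le_left (indep_of_indep_of_le_right hI hg.comap_le) hf.comap_le
  exact hIF.integral_fun_mul_eq_mul_integral (hf.mono h1 le_rfl).aestronglyMeasurable
    (hg.mono h2 le_rfl).aestronglyMeasurable

/-- **Exact independence.** -/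
theorem prod_integral (hmp : ∀ g, MeasurePreserving (Φ g) μ μ) (h𝒜 : 𝒜 ≤ mX)
    (hind : iIndep (fun g => 𝒜.comap (Φ g)) μ) {I : Type*} [DecidableEq I] (T : Finset I)
    (F : I → X → ℂ) (E : I → Set G) (hF : ∀ i ∈ T, Measurable[Sg Φ 𝒜 (E i)] (F i))
    (hE : ∀ i ∈ T, ∀ j ∈ T, i ≠ j → Disjoint (E i) (E j)) :
    ∫ x, ∏ i ∈ T, F i x ∂μ = ∏ i ∈ T, ∫ x, F i x ∂μ := by
  induction T using Finset.induction_on with
  | empty => simp
  | insert v T hv ih =>
    have hle : ∀ g, 𝒜.comap (Φ g) ≤ mX := fun g =>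
      (MeasurableSpace.comap_mono h𝒜).trans (hmp g).measurable.comap_le
    have h1 := ih (fun i hi => hF i (Finset.mem_insert_of_mem hi))
      (fun i hi j hj => hE i (Finset.mem_insert_of_mem hi) j (Finset.mem_insert_of_mem hj))
    have hFv := hF v (Finset.mem_insert_self _ _)
    have hP : Measurable[Sg Φ 𝒜 (⋃ i ∈ T, E i)] fun x => ∏ i ∈ T, F i x := by
      have hP' : ∀ i ∈ T, Measurable[Sg Φ 𝒜 (⋃ i ∈ T, E i)] (F i) := fun i hi =>
        (hF i (Finset.mem_insert_of_mem hi)).mono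
          (Sg_mono Φ 𝒜 (Set.subset_biUnion_of_mem (u := E) hi)) le_rfl
      exact prod_meas _ T F hP'
    have hdis : Disjoint (E v) (⋃ i ∈ T, E i) := by
      rw [Set.disjoint_iUnion₂_right]
      intro i hi
      exact hE v (Finset.mem_insert_self _ _) i (Finset.mem_insert_of_mem hi)
        fun h => hv (h ▸ hi)
    have hI : Indep (Sg Φ 𝒜 (E v)) (Sg Φ 𝒜 (⋃ i ∈ T, E i)) μ :=
      indep_iSup_of_disjoint hle hind hdis
    simp only [Finset.prod_insert hv]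
    rw [indep_two hI (Sg_le hmp h𝒜 _) (Sg_le hmp h𝒜 _) _ _ hFv hP, h1]

end loc

section em

variable {X G : Type*} [Group G] [DecidableEq G] {𝒜 : MeasurableSpace X}
  [mX : MeasurableSpace X] {μ : Measure X} [IsProbabilityMeasure μ] {Φ : G →* Equiv.Perm X}

/-- bounded local functions -/
def Lc (Φ : G →* Equiv.Perm X) (𝒜 : MeasurableSpace X) : Set (X → ℂ) :=
  {f | (∃ E : Finset G, Measurable[⨆ g ∈ E, 𝒜.comap (Φ g)] f) ∧ ∃ C : ℝ, ∀ x, ‖f x‖ ≤ C}

/-- radius -/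
def rad (S : Finset G) (Φ : G →* Equiv.Perm X) (𝒜 : MeasurableSpace X) (f : X → ℂ) : ℕ :=
  sInf {n | Measurable[Sg Φ 𝒜 ((S ^ n : Finset G) : Set G)] f}

/-- norm -/
def Nb (S : Finset G) (Φ : G →* Equiv.Perm X) (𝒜 : MeasurableSpace X) (f : X → ℂ) : ℝ :=
  (⨆ x, ‖f x‖) * 2 ^ rad S Φ 𝒜 f

variable {S : Finset G}

theorem Lc_pow (h1 : (1 : G) ∈ S) (hgen : ∀ g : G, ∃ n, g ∈ S ^ n) {f : X → ℂ}
    (hf : f ∈ Lc Φ 𝒜) : ∃ n, Measurable[Sg Φ 𝒜 ((S ^ n : Finset G) : Set G)] f := by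
  obtain ⟨⟨E, hE⟩, -⟩ := hf
  refine ⟨E.sup (len S), hE.mono ?_ le_rfl⟩
  have e : (⨆ g ∈ E, 𝒜.comap (Φ g)) = Sg Φ 𝒜 (E : Set G) := rfl
  rw [e]
  refine Sg_mono Φ 𝒜 fun g hg => ?_
  exact mono h1 (Finset.le_sup (f := len S) hg) (mem_len hgen g)

theorem rad_spec (h1 : (1 : G) ∈ S) (hgen : ∀ g : G, ∃ n, g ∈ S ^ n) {f : X → ℂ}
    (hf : f ∈ Lc Φ 𝒜) :
    Measurable[Sg Φ 𝒜 ((S ^ rad S Φ 𝒜 f : Finset G) : Set G)] f :=
  Nat.sInf_mem (s := {n | Measurable[Sg Φ 𝒜 ((S ^ n : Finset G) : Set G)] f})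
    (Lc_pow h1 hgen hf)

theorem rad_le {f : X → ℂ} {n : ℕ} (h : Measurable[Sg Φ 𝒜 ((S ^ n : Finset G) : Set G)] f) :
    rad S Φ 𝒜 f ≤ n := Nat.sInf_le h

theorem bdd {f : X → ℂ} (hf : f ∈ Lc Φ 𝒜) : BddAbove (Set.range fun x => ‖f x‖) := by
  obtain ⟨-, C, hC⟩ := hf
  exact ⟨C, by rintro _ ⟨x, rfl⟩; exact hC x⟩

theorem sup_nonneg (f : X → ℂ) : 0 ≤ ⨆ x, ‖f x‖ := Real.iSup_nonneg fun _ => norm_nonneg _

theorem Nb_mul_le (f g h : X → ℂ) (hn : ∀ x, ‖h x‖ ≤ (⨆ x, ‖f x‖) * (⨆ x, ‖g x‖))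
    (hr : rad S Φ 𝒜 h ≤ rad S Φ 𝒜 f + rad S Φ 𝒜 g) :
    Nb S Φ 𝒜 h ≤ 1 * Nb S Φ 𝒜 f * Nb S Φ 𝒜 g := by
  unfold Nb
  have h1 : (⨆ x, ‖h x‖) ≤ (⨆ x, ‖f x‖) * (⨆ x, ‖g x‖) :=
    Real.iSup_le hn (mul_nonneg (sup_nonneg f) (sup_nonneg g))
  have h2 : (2 : ℝ) ^ rad S Φ 𝒜 h ≤ 2 ^ (rad S Φ 𝒜 f + rad S Φ 𝒜 g) :=
    pow_le_pow_right₀ (by norm_num) hr
  calc (⨆ x, ‖h x‖) * 2 ^ rad S Φ 𝒜 h
      ≤ ((⨆ x, ‖f x‖) * (⨆ x, ‖g x‖)) * 2 ^ (rad S Φ 𝒜 f + rad S Φ 𝒜 g) :=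
        mul_le_mul h1 h2 (by positivity) (mul_nonneg (sup_nonneg f) (sup_nonneg g))
    _ = _ := by rw [pow_add]; ring

/-- **The Bernoulli-type instance.** -/
theorem em (h1 : (1 : G) ∈ S) (hinv : ∀ g ∈ S, g⁻¹ ∈ S) (hgen : ∀ g : G, ∃ n, g ∈ S ^ n)
    (hmp : ∀ g, MeasurePreserving (Φ g) μ μ) (h𝒜 : 𝒜 ≤ mX)
    (hind : iIndep (fun g => 𝒜.comap (Φ g)) μ) :
    EM μ Φ (fun g => (2 : ℝ) ^ len S g) (Lc Φ 𝒜) (Nb S Φ 𝒜) 1 1 where
  mp := hmp
  ρ_one := by simp [len_one]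
  ρ_ge := fun g => one_le_pow₀ (by norm_num)
  ρ_inv := fun g => by simp only [len_inv hinv hgen]
  ρ_mul := fun g h => by
    rw [← pow_add]
    exact pow_le_pow_right₀ (by norm_num) (len_mul hgen g h)
  ball := ⟨1, _, fun R hR T hT => ball h1 hgen hR T hT⟩
  meas := fun f hf => (rad_spec h1 hgen hf).mono (Sg_le hmp h𝒜 _) le_rfl
  bdd := fun f hf x => by
    have h2 := le_ciSup (bdd hf) x
    have h3 : (1 : ℝ) ≤ 2 ^ rad S Φ 𝒜 f := one_le_pow₀ (by norm_num)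
    unfold Nb
    nlinarith [sup_nonneg f]
  one := ⟨⟨∅, measurable_const⟩, 1, fun x => by simp⟩
  mul := fun f hf g hg => by
    obtain ⟨⟨E, hE⟩, C, hC⟩ := id hf
    obtain ⟨⟨E', hE'⟩, C', hC'⟩ := id hg
    refine ⟨⟨⟨E ∪ E', ?_⟩, |C| * |C'|, fun x => ?_⟩, Nb_mul_le f g _ (fun x => ?_) ?_⟩
    · refine Measurable.mul (m := _) (hE.mono ?_ le_rfl) (hE'.mono ?_ le_rfl)
      · exact iSup₂_le fun g hg => le_iSup₂_of_le g (Finset.mem_union_left _ hg) le_rfl
      · exact iSup₂_le fun g hg => le_iSup₂_of_le g (Finset.mem_union_right _ hg) le_rfl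
    · rw [norm_mul]
      exact mul_le_mul ((hC x).trans (le_abs_self _)) ((hC' x).trans (le_abs_self _))
        (norm_nonneg _) (abs_nonneg _)
    · rw [norm_mul]
      exact mul_le_mul (le_ciSup (Bern.bdd hf) x) (le_ciSup (Bern.bdd hg) x) (norm_nonneg _)
        (sup_nonneg f)
    · refine rad_le ?_
      refine Measurable.mul (m := _) ((rad_spec h1 hgen hf).mono (Sg_mono Φ 𝒜 ?_) le_rfl)
        ((rad_spec h1 hgen hg).mono (Sg_mono Φ 𝒜 ?_) le_rfl)
      · exact Finset.coe_subset.2 (mono h1 (Nat.le_add_right _ _))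
      · exact Finset.coe_subset.2 (mono h1 (Nat.le_add_left _ _))
  shift := fun f hf g => by
    obtain ⟨⟨E, hE⟩, C, hC⟩ := id hf
    constructor
    · refine ⟨⟨E.image fun h => h * g, ?_⟩, C, fun x => hC _⟩
      have e : (⨆ h ∈ E.image fun h => h * g, 𝒜.comap (Φ h)) =
          Sg Φ 𝒜 ((fun h => h * g) '' (E : Set G)) := by
        rw [← Finset.coe_image]; rfl
      rw [e]
      exact meas_shift (E := (E : Set G)) hE g
    · have h2 : (⨆ x, ‖f (Φ g x)‖) ≤ ⨆ x, ‖f x‖ :=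
        Real.iSup_le (fun x => le_ciSup (Bern.bdd hf) (Φ g x)) (sup_nonneg f)
      have h3 : rad S Φ 𝒜 (fun x => f (Φ g x)) ≤ rad S Φ 𝒜 f + len S g := by
        refine rad_le ((meas_shift (rad_spec h1 hgen hf) g).mono (Sg_mono Φ 𝒜 ?_) le_rfl)
        rintro _ ⟨h, hh, rfl⟩
        exact mul_mem hh (mem_len hgen g)
      unfold Nb
      have h4 : (2 : ℝ) ^ rad S Φ 𝒜 (fun x => f (Φ g x)) ≤ 2 ^ (rad S Φ 𝒜 f + len S g) :=
        pow_le_pow_right₀ (by norm_num) h3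
      calc (⨆ x, ‖f (Φ g x)‖) * 2 ^ rad S Φ 𝒜 (fun x => f (Φ g x))
          ≤ (⨆ x, ‖f x‖) * 2 ^ (rad S Φ 𝒜 f + len S g) :=
            mul_le_mul h2 h4 (by positivity) (sup_nonneg f)
        _ = _ := by rw [pow_add]; ring
  conj := fun f hf => by
    obtain ⟨⟨E, hE⟩, C, hC⟩ := hf
    refine ⟨⟨E, ?_⟩, C, fun x => by rw [RCLike.norm_conj]; exact hC x⟩
    exact (RCLike.continuous_conj.measurable).comp hE
  sub := fun f hf c => by
    obtain ⟨⟨E, hE⟩, C, hC⟩ := hf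
    refine ⟨⟨E, ?_⟩, C + ‖c‖, fun x => (norm_sub_le _ _).trans (by linarith [hC x])⟩
    exact (measurable_id.sub_const c).comp hE
  mix := fun r => by
    refine ⟨2, 1, one_pos, fun f p hf M hM hdist => ?_⟩
    have hM0 : 0 < M := by linarith
    have hprod0 : 0 ≤ ∏ i, Nb S Φ 𝒜 (f i) :=
      Finset.prod_nonneg fun i _ => mul_nonneg (sup_nonneg _) (by positivity)
    by_cases hfar : ∀ i j, i ≠ j →
        rad S Φ 𝒜 (f i) + rad S Φ 𝒜 (f j) < len S (p i * (p j)⁻¹)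
    · have h2 := prod_integral hmp h𝒜 hind Finset.univ (fun i x => f i (Φ (p i) x))
        (fun i => (fun h => h * p i) '' ((S ^ rad S Φ 𝒜 (f i) : Finset G) : Set G))
        (fun i _ => meas_shift (rad_spec h1 hgen (hf i)) (p i)) (by
          intro i _ j _ hij
          rw [Set.disjoint_left]
          rintro _ ⟨g, hg, rfl⟩ ⟨h, hh, he⟩
          have h3 := hfar i j hij
          have h4 : p i * (p j)⁻¹ = g⁻¹ * h := by
            simp only at he
            rw [eq_inv_mul_iff_mul_eq, ← mul_assoc, ← he]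
            group
          rw [h4] at h3
          have h5 : len S (g⁻¹ * h) ≤ rad S Φ 𝒜 (f i) + rad S Φ 𝒜 (f j) :=
            len_le (mul_mem (inv_mem hinv hg) hh)
          omega)
      have h3 : ∀ i, ∫ x, f i (Φ (p i) x) ∂μ = ∫ x, f i x ∂μ := by
        intro i
        have hfm : Measurable (f i) :=
          (rad_spec h1 hgen (hf i)).mono (Sg_le hmp h𝒜 _) le_rfl
        have h4 := integral_map (μ := μ) (hmp (p i)).measurable.aemeasurable
          (f := f i) hfm.aestronglyMeasurable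
        rw [(hmp (p i)).map_eq] at h4
        exact h4.symm
      rw [h2]
      simp only [h3, sub_self, norm_zero]
      positivity
    · push Not at hfar
      obtain ⟨i, j, hij, hle⟩ := hfar
      have hsum : rad S Φ 𝒜 (f i) + rad S Φ 𝒜 (f j) ≤ ∑ l, rad S Φ 𝒜 (f l) := by
        have h2 : ∑ l ∈ ({i, j} : Finset (Fin r)), rad S Φ 𝒜 (f l) =
            rad S Φ 𝒜 (f i) + rad S Φ 𝒜 (f j) := Finset.sum_pair hij
        rw [← h2]
        exact Finset.sum_le_sum_of_subset (Finset.subset_univ _)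
      have hM2 : M ≤ 2 ^ (∑ l, rad S Φ 𝒜 (f l)) :=
        (hdist i j hij).trans (pow_le_pow_right₀ (by norm_num) (hle.trans hsum))
      set B : ℝ := ∏ l, ⨆ x, ‖f l x‖ with hB
      have hB0 : 0 ≤ B := Finset.prod_nonneg fun l _ => sup_nonneg _
      have hN : ∏ l, Nb S Φ 𝒜 (f l) = B * 2 ^ (∑ l, rad S Φ 𝒜 (f l)) := by
        unfold Nb
        rw [Finset.prod_mul_distrib, Finset.prod_pow_eq_pow_sum]
      have h5 : ‖∫ x, ∏ i, f i (Φ (p i) x) ∂μ‖ ≤ B := by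
        have h6 := norm_integral_le_of_norm_le_const (μ := μ) (C := B)
          (f := fun x => ∏ i, f i (Φ (p i) x)) (Eventually.of_forall fun x => by
            rw [norm_prod]
            exact Finset.prod_le_prod (fun _ _ => norm_nonneg _)
              fun l _ => le_ciSup (Bern.bdd (hf l)) (Φ (p l) x))
        simpa using h6
      have h6 : ‖∏ i, ∫ x, f i x ∂μ‖ ≤ B := by
        rw [norm_prod]
        refine Finset.prod_le_prod (fun _ _ => norm_nonneg _) fun l _ => ?_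
        have h7 := norm_integral_le_of_norm_le_const (μ := μ) (C := ⨆ x, ‖f l x‖)
          (f := f l) (Eventually.of_forall fun x => le_ciSup (Bern.bdd (hf l)) x)
        simpa using h7
      refine (norm_sub_le _ _).trans ((add_le_add h5 h6).trans ?_)
      rw [hN, Real.rpow_neg hM0.le, Real.rpow_one]
      have h8 : 1 ≤ 2 ^ (∑ l, rad S Φ 𝒜 (f l)) * M⁻¹ := by
        rw [← div_eq_mul_inv, le_div_iff₀ hM0, one_mul]
        exact hM2
      calc B + B = 2 * B * 1 := by ring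
        _ ≤ 2 * B * (2 ^ (∑ l, rad S Φ 𝒜 (f l)) * M⁻¹) := by gcongr
        _ = _ := by ring

end em

/-- a finitely generated group has a symmetric generating finset containing `1` -/
theorem exists_gen (G : Type*) [Group G] [DecidableEq G] [Group.FG G] :
    ∃ S : Finset G, (1 : G) ∈ S ∧ (∀ g ∈ S, g⁻¹ ∈ S) ∧ ∀ g : G, ∃ n, g ∈ S ^ n := by
  obtain ⟨T, hT⟩ := Group.fg_def.1 (inferInstance : Group.FG G)
  set S : Finset G := insert 1 (T ∪ T⁻¹) with hS
  have h1 : (1 : G) ∈ S := Finset.mem_insert_self _ _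
  have hinv : ∀ g ∈ S, g⁻¹ ∈ S := by
    intro g hg
    rw [hS, Finset.mem_insert, Finset.mem_union, Finset.mem_inv'] at hg ⊢
    rcases hg with h | h | h
    · left; rw [h, inv_one]
    · right; right; rwa [inv_inv]
    · right; left; exact h
  refine ⟨S, h1, hinv, fun g => ?_⟩
  have hg : g ∈ Subgroup.closure (T : Set G) := by rw [hT]; trivial
  induction hg using Subgroup.closure_induction with
  | mem x hx =>
    refine ⟨1, ?_⟩
    rw [pow_one, hS, Finset.mem_insert, Finset.mem_union]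
    exact Or.inr (Or.inl hx)
  | one => exact ⟨0, by simp⟩
  | mul x y _ _ hx hy =>
    obtain ⟨m, hm⟩ := hx
    obtain ⟨n, hn⟩ := hy
    exact ⟨m + n, mul_mem hm hn⟩
  | inv x _ hx =>
    obtain ⟨m, hm⟩ := hx
    exact ⟨m, inv_mem hinv hm⟩

end Pool.Agent.Zk89.QM.Bern
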