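import Pool.Agent.Zk89.QM.Zero
import Pool.Agent.Zk89.KB.Main

/-!
# Effectively mixing actions: arbitrary families of sequences
-/

set_option autoImplicit false
set_option linter.unusedSectionVars false

open Filter Topology MeasureTheory

noncomputable section

namespace Pool.Agent.Zk89.QM

open Pool.Agent.W761.Box
open Pool.Agent.TH784.KE (Cz)
open Pool.Agent.Zk89.KB (bxc_sub tendsto_sub expand)

/-- A class of maps `ℕ^k → G`. -/
structure PCls (G : Type*) [Group G] where
  P : ∀ k : ℕ, ((Fin k → ℕ) → G) → Prop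
  few : ∀ {k : ℕ} {s : (Fin k → ℕ) → G}, P k s → ∃ D, Few D s
  div : ∀ {k : ℕ} {s s' : (Fin k → ℕ) → G}, P k s → P k s' → P k (fun m => s m * (s' m)⁻¹)
  ev : ∀ {k : ℕ} {s : (Fin k → ℕ) → G}, P k s → ∀ i t, P k (fun m => s (Function.update m i t))
  sub : ∀ {k k' : ℕ} {s : (Fin k → ℕ) → G} (e : Fin k' → Fin k), Function.Injective e → P k s →
    P k' (fun m => s (Function.extend e m 0))

theorem extend_update {k k' : ℕ} (e : Fin k' → Fin k) (he : Function.Injective e)
    (m : Fin k' → ℕ) (i : Fin k') (t : ℕ) :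
    Function.extend e (Function.update m i t) 0 =
      Function.update (Function.extend e m 0) (e i) t := by
  funext l
  by_cases hl : ∃ i', e i' = l
  · obtain ⟨i', rfl⟩ := hl
    rw [he.extend_apply]
    by_cases hi : i' = i
    · subst hi
      simp
    · rw [Function.update_of_ne hi, Function.update_of_ne (fun h => hi (he h)), he.extend_apply]
  · rw [Function.extend_apply' _ _ _ hl, Function.update_of_ne (fun h => hl ⟨i, h.symm⟩),
      Function.extend_apply' _ _ _ hl]

variable {X G : Type*} [Group G] [MeasurableSpace X] {μ : Measure X} [IsProbabilityMeasure μ]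
  {Φ : G →* Equiv.Perm X} {ρ : G → ℝ} {𝒮 : Set (X → ℂ)} {Nm : (X → ℂ) → ℝ} {A : ℝ} {a : ℕ}
  {k : ℕ}

theorem indep_agree {s : (Fin k → ℕ) → G} {L : Finset (Fin k)} (hs : ∀ i, i ∉ L → ¬ Dep s i)
    {m m' : Fin k → ℕ} (h : ∀ i ∈ L, m i = m' i) : s m = s m' := by
  classical
  have key : ∀ T : Finset (Fin k), (∀ i ∈ T, i ∉ L) →
      s (fun i => if i ∈ T then m' i else m i) = s m := by
    intro T
    induction T using Finset.induction_on with
    | empty => intro _; simp
    | insert i T hi ih =>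
      intro hT
      rw [← ih fun l hl => hT l (Finset.mem_insert_of_mem hl)]
      have h1 : (fun l => if l ∈ insert i T then m' l else m l) =
          Function.update (fun l => if l ∈ T then m' l else m l) i (m' i) := by
        funext l
        by_cases hl : l = i
        · subst hl
          simp
        · rw [Function.update_of_ne hl]
          simp [hl]
      rw [h1]
      by_contra hcon
      exact hs i (hT i (Finset.mem_insert_self _ _)) ⟨_, _, hcon⟩
  have h1 := key (Finset.univ.filter fun i => i ∉ L) fun i hi => (Finset.mem_filter.1 hi).2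
  rw [← h1]
  congr 1
  funext i
  by_cases hi : i ∈ L
  · simp [hi, h i hi]
  · simp [hi]

/-- convergence to zero, some of the functions being constant -/
theorem EM.zero_sub [Nonempty X] (h : EM μ Φ ρ 𝒮 Nm A a) (hA : 1 ≤ A) (𝒬 : PCls G) {J : Type}
    [Fintype J] [DecidableEq J] {S : Finset J} (hS : S.Nonempty) (f : J → X → ℂ)
    (hf : ∀ j ∈ S, f j ∈ 𝒮) (hf0 : ∀ j ∈ S, ∫ x, f j x ∂μ = 0)
    (hfc : ∀ j ∉ S, ∃ c : ℂ, f j = fun _ => c) (s : J → (Fin k → ℕ) → G)
    (hs : ∀ j, 𝒬.P k (s j)) (hne : ∀ j, ∀ g, ∃ m, s j m ≠ g)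
    (hdiff : ∀ j j', j ≠ j' → ∀ g, ∃ m, s j m * (s j' m)⁻¹ ≠ g) :
    Cz μ (fun j m => (Φ (s j m) : X → X)) f := by
  classical
  set L : Finset (Fin k) := Finset.univ.filter fun i => ∃ j ∈ S, Dep (s j) i with hL
  set e : Fin L.card → Fin k := fun i => L.orderEmbOfFin rfl i with he
  have heinj : Function.Injective e := (L.orderEmbOfFin rfl).injective
  have hrange : ∀ l, l ∈ L → ∃ i, e i = l := by
    intro l hl
    have : l ∈ Set.range (L.orderEmbOfFin rfl) := by
      rw [Finset.range_orderEmbOfFin]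
      exact hl
    exact this
  have hmem : ∀ i, e i ∈ L := fun i => Finset.orderEmbOfFin_mem L rfl i
  have hind : ∀ j ∈ S, ∀ m m' : Fin k → ℕ, (∀ i, m (e i) = m' (e i)) → s j m = s j m' := by
    intro j hj m m' hmm
    refine indep_agree (L := L) (fun i hi hdep => hi ?_) fun i hi => ?_
    · exact Finset.mem_filter.2 ⟨Finset.mem_univ _, j, hj, hdep⟩
    · obtain ⟨i', rfl⟩ := hrange i hi
      exact hmm i'
  let s' : {j // j ∈ S} → (Fin L.card → ℕ) → G := fun j m => s j.1 (Function.extend e m 0)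
  have hss' : ∀ (j : {j // j ∈ S}) (m : Fin k → ℕ), s j.1 m = s' j (fun i => m (e i)) := by
    intro j m
    refine hind j.1 j.2 _ _ fun i => ?_
    rw [heinj.extend_apply]
  have hL0 : 0 < L.card := by
    rw [Finset.card_pos]
    by_contra hcon
    rw [Finset.not_nonempty_iff_eq_empty] at hcon
    obtain ⟨j, hj⟩ := hS
    obtain ⟨m, hm⟩ := hne j (s j 0)
    apply hm
    refine hind j hj _ _ fun i => ?_
    have := hmem i
    rw [hcon] at this
    exact absurd this (Finset.notMem_empty _)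
  have hz := h.zero hA hL0 (fun j : {j // j ∈ S} => f j.1) (fun j => hf j.1 j.2)
    (fun j => hf0 j.1 j.2) s' (fun j => 𝒬.few (𝒬.sub e heinj (hs j.1)))
    (fun j j' hjj => ⟨𝒬.few (𝒬.sub e heinj (𝒬.div (hs j.1) (hs j'.1))), fun g => by
      obtain ⟨m, hm⟩ := hdiff j.1 j'.1 (fun h => hjj (Subtype.ext h)) g
      refine ⟨fun i => m (e i), ?_⟩
      rw [← hss', ← hss']
      exact hm⟩)
    (fun j i t t' => 𝒬.few (𝒬.div (𝒬.ev (𝒬.sub e heinj (hs j.1)) i t)
      (𝒬.ev (𝒬.sub e heinj (hs j.1)) i t')))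
    (fun i => by
      obtain ⟨j, hj, m, t, hmt⟩ := (Finset.mem_filter.1 (hmem i)).2
      refine ⟨⟨j, hj⟩, fun i => m (e i), t, ?_⟩
      have e1 : s' ⟨j, hj⟩ (fun i => m (e i)) = s j m := (hss' ⟨j, hj⟩ m).symm
      have e2 : s' ⟨j, hj⟩ (Function.update (fun i => m (e i)) i t) =
          s j (Function.update m (e i) t) := by
        have h1 := hss' ⟨j, hj⟩ (Function.update m (e i) t)
        rw [h1]
        congr 1
        funext l
        by_cases hl : l = i
        · subst hl
          simp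
        · rw [Function.update_of_ne hl, Function.update_of_ne fun h => hl (heinj h)]
      rw [e1, e2]
      exact hmt)
  choose c hc using hfc
  filter_upwards [hz] with x hx
  have h1 := (hx.comp (tendsto_sub e)).const_mul (∏ j ∈ Sᶜ, f j x)
  rw [mul_zero] at h1
  refine h1.congr' ?_
  filter_upwards [eventually_ge_atTop (fun _ : Fin k => 1)] with N hN
  rw [Function.comp_apply]
  have h2 := bxc_sub e heinj (N := N) (fun i => hN i)
    (fun n => ∏ j : {j // j ∈ S}, f j.1 (Φ (s' j n) x))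
  rw [← h2, ← bxc_mul]
  congr 1
  funext n
  have e1 : ∏ j, f j (Φ (s j n) x) = (∏ j ∈ S, f j (Φ (s j n) x)) *
      ∏ j ∈ Sᶜ, f j (Φ (s j n) x) := (Finset.prod_mul_prod_compl S _).symm
  have e2 : ∏ j ∈ S, f j (Φ (s j n) x) =
      ∏ j : {j // j ∈ S}, f j.1 (Φ (s' j (fun i => n (e i))) x) := by
    rw [← Finset.prod_coe_sort S (fun j => f j (Φ (s j n) x))]
    refine Finset.prod_congr rfl fun j _ => ?_
    rw [← hss']
  have e3 : ∏ j ∈ Sᶜ, f j (Φ (s j n) x) = ∏ j ∈ Sᶜ, f j x := by
    refine Finset.prod_congr rfl fun j hj => ?_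
    rw [hc j (Finset.mem_compl.1 hj)]
  show _ = ∏ j, f j (Φ (s j n) x)
  rw [e1, e2, e3, mul_comm]

/-- **The limit is the product of the integrals.** -/
theorem EM.conv_prod [Nonempty X] (h : EM μ Φ ρ 𝒮 Nm A a) (hA : 1 ≤ A) (𝒬 : PCls G) {J : Type}
    [Fintype J] [DecidableEq J] (f : J → X → ℂ) (hf : ∀ j, f j ∈ 𝒮) (s : J → (Fin k → ℕ) → G)
    (hs : ∀ j, 𝒬.P k (s j)) (hne : ∀ j, ∀ g, ∃ m, s j m ≠ g)
    (hdiff : ∀ j j', j ≠ j' → ∀ g, ∃ m, s j m * (s j' m)⁻¹ ≠ g) :
    ∀ᵐ x ∂μ, Tendsto (fun N => bxc k N fun m => ∏ j, f j (Φ (s j m) x)) atTop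
      (𝓝 (∏ j, ∫ x, f j x ∂μ)) := by
  classical
  have h1 := expand (μ := μ) (g := fun j m => (Φ (s j m) : X → X)) (f := f)
    (e := fun j _ => ∫ x, f j x ∂μ) fun t ht => by
      refine h.zero_sub hA 𝒬 ht _ ?_ ?_ ?_ s hs hne hdiff
      · intro v hv
        simp only [hv, if_true]
        exact h.sub _ (hf v) _
      · intro v hv
        simp only [hv, if_true]
        have hi : Integrable (f v) μ := Integrable.of_bound (h.meas _ (hf v)).aestronglyMeasurable
          (Nm (f v)) (Eventually.of_forall (h.bdd _ (hf v)))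
        rw [integral_sub hi (integrable_const _), integral_const, probReal_univ, one_smul,
          sub_self]
      · intro v hv
        exact ⟨∫ x, f v x ∂μ, by simp only [hv, if_false]⟩
  filter_upwards [h1] with x hx
  have h2 := hx.add (tendsto_const_nhds (x := ∏ j, ∫ x, f j x ∂μ))
  rw [zero_add] at h2
  refine h2.congr' ?_
  filter_upwards [eventually_ge_atTop (fun _ : Fin k => 1)] with N hN
  have h3 : ∏ j, ∫ x, f j x ∂μ = bxc k N fun _ => ∏ j, ∫ x, f j x ∂μ := by
    unfold Pool.Agent.W761.Box.bxc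
    rw [Finset.sum_const, nsmul_eq_mul, Fintype.card_piFinset]
    have h4 : (∏ j, (N j : ℂ)) ≠ 0 := Finset.prod_ne_zero_iff.2 fun j _ => by
      have h5 : (1 : ℕ) ≤ N j := hN j
      exact_mod_cast (by omega : N j ≠ 0)
    simp only [Finset.card_range]
    push_cast
    field_simp
  nth_rewrite 2 [h3]
  rw [← bxc_add]
  congr 1
  funext n
  ring

/-- **Arbitrary families.** -/
theorem EM.conv_all [Nonempty X] (h : EM μ Φ ρ 𝒮 Nm A a) (hA : 1 ≤ A) (𝒬 : PCls G) {J : Type}
    [Fintype J] [DecidableEq J] (f : J → X → ℂ) (hf : ∀ j, f j ∈ 𝒮) (s : J → (Fin k → ℕ) → G)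
    (hs : ∀ j, 𝒬.P k (s j)) :
    ∀ᵐ x ∂μ, ∃ L, Tendsto (fun N => bxc k N fun m => ∏ j, f j (Φ (s j m) x)) atTop (𝓝 L) := by
  classical
  let r : Setoid J := ⟨fun j j' => ∃ g, ∀ m, s j m = g * s j' m, by
    constructor
    · exact fun j => ⟨1, fun m => (one_mul _).symm⟩
    · rintro j j' ⟨g, hg⟩
      exact ⟨g⁻¹, fun m => by rw [hg m, inv_mul_cancel_left]⟩
    · rintro j j' j'' ⟨g, hg⟩ ⟨g', hg'⟩
      exact ⟨g * g', fun m => by rw [hg m, hg' m, mul_assoc]⟩⟩
  let κ : J → J := fun j => (Quotient.mk r j).out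
  have hκrel : ∀ j, r j (κ j) := fun j =>
    r.symm (Quotient.exact (Quotient.out_eq (Quotient.mk r j)))
  have hκeq : ∀ j j', r j j' → κ j = κ j' := by
    intro j j' hjj
    show (Quotient.mk r j).out = (Quotient.mk r j').out
    rw [Quotient.sound hjj]
  choose g hg using hκrel
  let H : J → X → ℂ := fun c y => ∏ j with κ j = c, f j (Φ (g j) y)
  have hH : ∀ c, H c ∈ 𝒮 := by
    intro c
    exact (h.prod hA (Finset.univ.filter fun j => κ j = c) (fun j y => f j (Φ (g j) y))
      (fun j _ => (h.shift _ (hf j) _).1)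
      (c := max 1 (∑ j, Nm fun y => f j (Φ (g j) y))) (le_max_left _ _)
      (fun j _ => (Finset.single_le_sum (f := fun j => Nm fun y => f j (Φ (g j) y))
        (fun j _ => h.nonneg (h.shift _ (hf j) _).1) (Finset.mem_univ j)).trans
          (le_max_right _ _))).1
  set T : Finset J := Finset.univ.image κ with hT
  have hgroup : ∀ (m : Fin k → ℕ) (x : X), ∏ j, f j (Φ (s j m) x) =
      ∏ c ∈ T, H c (Φ (s c m) x) := by
    intro m x
    rw [← Finset.prod_fiberwise_of_maps_to
      (fun j _ => Finset.mem_image_of_mem κ (Finset.mem_univ j) : ∀ j ∈ Finset.univ, κ j ∈ T)]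
    refine Finset.prod_congr rfl fun c _ => ?_
    refine Finset.prod_congr rfl fun j hj => ?_
    rw [← Equiv.Perm.mul_apply, ← map_mul, ← (Finset.mem_filter.1 hj).2, ← hg]
  let Cst : J → Prop := fun c => ∀ m, s c m = s c 0
  set T1 : Finset J := T.filter fun c => ¬ Cst c with hT1
  have hmain := h.conv_prod hA 𝒬 (J := {c // c ∈ T1}) (fun c => H c.1) (fun c => hH c.1)
    (fun c => s c.1) (fun c => hs c.1)
    (fun c b => by
      by_contra hcon
      push Not at hcon
      exact (Finset.mem_filter.1 c.2).2 fun m => by rw [hcon m, hcon 0])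
    (fun c c' hcc b => by
      by_contra hcon
      push Not at hcon
      apply hcc
      obtain ⟨j, -, hj⟩ := Finset.mem_image.1 (Finset.mem_filter.1 c.2).1
      obtain ⟨j', -, hj'⟩ := Finset.mem_image.1 (Finset.mem_filter.1 c'.2).1
      have h1 : r c.1 c'.1 := ⟨b, fun m => by rw [← hcon m, inv_mul_cancel_right]⟩
      have h2 := hκeq _ _ h1
      have h3 := hκeq _ _ (show r j (κ j) from ⟨g j, hg j⟩)
      have h4 := hκeq _ _ (show r j' (κ j') from ⟨g j', hg j'⟩)
      rw [hj] at h3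
      rw [hj'] at h4
      exact Subtype.ext (h3.trans (h2.trans h4.symm)))
  filter_upwards [hmain] with x hx
  refine ⟨_, (hx.const_mul (∏ c ∈ T.filter Cst, H c (Φ (s c 0) x))).congr fun N => ?_⟩
  rw [← bxc_mul]
  congr 1
  funext m
  rw [hgroup, ← Finset.prod_filter_mul_prod_filter_not T Cst]
  congr 1
  · refine Finset.prod_congr rfl fun c hc => ?_
    rw [(Finset.mem_filter.1 hc).2 m]
  · exact Finset.prod_coe_sort T1 (fun c => H c (Φ (s c m) x))

end Pool.Agent.Zk89.QM
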