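import Pool.Agent.Zk89.QM.Nil
import Pool.Agent.Zk89.QM.Red

/-!
# The class of polynomial maps into a torsion-free nilpotent group
-/

set_option autoImplicit false

open scoped commutatorElement

noncomputable section

namespace Pool.Agent.Zk89.QM

open Pool.Agent.Helper28.LCN

variable {G : Type} [Group G]

/-- a filtration of the group -/
def Fil (G : Type) [Group G] (δ i : ℕ) : Subgroup G :=
  (⊤ : Subgroup G).lowerCentralSeries ((i - 1) / δ)

theorem lcs_anti {a b : ℕ} (h : a ≤ b) :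
    (⊤ : Subgroup G).lowerCentralSeries b ≤ (⊤ : Subgroup G).lowerCentralSeries a := by
  induction b, h using Nat.le_induction with
  | base => exact le_rfl
  | succ b _ ih =>
    refine le_trans ?_ ih
    rw [Subgroup.lowerCentralSeries_succ]
    exact Subgroup.commutator_le_left _ _

theorem Fil_anti (δ i : ℕ) : Fil G δ (i + 1) ≤ Fil G δ i :=
  lcs_anti (Nat.div_le_div_right (by omega))

theorem Fil_comm {δ : ℕ} (hδ : 0 < δ) (i j : ℕ) : ∀ a ∈ Fil G δ i, ∀ b ∈ Fil G δ j,
    ⁅a, b⁆ ∈ Fil G δ (i + j) := by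
  intro a ha b hb
  have h1 := lcs_comm_top (H := G) ((j - 1) / δ) ((i - 1) / δ)
    (Subgroup.commutator_mem_commutator ha hb)
  refine lcs_anti ?_ h1
  rw [Nat.div_le_iff_le_mul_add_pred hδ]
  have h2 := Nat.div_add_mod (i - 1) δ
  have h3 := Nat.div_add_mod (j - 1) δ
  have h4 := Nat.mod_lt (i - 1) hδ
  have h5 := Nat.mod_lt (j - 1) hδ
  have e : δ * ((i - 1) / δ + (j - 1) / δ + 1) = δ * ((i - 1) / δ) + δ * ((j - 1) / δ) + δ := by
    ring
  rw [e]
  omega

theorem Fil_zero {δ i : ℕ} (hi : i ≤ δ) (g : G) : g ∈ Fil G δ i := by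
  unfold Fil
  have : (i - 1) / δ = 0 := by
    rcases Nat.eq_zero_or_pos i with h | h
    · subst h
      simp
    · exact Nat.div_eq_of_lt (by omega)
  rw [this, Subgroup.lowerCentralSeries_zero]
  exact Subgroup.mem_top g

theorem Fil_bot [Group.IsNilpotent G] {δ : ℕ} (hδ : 0 < δ) : ∃ M, Fil G δ M = ⊥ := by
  obtain ⟨c, hc⟩ := Subgroup.nilpotent_iff_lowerCentralSeries.mp (inferInstance : Group.IsNilpotent G)
  refine ⟨δ * c + 1, ?_⟩
  unfold Fil
  rw [Nat.add_sub_cancel, Nat.mul_div_cancel_left _ hδ]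
  exact hc

theorem Q_RR {Φ : ℕ → Subgroup G} : ∀ (m i : ℕ) (f : ℤ → G), Φ (i + m) = ⊥ → Q Φ m i f → RR m f
  | 0, i, f, h, hf => fun n => by
    have := hf n
    rw [add_zero] at h
    rw [h] at this
    exact Subgroup.mem_bot.1 this
  | m + 1, i, f, h, hf => fun s => Q_RR m (i + 1) (dd s f) (by
    rw [show i + 1 + m = i + (m + 1) by ring]
    exact h) (hf.2 s)

theorem Q_one (Φ : ℕ → Subgroup G) : ∀ (m i : ℕ), Q Φ m i (fun _ => 1)
  | 0, i => fun _ => (Φ i).one_mem
  | m + 1, i => ⟨fun _ => (Φ i).one_mem, fun s => by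
    have : dd s (fun _ : ℤ => (1 : G)) = fun _ => 1 := by
      funext n
      simp [dd]
    rw [this]
    exact Q_one Φ m (i + 1)⟩

theorem Q_const {Φ : ℕ → Subgroup G} {i : ℕ} {c : G} (hc : c ∈ Φ i) : ∀ m, Q Φ m i (fun _ => c)
  | 0 => fun _ => hc
  | m + 1 => ⟨fun _ => hc, fun s => by
    have : dd s (fun _ : ℤ => c) = fun _ => 1 := by
      funext n
      simp [dd]
    rw [this]
    exact Q_one Φ m (i + 1)⟩

/-- polynomial functions of degree at most `d` -/
def DegLE : ℕ → (ℤ → ℤ) → Prop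
  | 0, e => ∀ n, e n = e 0
  | d + 1, e => ∀ s, DegLE d (fun n => e (n + s) - e n)

theorem DegLE_const (c : ℤ) : ∀ d, DegLE d (fun _ => c)
  | 0 => fun _ => rfl
  | d + 1 => fun s => by
    simp only [sub_self]
    exact DegLE_const 0 d

theorem DegLE_succ : ∀ (d : ℕ) (e : ℤ → ℤ), DegLE d e → DegLE (d + 1) e
  | 0, e, h => fun s => by
    have : (fun n => e (n + s) - e n) = fun _ => 0 := by
      funext n
      rw [h (n + s), h n, sub_self]
    rw [this]
    exact DegLE_const 0 0
  | d + 1, e, h => fun s => DegLE_succ d _ (h s)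

theorem DegLE_mono {d d' : ℕ} (hd : d ≤ d') {e : ℤ → ℤ} (h : DegLE d e) : DegLE d' e := by
  induction d', hd using Nat.le_induction with
  | base => exact h
  | succ d' _ ih => exact DegLE_succ d' e ih

theorem DegLE_add : ∀ (d : ℕ) (e e' : ℤ → ℤ), DegLE d e → DegLE d e' →
    DegLE d (fun n => e n + e' n)
  | 0, e, e', h, h' => fun n => by
    show e n + e' n = e 0 + e' 0
    rw [h n, h' n]
  | d + 1, e, e', h, h' => fun s => by
    have : (fun n => e (n + s) + e' (n + s) - (e n + e' n)) =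
        fun n => (e (n + s) - e n) + (e' (n + s) - e' n) := by
      funext n
      ring
    show DegLE d (fun n => e (n + s) + e' (n + s) - (e n + e' n))
    rw [this]
    exact DegLE_add d _ _ (h s) (h' s)

theorem DegLE_shift : ∀ (d : ℕ) (e : ℤ → ℤ) (c : ℤ), DegLE d e → DegLE d (fun n => e (n + c))
  | 0, e, c, h => fun n => by
    show e (n + c) = e (0 + c)
    rw [h (n + c), h (0 + c)]
  | d + 1, e, c, h => fun s => by
    have h1 := DegLE_shift d _ c (h s)
    have : (fun n => e (n + s + c) - e (n + c)) = fun n => e (n + c + s) - e (n + c) := by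
      funext n
      rw [show n + s + c = n + c + s by ring]
    show DegLE d (fun n => e (n + s + c) - e (n + c))
    rw [this]
    exact h1

theorem DegLE_mul : ∀ (D d d' : ℕ) (e e' : ℤ → ℤ), d + d' = D → DegLE d e → DegLE d' e' →
    DegLE D (fun n => e n * e' n) := by
  intro D
  induction D with
  | zero =>
    intro d d' e e' hD h h' n
    obtain ⟨rfl, rfl⟩ : d = 0 ∧ d' = 0 := by omega
    show e n * e' n = e 0 * e' 0
    rw [h n, h' n]
  | succ D ih =>
    intro d d' e e' hD h h' s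
    have e1 : (fun n => e (n + s) * e' (n + s) - e n * e' n) =
        fun n => (e (n + s) - e n) * e' (n + s) + e n * (e' (n + s) - e' n) := by
      funext n
      ring
    show DegLE D (fun n => e (n + s) * e' (n + s) - e n * e' n)
    rw [e1]
    refine DegLE_add D _ _ ?_ ?_
    · rcases Nat.eq_zero_or_pos d with hd | hd
      · subst hd
        have : (fun n => (e (n + s) - e n) * e' (n + s)) = fun _ => 0 := by
          funext n
          rw [h (n + s), h n, sub_self, zero_mul]
        rw [this]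
        exact DegLE_const 0 D
      · obtain ⟨d₁, rfl⟩ : ∃ d₁, d = d₁ + 1 := ⟨d - 1, by omega⟩
        exact ih d₁ d' _ _ (by omega) (h s) (DegLE_shift d' e' s h')
    · rcases Nat.eq_zero_or_pos d' with hd | hd
      · subst hd
        have : (fun n => e n * (e' (n + s) - e' n)) = fun _ => 0 := by
          funext n
          rw [h' (n + s), h' n, sub_self, mul_zero]
        rw [this]
        exact DegLE_const 0 D
      · obtain ⟨d₁, rfl⟩ : ∃ d₁, d' = d₁ + 1 := ⟨d' - 1, by omega⟩
        exact ih d d₁ _ _ (by omega) h (h' s)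

theorem poly_slices {k : ℕ} (P : MvPolynomial (Fin k) ℤ) :
    ∃ d, ∀ (i : Fin k) (m : Fin k → ℤ), DegLE d (fun t => MvPolynomial.eval (Function.update m i t) P) := by
  induction P using MvPolynomial.induction_on with
  | C a => exact ⟨0, fun i m => by simp only [MvPolynomial.eval_C]; exact DegLE_const a 0⟩
  | add p q hp hq =>
    obtain ⟨d, hd⟩ := hp
    obtain ⟨d', hd'⟩ := hq
    refine ⟨max d d', fun i m => ?_⟩
    simp only [map_add]
    exact DegLE_add _ _ _ (DegLE_mono (le_max_left _ _) (hd i m))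
      (DegLE_mono (le_max_right _ _) (hd' i m))
  | mul_X p j hp =>
    obtain ⟨d, hd⟩ := hp
    refine ⟨d + 1, fun i m => ?_⟩
    simp only [map_mul, MvPolynomial.eval_X]
    refine DegLE_mul _ d 1 _ _ rfl (hd i m) ?_
    intro s
    show DegLE 0 (fun n => Function.update m i (n + s) j - Function.update m i n j)
    by_cases hj : j = i
    · subst hj
      intro n
      simp
    · intro n
      simp [Function.update_of_ne hj]

theorem dd_zpow (g : G) (e : ℤ → ℤ) (s : ℤ) :
    dd s (fun n => g ^ e n) = fun n => g ^ (e (n + s) - e n) := by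
  funext n
  unfold dd
  rw [zpow_sub]

theorem Q_pow {δ : ℕ} (g : G) : ∀ (m d i : ℕ) (e : ℤ → ℤ), i + d ≤ δ → DegLE d e →
    Q (Fil G δ) m i (fun n => g ^ e n)
  | 0, d, i, e, h, _ => fun n => Fil_zero (by omega) _
  | m + 1, 0, i, e, h, he => ⟨fun n => Fil_zero (by omega) _, fun s => by
    rw [dd_zpow]
    have : (fun n => g ^ (e (n + s) - e n)) = fun _ => 1 := by
      funext n
      rw [he (n + s), he n, sub_self, zpow_zero]
    rw [this]
    exact Q_one _ m (i + 1)⟩
  | m + 1, d + 1, i, e, h, he => ⟨fun n => Fil_zero (by omega) _, fun s => by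
    rw [dd_zpow]
    exact Q_pow g m d (i + 1) _ (by omega) (he s)⟩

/-- polynomial sequences -/
def PolSeq (δ : ℕ) (u : ℤ → G) : Prop := ∀ m, Q (Fil G δ) m 0 u

theorem PolSeq.const (δ : ℕ) (c : G) : PolSeq δ (fun _ => c) := fun m =>
  Q_const (Fil_zero (Nat.zero_le _) c) m

theorem PolSeq.mul {δ : ℕ} (hδ : 0 < δ) {u v : ℤ → G} (hu : PolSeq δ u) (hv : PolSeq δ v) :
    PolSeq δ (fun n => u n * v n) := fun m =>
  (Q_all (Fil G δ) (Fil_anti δ) (Fil_comm hδ) m).1 0 u v (hu m) (hv m)

theorem PolSeq.inv {δ : ℕ} (hδ : 0 < δ) {u : ℤ → G} (hu : PolSeq δ u) :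
    PolSeq δ (fun n => (u n)⁻¹) := fun m =>
  (Q_all (Fil G δ) (Fil_anti δ) (Fil_comm hδ) m).2.1 0 u (hu m)

/-- maps which are polynomial along lines -/
def PolMap (G : Type) [Group G] (δ k : ℕ) (s : (Fin k → ℕ) → G) : Prop :=
  ∀ i m, ∃ u : ℤ → G, PolSeq δ u ∧ ∀ t : ℕ, s (Function.update m i t) = u t

theorem PolMap.mul {δ k : ℕ} (hδ : 0 < δ) {s s' : (Fin k → ℕ) → G} (h : PolMap G δ k s)
    (h' : PolMap G δ k s') : PolMap G δ k (fun m => s m * s' m) := by
  intro i m
  obtain ⟨u, hu, e⟩ := h i m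
  obtain ⟨u', hu', e'⟩ := h' i m
  exact ⟨_, hu.mul hδ hu', fun t => by beta_reduce; rw [e, e']⟩

theorem PolMap.inv {δ k : ℕ} (hδ : 0 < δ) {s : (Fin k → ℕ) → G} (h : PolMap G δ k s) :
    PolMap G δ k (fun m => (s m)⁻¹) := by
  intro i m
  obtain ⟨u, hu, e⟩ := h i m
  exact ⟨_, hu.inv hδ, fun t => by beta_reduce; rw [e]⟩

theorem PolMap.const (δ k : ℕ) (c : G) : PolMap G δ k (fun _ => c) := fun _ _ =>
  ⟨_, PolSeq.const δ c, fun _ => rfl⟩

/-- the class of polynomial maps -/
def nilCls (G : Type) [Group G] [Group.IsNilpotent G] (htf : TorsionFree G) (δ : ℕ) (hδ : 0 < δ) :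
    PCls G where
  P := PolMap G δ
  few := by
    intro k s hs
    obtain ⟨M, hM⟩ := Fil_bot (G := G) hδ
    refine ⟨M, fun i m g => ?_⟩
    obtain ⟨u, hu, e⟩ := hs i m
    have hRR : RR M u := Q_RR M 0 u (by rw [zero_add]; exact hM) (hu M)
    by_contra hcon
    push Not at hcon
    obtain ⟨⟨t₀, ht₀⟩, T, hT, hcard⟩ := hcon
    have h1 := nil_few G htf M u hRR g (T.map ⟨fun t : ℕ => (t : ℤ), Nat.cast_injective⟩)
      (by rw [Finset.card_map]; exact hcard) (by
        intro t ht
        obtain ⟨t', ht', rfl⟩ := Finset.mem_map.1 ht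
        exact (e t').symm.trans (hT t' ht'))
    exact ht₀ ((e t₀).trans (h1 t₀))
  div := fun hs hs' => hs.mul hδ (hs'.inv hδ)
  ev := by
    intro k s hs i t j m
    by_cases hj : j = i
    · subst hj
      refine ⟨_, PolSeq.const δ (s (Function.update m j t)), fun t' => ?_⟩
      beta_reduce
      rw [Function.update_idem]
    · obtain ⟨u, hu, e⟩ := hs j (Function.update m i t)
      refine ⟨u, hu, fun t' => ?_⟩
      beta_reduce
      rw [Function.update_comm hj]
      exact e t'
  sub := by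
    intro k k' s e he hs i m
    obtain ⟨u, hu, e'⟩ := hs (e i) (Function.extend e m 0)
    refine ⟨u, hu, fun t => ?_⟩
    beta_reduce
    rw [extend_update e he]
    exact e' t

/-- polynomial exponents -/
theorem pow_mem {δ k : ℕ} (g : G) {P : MvPolynomial (Fin k) ℤ}
    (hP : ∀ (i : Fin k) (m : Fin k → ℤ), DegLE δ (fun t => MvPolynomial.eval (Function.update m i t) P)) :
    PolMap G δ k (fun m => g ^ (MvPolynomial.eval (fun l => ((m l : ℕ) : ℤ)) P)) := by
  intro i m
  refine ⟨fun t => g ^ MvPolynomial.eval (Function.update (fun l => (m l : ℤ)) i t) P,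
    fun m' => Q_pow g m' δ 0 _ (by omega) (hP i _), fun t => ?_⟩
  have : (fun l => ((Function.update m i t l : ℕ) : ℤ)) =
      Function.update (fun l => (m l : ℤ)) i (t : ℤ) := by
    funext l
    by_cases hl : l = i
    · subst hl
      simp
    · rw [Function.update_of_ne hl, Function.update_of_ne hl]
  beta_reduce
  rw [this]

theorem list_mem {δ k : ℕ} (hδ : 0 < δ) : ∀ {d : ℕ} (s : Fin d → (Fin k → ℕ) → G),
    (∀ i, PolMap G δ k (s i)) → PolMap G δ k (fun m => (List.ofFn fun i => s i m).prod)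
  | 0, s, _ => by
    simp only [List.ofFn_zero, List.prod_nil]
    exact PolMap.const δ k 1
  | d + 1, s, hs => by
    simp only [List.ofFn_succ, List.prod_cons]
    exact (hs 0).mul hδ (list_mem hδ (fun i => s i.succ) fun i => hs _)

/-- **All families of products of powers with polynomial exponents** lie in one class. -/
theorem exists_cls [Group.IsNilpotent G] (htf : TorsionFree G) {d n k : ℕ} (g : Fin d → G)
    (P : Fin d → Fin n → MvPolynomial (Fin k) ℤ) :
    ∃ 𝒬 : PCls G, ∀ j, 𝒬.P k (fun m => (List.ofFn fun i : Fin d =>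
      g i ^ (MvPolynomial.eval (fun l => ((m l : ℕ) : ℤ)) (P i j))).prod) := by
  choose D hD using fun i j => poly_slices (P i j)
  set δ := ∑ i, ∑ j, D i j + 1 with hδ
  refine ⟨nilCls G htf δ (by omega), fun j => ?_⟩
  refine list_mem (by omega) _ fun i => pow_mem _ fun l m => ?_
  refine DegLE_mono ?_ (hD i j l m)
  have h1 : D i j ≤ ∑ j, D i j :=
    Finset.single_le_sum (f := fun j => D i j) (fun _ _ => Nat.zero_le _) (Finset.mem_univ j)
  have h2 : ∑ j, D i j ≤ ∑ i, ∑ j, D i j :=
    Finset.single_le_sum (f := fun i => ∑ j, D i j) (fun _ _ => Nat.zero_le _) (Finset.mem_univ i)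
  omega

end Pool.Agent.Zk89.QM
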