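import Pool.Agent.Zk89.QM.Clos
import Pool.Agent.Zk89.QM.Cls
import Pool.Agent.Zk89.QM.Bern

/-!
# Effectively mixing actions: all bounded functions
-/

set_option autoImplicit false
set_option linter.unusedSectionVars false

open Filter Topology MeasureTheory ProbabilityTheory
open scoped Pointwise

noncomputable section

namespace Pool.Agent.Zk89.QM

open Pool.Agent.W761.Box
open Pool.Agent.Helper28.LCN (TorsionFree)

/-- The sequences of Dunford-Zygmund type lie in one class. -/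
theorem exists_cls_el {G : Type} [Group G] [Group.IsNilpotent G] (htf : TorsionFree G) {n k : ℕ}
    (b : Fin n → G) (h : Fin n → Fin k → G) :
    ∃ 𝒬 : PCls G, ∀ j, 𝒬.P k (fun m => b j * (List.ofFn fun l : Fin k => h j l ^ m l).prod) := by
  choose D hD using fun l : Fin k => poly_slices (MvPolynomial.X l : MvPolynomial (Fin k) ℤ)
  set δ := ∑ l, D l + 1 with hδ
  have hδ0 : 0 < δ := by omega
  refine ⟨nilCls G htf δ hδ0, fun j => ?_⟩
  show PolMap G δ k fun m => b j * (List.ofFn fun l : Fin k => h j l ^ m l).prod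
  refine PolMap.mul hδ0 (PolMap.const δ k (b j))
    (list_mem hδ0 (fun (l : Fin k) (m : Fin k → ℕ) => h j l ^ m l) fun l => ?_)
  have h1 := pow_mem (δ := δ) (k := k) (h j l)
    (P := (MvPolynomial.X l : MvPolynomial (Fin k) ℤ)) (fun i m => DegLE_mono (by
      have : D l ≤ ∑ l, D l :=
        Finset.single_le_sum (f := D) (fun _ _ => Nat.zero_le _) (Finset.mem_univ l)
      omega) (hD l i m))
  simpa only [MvPolynomial.eval_X, zpow_natCast] using h1

section

variable {X : Type*} [MeasurableSpace X] {μ : Measure X} [IsProbabilityMeasure μ] {k : ℕ}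
  {G : Type*} [Group G] {Φ : G →* Equiv.Perm X}

theorem goodF_el (hmp : ∀ g, MeasurePreserving (Φ g) μ μ) (b : G) (h : Fin k → G) :
    GoodF μ atTop (fun m : Fin k → ℕ => (Φ (b * (List.ofFn fun l => h l ^ m l).prod) : X → X)) :=
  Pool.Agent.Zk89.KB.good_el hmp b h

end

namespace Bern

variable {X G : Type*} [Group G] [DecidableEq G] {𝒜 : MeasurableSpace X}
  [mX : MeasurableSpace X] {μ : Measure X} [IsProbabilityMeasure μ] {Φ : G →* Equiv.Perm X}
  {S : Finset G}

theorem Sg_univ (hgen : ∀ g : G, ∃ n, g ∈ S ^ n) :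
    (⨆ g, 𝒜.comap (Φ g : X → X)) ≤ ⨆ n : ℕ, Sg Φ 𝒜 ((S ^ n : Finset G) : Set G) := by
  refine iSup_le fun g => ?_
  obtain ⟨n, hn⟩ := hgen g
  refine le_trans ?_ (le_iSup (fun n : ℕ => Sg Φ 𝒜 ((S ^ n : Finset G) : Set G)) n)
  unfold Sg
  exact le_iSup₂_of_le g (Finset.mem_coe.2 hn) le_rfl

theorem dense_real (h1 : (1 : G) ∈ S) (hgen : ∀ g : G, ∃ n, g ∈ S ^ n)
    (hmp : ∀ g, MeasurePreserving (Φ g) μ μ) (h𝒜 : 𝒜 ≤ mX)
    (hG : ∀ B, MeasurableSet B → ∃ B', MeasurableSet[⨆ g, 𝒜.comap (Φ g : X → X)] B' ∧ B =ᵐ[μ] B')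
    {f : X → ℝ} (hf : Measurable f) (hb : ∀ x, |f x| ≤ 1) {ε : ℝ} (hε : 0 < ε) :
    ∃ (n : ℕ) (u : X → ℝ), Measurable[Sg Φ 𝒜 ((S ^ n : Finset G) : Set G)] u ∧
      (∀ x, |u x| ≤ 1) ∧ ∫ x, |f x - u x| ∂μ ≤ ε := by
  let ℱ : Filtration ℕ mX :=
    { seq := fun n => Sg Φ 𝒜 ((S ^ n : Finset G) : Set G)
      mono' := by
        intro i j hij
        exact Sg_mono Φ 𝒜 (Finset.coe_subset.2 (mono h1 hij))
      le' := fun n => Sg_le hmp h𝒜 _ }
  have hfi : Integrable f μ := Integrable.of_bound hf.aestronglyMeasurable 1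
    (Eventually.of_forall hb)
  have hsup : (⨆ a, 𝒜.comap (Φ a : X → X)) ≤ ⨆ n, ℱ n := Sg_univ hgen
  have hle : (⨆ n, (ℱ n : MeasurableSpace X)) ≤ mX := iSup_le fun n => ℱ.le n
  have hfe : f =ᵐ[μ] μ[f | ⨆ n, (ℱ n : MeasurableSpace X)] := by
    refine ae_eq_of_forall_setIntegral_eq_of_sigmaFinite' le_rfl
      (fun B _ _ => hfi.integrableOn) (fun B _ _ => integrable_condExp.integrableOn)
      (fun B hB _ => ?_) hf.aestronglyMeasurable
      (integrable_condExp (μ := μ) (m := ⨆ n, (ℱ n : MeasurableSpace X))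
        (f := f)).aestronglyMeasurable
    obtain ⟨B', hB', hBB'⟩ := hG B hB
    rw [setIntegral_congr_set hBB', setIntegral_congr_set hBB',
      setIntegral_condExp hle hfi (hsup _ hB')]
  have h2 := tendsto_eLpNorm_condExp (μ := μ) (ℱ := ℱ) f
  have h3 := (ENNReal.tendsto_toReal ENNReal.zero_ne_top).comp h2
  rw [ENNReal.toReal_zero] at h3
  obtain ⟨n, hn⟩ := ((tendsto_order.1 h3).2 ε hε).exists
  have h4 : ∫ x, |f x - (μ[f | ℱ n]) x| ∂μ =
      (eLpNorm (μ[f | ℱ n] - μ[f | ⨆ n, (ℱ n : MeasurableSpace X)]) 1 μ).toReal := by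
    rw [eLpNorm_one_eq_lintegral_enorm, ← integral_norm_eq_lintegral_enorm
      (integrable_condExp.sub integrable_condExp).aestronglyMeasurable]
    apply integral_congr_ae
    filter_upwards [hfe] with x hx
    rw [Pi.sub_apply, ← hx, Real.norm_eq_abs, abs_sub_comm]
  have h5 : Measurable[ℱ n] (μ[f | ℱ n]) := stronglyMeasurable_condExp.measurable
  refine ⟨n, fun x => max (-1) (min 1 ((μ[f | ℱ n]) x)), ?_, ?_, ?_⟩
  · exact Measurable.max measurable_const (Measurable.min measurable_const h5)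
  · intro x
    rw [abs_le]
    exact ⟨le_max_left _ _, max_le (by norm_num) (min_le_left _ _)⟩
  · refine le_trans (integral_mono_of_nonneg (Eventually.of_forall fun x => abs_nonneg _)
      (hfi.sub integrable_condExp).abs (Eventually.of_forall fun x => ?_)) (h4.trans_le hn.le)
    have h6 := abs_le.1 (hb x)
    simp only [Pi.sub_apply]
    set c := (μ[f | ℱ n]) x
    rcases le_total c (-1) with h7 | h7
    · rw [min_eq_right (by linarith), max_eq_left h7, abs_of_nonneg (by linarith),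
        abs_of_nonneg (by linarith)]
      linarith
    · rcases le_total c 1 with h8 | h8
      · rw [min_eq_right h8, max_eq_right h7]
      · rw [min_eq_left h8, max_eq_right (by norm_num), abs_of_nonpos (by linarith),
          abs_of_nonpos (by linarith)]
        linarith

/-- local functions are dense -/
theorem dense (h1 : (1 : G) ∈ S) (hgen : ∀ g : G, ∃ n, g ∈ S ^ n)
    (hmp : ∀ g, MeasurePreserving (Φ g) μ μ) (h𝒜 : 𝒜 ≤ mX)
    (hG : ∀ B, MeasurableSet B → ∃ B', MeasurableSet[⨆ g, 𝒜.comap (Φ g : X → X)] B' ∧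
      B =ᵐ[μ] B') : Dns μ (Lc Φ 𝒜) := by
  intro f ⟨hfm, C, hC⟩ ε hε
  set K : ℝ := |C| + 1 with hK
  have hK0 : 0 < K := by positivity
  have hfK : ∀ x, ‖f x‖ ≤ K := fun x => (hC x).trans ((le_abs_self C).trans (by linarith))
  obtain ⟨n₁, u₁, hu₁, hb₁, hi₁⟩ := dense_real (μ := μ) (Φ := Φ) h1 hgen hmp h𝒜 hG
    (f := fun x => K⁻¹ * (f x).re) ((Complex.measurable_re.comp hfm).const_mul _)
    (fun x => by
      rw [abs_mul, abs_of_pos (inv_pos.2 hK0), inv_mul_le_iff₀ hK0, mul_one]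
      exact (Complex.abs_re_le_norm _).trans (hfK x)) (ε := ε / (2 * K)) (by positivity)
  obtain ⟨n₂, u₂, hu₂, hb₂, hi₂⟩ := dense_real (μ := μ) (Φ := Φ) h1 hgen hmp h𝒜 hG
    (f := fun x => K⁻¹ * (f x).im) ((Complex.measurable_im.comp hfm).const_mul _)
    (fun x => by
      rw [abs_mul, abs_of_pos (inv_pos.2 hK0), inv_mul_le_iff₀ hK0, mul_one]
      exact (Complex.abs_im_le_norm _).trans (hfK x)) (ε := ε / (2 * K)) (by positivity)
  set N := max n₁ n₂ with hN
  have hm₁ : Measurable[Sg Φ 𝒜 ((S ^ N : Finset G) : Set G)] u₁ :=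
    hu₁.mono (Sg_mono Φ 𝒜 (Finset.coe_subset.2 (mono h1 (le_max_left _ _)))) le_rfl
  have hm₂ : Measurable[Sg Φ 𝒜 ((S ^ N : Finset G) : Set G)] u₂ :=
    hu₂.mono (Sg_mono Φ 𝒜 (Finset.coe_subset.2 (mono h1 (le_max_right _ _)))) le_rfl
  let u : X → ℂ := fun x => (K : ℂ) * ((u₁ x : ℂ) + (u₂ x : ℂ) * Complex.I)
  have hum : Measurable[Sg Φ 𝒜 ((S ^ N : Finset G) : Set G)] u := by
    have e1 : Measurable fun p : ℝ × ℝ => (K : ℂ) * ((p.1 : ℂ) + (p.2 : ℂ) * Complex.I) := by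
      fun_prop
    exact e1.comp (hm₁.prodMk hm₂)
  have hub : ∀ x, ‖u x‖ ≤ K * 2 := by
    intro x
    simp only [u, norm_mul, Complex.norm_real, Real.norm_eq_abs, abs_of_pos hK0]
    refine mul_le_mul_of_nonneg_left ((norm_add_le _ _).trans ?_) hK0.le
    rw [norm_mul, Complex.norm_I, mul_one, Complex.norm_real, Complex.norm_real]
    have := hb₁ x
    have := hb₂ x
    rw [Real.norm_eq_abs, Real.norm_eq_abs]
    linarith
  have humX : Measurable u := hum.mono (Sg_le hmp h𝒜 _) le_rfl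
  refine ⟨u, ⟨⟨S ^ N, hum⟩, _, hub⟩, ⟨humX, _, hub⟩, ?_⟩
  have hpt : ∀ x, ‖f x - u x‖ ≤ K * |K⁻¹ * (f x).re - u₁ x| + K * |K⁻¹ * (f x).im - u₂ x| := by
    intro x
    have e : f x - u x = (K : ℂ) * ((((K⁻¹ * (f x).re - u₁ x : ℝ)) : ℂ) +
        (((K⁻¹ * (f x).im - u₂ x : ℝ)) : ℂ) * Complex.I) := by
      have hKc : (K : ℂ) ≠ 0 := by exact_mod_cast hK0.ne'
      simp only [u]
      push_cast
      have h3 : f x = ((f x).re : ℂ) + ((f x).im : ℂ) * Complex.I := (Complex.re_add_im _).symm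
      nth_rewrite 1 [h3]
      field_simp
      ring
    rw [e, norm_mul, Complex.norm_real, Real.norm_eq_abs, abs_of_pos hK0, ← mul_add]
    refine mul_le_mul_of_nonneg_left ((norm_add_le _ _).trans ?_) hK0.le
    rw [norm_mul, Complex.norm_I, mul_one, Complex.norm_real, Complex.norm_real,
      Real.norm_eq_abs, Real.norm_eq_abs]
  have hi : ∀ (w v : X → ℝ), Measurable w → Measurable v → (∀ x, |v x| ≤ 1) →
      (∀ x, |w x| ≤ 1) → Integrable (fun x => |w x - v x|) μ := by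
    intro w v hw hv hv1 hw1
    refine Integrable.of_bound (hw.sub hv).abs.aestronglyMeasurable 2
      (Eventually.of_forall fun x => ?_)
    rw [Real.norm_eq_abs, abs_abs]
    refine (abs_sub _ _).trans ?_
    linarith [hv1 x, hw1 x]
  have hI1 : Integrable (fun x => |K⁻¹ * (f x).re - u₁ x|) μ :=
    hi _ _ ((Complex.measurable_re.comp hfm).const_mul _) (hm₁.mono (Sg_le hmp h𝒜 _) le_rfl) hb₁
      (fun x => by
        rw [abs_mul, abs_of_pos (inv_pos.2 hK0), inv_mul_le_iff₀ hK0, mul_one]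
        exact (Complex.abs_re_le_norm _).trans (hfK x))
  have hI2 : Integrable (fun x => |K⁻¹ * (f x).im - u₂ x|) μ :=
    hi _ _ ((Complex.measurable_im.comp hfm).const_mul _) (hm₂.mono (Sg_le hmp h𝒜 _) le_rfl) hb₂
      (fun x => by
        rw [abs_mul, abs_of_pos (inv_pos.2 hK0), inv_mul_le_iff₀ hK0, mul_one]
        exact (Complex.abs_im_le_norm _).trans (hfK x))
  refine (integral_mono_of_nonneg (Eventually.of_forall fun x => norm_nonneg _)
    ((hI1.const_mul K).add (hI2.const_mul K)) (Eventually.of_forall hpt)).trans ?_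
  have e3 : ∫ x, ((fun x => K * |K⁻¹ * (f x).re - u₁ x|) + fun x => K * |K⁻¹ * (f x).im - u₂ x|) x
      ∂μ = K * ∫ x, |K⁻¹ * (f x).re - u₁ x| ∂μ + K * ∫ x, |K⁻¹ * (f x).im - u₂ x| ∂μ := by
    rw [integral_add' (hI1.const_mul K) (hI2.const_mul K), integral_const_mul, integral_const_mul]
  rw [e3]
  have h7 : K * (ε / (2 * K)) = ε / 2 := by field_simp
  have h8 := mul_le_mul_of_nonneg_left hi₁ hK0.le
  have h9 := mul_le_mul_of_nonneg_left hi₂ hK0.le
  rw [h7] at h8 h9
  linarith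

end Bern

end Pool.Agent.Zk89.QM
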