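import Pool.Agent.Zk89.QM.Riem

/-!
# Reduction of multiple averages to averages of single functions
-/

set_option autoImplicit false
set_option linter.unusedSectionVars false

open Filter Topology MeasureTheory

noncomputable section

namespace Pool.Agent.Zk89.QM

open Pool.Agent.W761.Box
open Pool.Agent.Zk89.KS (ae_tendsto_zero)

/-- Approximation of limits along a filter. -/
theorem lim_closeF {α : Type*} {𝓕 : Filter α} [𝓕.NeBot] (A : α → ℂ) (Ai : ℕ → α → ℂ)
    (L : ℕ → ℂ) (B : ℕ → α → ℝ) (b : ℕ → ℝ) (h1 : ∀ i, Tendsto (Ai i) 𝓕 (𝓝 (L i)))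
    (h2 : ∀ i, ∀ᶠ N in 𝓕, ‖A N - Ai i N‖ ≤ B i N) (h3 : ∀ i, Tendsto (B i) 𝓕 (𝓝 (b i)))
    (h4 : Tendsto b atTop (𝓝 0)) :
    ∃ l, Tendsto A 𝓕 (𝓝 l) ∧ Tendsto L atTop (𝓝 l) := by
  have hL : ∀ i j, ‖L i - L j‖ ≤ b i + b j := by
    intro i j
    refine le_of_tendsto_of_tendsto ((h1 i).sub (h1 j)).norm ((h3 i).add (h3 j)) ?_
    filter_upwards [h2 i, h2 j] with N hi hj
    have e : Ai i N - Ai j N = (A N - Ai j N) - (A N - Ai i N) := by ring
    rw [e]
    refine (norm_sub_le _ _).trans ?_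
    linarith
  have hc : CauchySeq L := by
    rw [Metric.cauchySeq_iff]
    intro ε hε
    obtain ⟨n, hn⟩ := eventually_atTop.1 ((tendsto_order.1 h4).2 (ε / 2) (by positivity))
    refine ⟨n, fun i hi j hj => ?_⟩
    rw [dist_eq_norm]
    have := hL i j
    have := hn i hi
    have := hn j hj
    linarith
  obtain ⟨l, hl⟩ := cauchySeq_tendsto_of_complete hc
  refine ⟨l, ?_, hl⟩
  rw [Metric.tendsto_nhds]
  intro ε hε
  have h5 : ∀ᶠ i in atTop, ‖L i - l‖ < ε / 4 := by
    have := (Metric.tendsto_nhds.1 hl) (ε / 4) (by positivity)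
    filter_upwards [this] with i hi
    rwa [dist_eq_norm] at hi
  obtain ⟨i, hi1, hi2⟩ := (((tendsto_order.1 h4).2 (ε / 4) (by positivity)).and h5).exists
  have h6 := (Metric.tendsto_nhds.1 (h1 i)) (ε / 4) (by positivity)
  have h7 := (tendsto_order.1 (h3 i)).2 (ε / 4) hi1
  filter_upwards [h2 i, h6, h7] with N hN1 hN2 hN3
  rw [dist_eq_norm] at hN2 ⊢
  have e : A N - l = (A N - Ai i N) + (Ai i N - L i) + (L i - l) := by ring
  rw [e]
  refine (norm_add₃_le).trans_lt ?_
  linarith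

variable {X : Type*} [MeasurableSpace X] {μ : Measure X} [IsProbabilityMeasure μ] {k : ℕ}
  {J : Type*} [Fintype J] [DecidableEq J]

/-- The maps `g m` are good for single functions along the filter `𝓕` of boxes. -/
def GoodF (μ : Measure X) (𝓕 : Filter (Fin k → ℕ)) (g : (Fin k → ℕ) → X → X) : Prop :=
  ∀ H : X → ℝ, Measurable H → (∃ C : ℝ, ∀ x, |H x| ≤ C) →
    ∀ᵐ x ∂μ, ∃ L : ℝ, Tendsto (fun N => bx k N fun m => H (g m x)) 𝓕 (𝓝 L)

/-- The integral of the limit. -/
theorem int_limF {𝓕 : Filter (Fin k → ℕ)} [𝓕.NeBot] [𝓕.IsCountablyGenerated]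
    {φ : (Fin k → ℕ) → X → X} (hφ : ∀ m, MeasurePreserving (φ m) μ μ)
    {G : X → ℝ} (hG : Measurable G) {C : ℝ} (hC : 0 ≤ C) (hb : ∀ x, |G x| ≤ C)
    (h0 : ∀ x, 0 ≤ G x) {γ : X → ℝ}
    (hγ : ∀ᵐ x ∂μ, Tendsto (fun N => bx k N (fun m => G (φ m x))) 𝓕 (𝓝 (γ x))) :
    0 ≤ᵐ[μ] γ ∧ Integrable γ μ ∧ ∫ x, γ x ∂μ ≤ ∫ x, G x ∂μ := by
  have hm : ∀ N, Measurable fun x => bx k N (fun m => G (φ m x)) := by
    intro N
    unfold bx
    exact (Finset.measurable_fun_sum _ fun m _ => hG.comp (hφ m).measurable).const_mul _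
  refine ⟨?_, ?_, ?_⟩
  · filter_upwards [hγ] with x hx
    exact ge_of_tendsto hx (Eventually.of_forall fun N => bx_nonneg fun m => h0 _)
  · have hms : AEStronglyMeasurable γ μ := aestronglyMeasurable_of_tendsto_ae 𝓕
        (fun N => (hm N).aestronglyMeasurable) hγ
    refine Integrable.of_bound hms C ?_
    filter_upwards [hγ] with x hx
    rw [Real.norm_eq_abs]
    exact le_of_tendsto hx.abs (Eventually.of_forall fun N => bx_bound hC fun m => hb _)
  have h1 := tendsto_integral_filter_of_dominated_convergence (l := 𝓕) (fun _ => C)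
    (Eventually.of_forall fun N => (hm N).aestronglyMeasurable)
    (Eventually.of_forall fun N => Eventually.of_forall fun x => by
      rw [Real.norm_eq_abs]
      exact bx_bound hC fun m => hb _)
    (integrable_const _) hγ
  refine le_of_tendsto h1 (Eventually.of_forall fun N => ?_)
  have hGi : Integrable G μ := Integrable.of_bound hG.aestronglyMeasurable C
    (Eventually.of_forall fun x => by
      rw [Real.norm_eq_abs]
      exact hb x)
  have h2 : ∀ m, ∫ x, G (φ m x) ∂μ = ∫ x, G x ∂μ := by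
    intro m
    have h3 := integral_map (μ := μ) (φ := φ m) (f := G)
      (hφ m).measurable.aemeasurable hG.aestronglyMeasurable
    rw [(hφ m).map_eq] at h3
    exact h3.symm
  have h4 : ∫ x, bx k N (fun m => G (φ m x)) ∂μ = bx k N (fun _ => ∫ x, G x ∂μ) := by
    unfold bx
    rw [integral_const_mul, integral_finsetSum]
    · rw [Finset.sum_congr rfl fun m _ => h2 m]
    · intro m _
      exact (hφ m).integrable_comp_of_integrable hGi
  rw [h4]
  exact bx_const_le (integral_nonneg h0)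

/-- **The approximation step.** -/
theorem closeF {𝓕 : Filter (Fin k → ℕ)} [𝓕.NeBot] [𝓕.IsCountablyGenerated]
    {g : J → (Fin k → ℕ) → X → X} (hg : ∀ j m, MeasurePreserving (g j m) μ μ)
    (F : J → X → ℂ) (hF : ∀ j, BM (F j)) (v : J) (hgood : GoodF μ 𝓕 (g v)) (u : ℕ → X → ℂ)
    (hu : ∀ i, BM (u i)) (hint : ∀ i : ℕ, ∫ x, ‖F v x - u i x‖ ∂μ ≤ (1 / 2 : ℝ) ^ i)
    (Λ : ℕ → X → ℂ) (hΛ : ∀ i, ∀ᵐ x ∂μ, Tendsto (fun N => bxc k N fun m =>
      ∏ j, (Function.update F v (u i)) j (g j m x)) 𝓕 (𝓝 (Λ i x))) :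
    ∀ᵐ x ∂μ, ∃ l, Tendsto (fun N => bxc k N fun m => ∏ j, F j (g j m x)) 𝓕 (𝓝 l) ∧
      Tendsto (fun i => Λ i x) atTop (𝓝 l) := by
  classical
  choose hFm C hC using hF
  choose hum Cu hCu using hu
  set D : ℝ := ∏ l ∈ Finset.univ.erase v, |C l| with hD
  have hD0 : 0 ≤ D := Finset.prod_nonneg fun l _ => abs_nonneg _
  let R : ℕ → X → ℝ := fun i x => ‖F v x - u i x‖
  have hRm : ∀ i, Measurable (R i) := fun i => ((hFm v).sub (hum i)).norm
  have hR0 : ∀ i x, 0 ≤ R i x := fun i x => norm_nonneg _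
  have hRb : ∀ i x, |R i x| ≤ |C v| + |Cu i| := by
    intro i x
    rw [abs_of_nonneg (hR0 i x)]
    refine (norm_sub_le _ _).trans (add_le_add ((hC v x).trans (le_abs_self _))
      ((hCu i x).trans (le_abs_self _)))
  have hlim : ∀ i, ∀ᵐ x ∂μ, ∃ L : ℝ,
      Tendsto (fun N => bx k N fun m => R i (g v m x)) 𝓕 (𝓝 L) := fun i =>
    hgood (R i) (hRm i) ⟨_, hRb i⟩
  let γ : ℕ → X → ℝ := fun i x => limUnder 𝓕 fun N => bx k N fun m => R i (g v m x)
  have hγ : ∀ i, ∀ᵐ x ∂μ, Tendsto (fun N => bx k N fun m => R i (g v m x)) 𝓕 (𝓝 (γ i x)) := by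
    intro i
    filter_upwards [hlim i] with x hx
    exact tendsto_nhds_limUnder hx
  have hγ2 := fun i => int_limF (hg v) (hRm i) (C := |C v| + |Cu i|) (by positivity) (hRb i)
    (hR0 i) (hγ i)
  have hγ0 : ∀ᵐ x ∂μ, Tendsto (fun i => γ i x) atTop (𝓝 0) := by
    have hmk : ∀ i, γ i =ᵐ[μ] (hγ2 i).2.1.aestronglyMeasurable.mk (γ i) := fun i =>
      (hγ2 i).2.1.aestronglyMeasurable.ae_eq_mk
    have h1 : ∀ᵐ x ∂μ, Tendsto
        (fun i => |(hγ2 i).2.1.aestronglyMeasurable.mk (γ i) x|) atTop (𝓝 0) := by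
      refine ae_tendsto_zero (c := fun i : ℕ => (1 / 2 : ℝ) ^ i) ?_ ?_ ?_ ?_ ?_
      · intro i
        exact (hγ2 i).2.1.aestronglyMeasurable.stronglyMeasurable_mk.measurable.norm
      · exact fun i x => abs_nonneg _
      · intro i
        exact ((integrable_congr (hmk i)).1 (hγ2 i).2.1).abs
      · intro i
        refine le_trans (le_of_eq ?_) ((hγ2 i).2.2.trans (hint i))
        refine integral_congr_ae ?_
        filter_upwards [hmk i, (hγ2 i).1] with x hx hx0
        rw [← hx]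
        exact abs_of_nonneg hx0
      · exact summable_geometric_two
    filter_upwards [h1, ae_all_iff.2 hmk] with x hx hx2
    have h3 : Tendsto (fun i => |γ i x|) atTop (𝓝 0) := by
      refine hx.congr fun i => ?_
      rw [← hx2 i]
    exact (tendsto_zero_iff_abs_tendsto_zero _).2 h3
  filter_upwards [hγ0, ae_all_iff.2 hγ, ae_all_iff.2 hΛ] with x hx1 hx2 hx3
  have hb0 : Tendsto (fun i => D * γ i x) atTop (𝓝 0) := by
    have h2 := hx1.const_mul D
    rwa [mul_zero] at h2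
  refine lim_closeF _ (fun i N => bxc k N fun m =>
      ∏ j, (Function.update F v (u i)) j (g j m x)) (fun i => Λ i x)
      (fun i N => D * bx k N fun m => R i (g v m x)) _ hx3 (fun i => ?_)
      (fun i => (hx2 i).const_mul D) hb0
  refine Eventually.of_forall fun N => ?_
  rw [← bxc_sub]
  refine (bxc_norm _ _ _).trans ?_
  rw [← bx_mul]
  refine bx_mono fun m => ?_
  rw [← Finset.mul_prod_erase _ (fun j => F j (g j m x)) (Finset.mem_univ v),
    ← Finset.mul_prod_erase _ (fun j => (Function.update F v (u i)) j (g j m x))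
      (Finset.mem_univ v), Function.update_self]
  have e1 : ∏ j ∈ Finset.univ.erase v, (Function.update F v (u i)) j (g j m x) =
      ∏ j ∈ Finset.univ.erase v, F j (g j m x) := by
    refine Finset.prod_congr rfl fun j hj => ?_
    rw [Function.update_of_ne (Finset.ne_of_mem_erase hj)]
  rw [e1, ← sub_mul, norm_mul, mul_comm]
  refine mul_le_mul ?_ le_rfl (norm_nonneg _) hD0
  rw [norm_prod]
  exact Finset.prod_le_prod (fun _ _ => norm_nonneg _) fun j _ =>
    (hC j _).trans (le_abs_self _)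

/-- `𝒮` is dense in `L¹`. -/
def Dns (μ : Measure X) (𝒮 : Set (X → ℂ)) : Prop :=
  ∀ f : X → ℂ, BM f → ∀ ε : ℝ, 0 < ε → ∃ u ∈ 𝒮, BM u ∧ ∫ x, ‖f x - u x‖ ∂μ ≤ ε

theorem update_mem {𝒮 : Set (X → ℂ)} {B : Finset J} {v : J} {F : J → X → ℂ}
    (h1 : ∀ j, BM (F j)) (h2 : ∀ j ∉ insert v B, F j ∈ 𝒮) {u : X → ℂ} (hu : u ∈ 𝒮) (hu' : BM u) :
    (∀ j, BM (Function.update F v u j)) ∧ ∀ j ∉ B, Function.update F v u j ∈ 𝒮 := by
  constructor
  · intro j
    by_cases hj : j = v
    · subst hj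
      rw [Function.update_self]
      exact hu'
    · rw [Function.update_of_ne hj]
      exact h1 j
  · intro j hjB
    by_cases hj : j = v
    · subst hj
      rw [Function.update_self]
      exact hu
    · rw [Function.update_of_ne hj]
      refine h2 j fun hc => ?_
      rcases Finset.mem_insert.1 hc with h3 | h3
      · exact hj h3
      · exact hjB h3

/-- **Existence of the limit for all bounded functions.** -/
theorem linf_all {𝓕 : Filter (Fin k → ℕ)} [𝓕.NeBot] [𝓕.IsCountablyGenerated]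
    {g : J → (Fin k → ℕ) → X → X} (hg : ∀ j m, MeasurePreserving (g j m) μ μ)
    (hgood : ∀ j, GoodF μ 𝓕 (g j)) {𝒮 : Set (X → ℂ)} (hd : Dns μ 𝒮)
    (hconv : ∀ F : J → X → ℂ, (∀ j, F j ∈ 𝒮) → ∀ᵐ x ∂μ, ∃ L,
      Tendsto (fun N => bxc k N fun m => ∏ j, F j (g j m x)) 𝓕 (𝓝 L))
    (F : J → X → ℂ) (hF : ∀ j, BM (F j)) :
    ∀ᵐ x ∂μ, ∃ L, Tendsto (fun N => bxc k N fun m => ∏ j, F j (g j m x)) 𝓕 (𝓝 L) := by
  classical
  have key : ∀ (B : Finset J) (F : J → X → ℂ), (∀ j, BM (F j)) → (∀ j ∉ B, F j ∈ 𝒮) →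
      ∀ᵐ x ∂μ, ∃ L, Tendsto (fun N => bxc k N fun m => ∏ j, F j (g j m x)) 𝓕 (𝓝 L) := by
    intro B
    induction B using Finset.induction_on with
    | empty =>
      intro F _ hF2
      exact hconv F fun j => hF2 j (Finset.notMem_empty j)
    | insert v B hv ih =>
      intro F hF1 hF2
      choose u hu hu' hint using fun i : ℕ =>
        hd (F v) (hF1 v) ((1 / 2 : ℝ) ^ i) (by positivity)
      have hconv' := fun i => ih _ (update_mem hF1 hF2 (hu i) (hu' i)).1
        (update_mem hF1 hF2 (hu i) (hu' i)).2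
      let Λ : ℕ → X → ℂ := fun i x => limUnder 𝓕 fun N => bxc k N fun m =>
        ∏ j, (Function.update F v (u i)) j (g j m x)
      have h1 := closeF hg F hF1 v (hgood v) u hu' hint Λ fun i => by
        filter_upwards [hconv' i] with x hx
        exact tendsto_nhds_limUnder hx
      filter_upwards [h1] with x hx
      obtain ⟨l, hl, -⟩ := hx
      exact ⟨l, hl⟩
  exact key Finset.univ F hF fun j hj => absurd (Finset.mem_univ j) hj

/-- **The limit is the product of the integrals for all bounded functions.** -/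
theorem linf_prod {𝓕 : Filter (Fin k → ℕ)} [𝓕.NeBot] [𝓕.IsCountablyGenerated]
    {g : J → (Fin k → ℕ) → X → X} (hg : ∀ j m, MeasurePreserving (g j m) μ μ)
    (hgood : ∀ j, GoodF μ 𝓕 (g j)) {𝒮 : Set (X → ℂ)} (hd : Dns μ 𝒮)
    (hconv : ∀ F : J → X → ℂ, (∀ j, F j ∈ 𝒮) → ∀ᵐ x ∂μ,
      Tendsto (fun N => bxc k N fun m => ∏ j, F j (g j m x)) 𝓕 (𝓝 (∏ j, ∫ x, F j x ∂μ)))
    (F : J → X → ℂ) (hF : ∀ j, BM (F j)) :
    ∀ᵐ x ∂μ, Tendsto (fun N => bxc k N fun m => ∏ j, F j (g j m x)) 𝓕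
      (𝓝 (∏ j, ∫ x, F j x ∂μ)) := by
  classical
  have key : ∀ (B : Finset J) (F : J → X → ℂ), (∀ j, BM (F j)) → (∀ j ∉ B, F j ∈ 𝒮) →
      ∀ᵐ x ∂μ, Tendsto (fun N => bxc k N fun m => ∏ j, F j (g j m x)) 𝓕
        (𝓝 (∏ j, ∫ x, F j x ∂μ)) := by
    intro B
    induction B using Finset.induction_on with
    | empty =>
      intro F _ hF2
      exact hconv F fun j => hF2 j (Finset.notMem_empty j)
    | insert v B hv ih =>
      intro F hF1 hF2
      choose u hu hu' hint using fun i : ℕ =>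
        hd (F v) (hF1 v) ((1 / 2 : ℝ) ^ i) (by positivity)
      have hconv' := fun i => ih _ (update_mem hF1 hF2 (hu i) (hu' i)).1
        (update_mem hF1 hF2 (hu i) (hu' i)).2
      have h1 := closeF hg F hF1 v (hgood v) u hu' hint
        (fun i _ => ∏ j, ∫ x, (Function.update F v (u i)) j x ∂μ) hconv'
      have hFi : Integrable (F v) μ := by
        obtain ⟨hm, C, hC⟩ := hF1 v
        exact Integrable.of_bound hm.aestronglyMeasurable C (Eventually.of_forall hC)
      have hint' : Tendsto (fun i => ∫ x, u i x ∂μ) atTop (𝓝 (∫ x, F v x ∂μ)) := by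
        rw [tendsto_iff_norm_sub_tendsto_zero]
        refine squeeze_zero (fun i => norm_nonneg _) (fun i => ?_)
          (tendsto_pow_atTop_nhds_zero_of_lt_one (r := (1 / 2 : ℝ)) (by norm_num) (by norm_num))
        have hui : Integrable (u i) μ := by
          obtain ⟨hm, C, hC⟩ := hu' i
          exact Integrable.of_bound hm.aestronglyMeasurable C (Eventually.of_forall hC)
        rw [← integral_sub hui hFi]
        refine (norm_integral_le_integral_norm _).trans (le_trans (le_of_eq ?_) (hint i))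
        congr 1
        funext x
        exact norm_sub_rev _ _
      have hprod : Tendsto (fun i => ∏ j, ∫ x, (Function.update F v (u i)) j x ∂μ) atTop
          (𝓝 (∏ j, ∫ x, F j x ∂μ)) := by
        refine tendsto_finsetProd _ fun j _ => ?_
        by_cases hj : j = v
        · subst hj
          simp only [Function.update_self]
          exact hint'
        · simp only [Function.update_of_ne hj]
          exact tendsto_const_nhds
      filter_upwards [h1] with x hx
      obtain ⟨l, hl, hl'⟩ := hx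
      rw [← tendsto_nhds_unique hl' hprod]
      exact hl
  exact key Finset.univ F hF fun j hj => absurd (Finset.mem_univ j) hj

end Pool.Agent.Zk89.QM
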