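import Pool.Agent.Zk89.KS.Null

/-!
# Level sets of maps with few repeated values along lines
-/

set_option autoImplicit false

open Filter Topology

noncomputable section

namespace Pool.Agent.Zk89.QM

open Pool.Agent.W761.Box
open Pool.Agent.Zk89.KS (bx_avg tendsto_coord)

variable {G : Type*} {k : ℕ}

/-- every line section is constant or takes each value at most `D` times -/
def Few (D : ℕ) (s : (Fin k → ℕ) → G) : Prop :=
  ∀ i m g, (∀ t, s (Function.update m i t) = g) ∨
    ∀ T : Finset ℕ, (∀ t ∈ T, s (Function.update m i t) = g) → T.card ≤ D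

/-- mixture of two points -/
def hyb (m0 : Fin k → ℕ) (j : ℕ) (m : Fin k → ℕ) : Fin k → ℕ :=
  fun i => if (i : ℕ) < j then m0 i else m i

theorem hyb_zero (m0 m : Fin k → ℕ) : hyb m0 0 m = m := by
  funext i
  simp [hyb]

theorem hyb_last (m0 m : Fin k → ℕ) : hyb m0 k m = m0 := by
  funext i
  simp [hyb]

theorem hyb_succ (m0 m : Fin k → ℕ) (j : Fin k) :
    hyb m0 ((j : ℕ) + 1) m = Function.update (hyb m0 j m) j (m0 j) := by
  funext i
  by_cases h : i = j
  · subst h
    simp [hyb]
  · rw [Function.update_of_ne h]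
    unfold hyb
    have h1 : (i : ℕ) ≠ j := fun e => h (Fin.ext e)
    by_cases h2 : (i : ℕ) < j
    · rw [if_pos h2, if_pos (by omega)]
    · rw [if_neg h2, if_neg (by omega)]

theorem hyb_update (m0 m : Fin k → ℕ) (j : Fin k) (t : ℕ) :
    hyb m0 j (Function.update m j t) = Function.update (hyb m0 j m) j t := by
  funext i
  by_cases h : i = j
  · subst h
    simp [hyb]
  · rw [Function.update_of_ne h]
    unfold hyb
    rw [Function.update_of_ne h]

open Classical in
theorem few_density {D : ℕ} {s : (Fin k → ℕ) → G} (hs : Few D s) {g : G} {m0 : Fin k → ℕ}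
    (h0 : s m0 ≠ g) (N : Fin k → ℕ) :
    bx k N (fun m => if s m = g then 1 else 0) ≤ ∑ j, (D : ℝ) * (N j : ℝ)⁻¹ := by
  let χ : Fin k → (Fin k → ℕ) → ℝ := fun j m =>
    if s (hyb m0 j m) = g ∧ ∃ t, s (Function.update (hyb m0 j m) j t) ≠ g then 1 else 0
  have hχ0 : ∀ j m, 0 ≤ χ j m := by
    intro j m
    simp only [χ]
    split_ifs <;> norm_num
  have h1 : ∀ m, (if s m = g then (1 : ℝ) else 0) ≤ ∑ j, χ j m := by
    intro m
    split_ifs with h
    · obtain ⟨j, hj1, hj2⟩ : ∃ j : Fin k, s (hyb m0 j m) = g ∧ s (hyb m0 ((j : ℕ) + 1) m) ≠ g := by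
        by_contra hcon
        push Not at hcon
        have h2 : ∀ j : ℕ, j ≤ k → s (hyb m0 j m) = g := by
          intro j
          induction j with
          | zero =>
            intro _
            rw [hyb_zero]
            exact h
          | succ j ih =>
            intro hj
            exact hcon ⟨j, hj⟩ (ih (by omega))
        have h3 := h2 k le_rfl
        rw [hyb_last] at h3
        exact h0 h3
      have h2 : χ j m = 1 := if_pos ⟨hj1, m0 j, by rwa [hyb_succ] at hj2⟩
      rw [← h2]
      exact Finset.single_le_sum (f := fun j => χ j m) (fun j _ => hχ0 j m) (Finset.mem_univ j)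
    · exact Finset.sum_nonneg fun j _ => hχ0 j m
  refine (bx_mono h1).trans ?_
  rw [bx_sum]
  refine Finset.sum_le_sum fun j _ => ?_
  rw [bx_avg j]
  refine (bx_mono (b := fun _ => (D : ℝ) * (N j : ℝ)⁻¹) fun m => ?_).trans
    (bx_const_le (by positivity))
  rw [mul_comm]
  refine mul_le_mul_of_nonneg_right ?_ (by positivity)
  rcases hs j (hyb m0 j m) g with h | h
  · have : ∀ t, χ j (Function.update m j t) = 0 := by
      intro t
      simp only [χ]
      rw [if_neg]
      rintro ⟨-, t', ht'⟩
      rw [hyb_update, Function.update_idem] at ht'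
      exact ht' (h t')
    simp [this]
  · have h2 := h ((Finset.range (N j)).filter fun t =>
      s (Function.update (hyb m0 j m) j t) = g) (fun t ht => (Finset.mem_filter.1 ht).2)
    have h3 : ∑ t ∈ Finset.range (N j), χ j (Function.update m j t) ≤
        ∑ t ∈ Finset.range (N j), if s (Function.update (hyb m0 j m) j t) = g then (1 : ℝ)
          else 0 := by
      refine Finset.sum_le_sum fun t _ => ?_
      simp only [χ]
      rw [hyb_update]
      by_cases h4 : s (Function.update (hyb m0 j m) j t) = g
      · rw [if_pos h4]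
        split_ifs <;> norm_num
      · rw [if_neg (fun h5 => h4 h5.1), if_neg h4]
    refine h3.trans ?_
    rw [Finset.sum_ite, Finset.sum_const_zero, add_zero, Finset.sum_const, nsmul_eq_mul, mul_one]
    exact_mod_cast h2

open Classical in
theorem few_tendsto {D : ℕ} {s : (Fin k → ℕ) → G} (hs : Few D s) {g : G} {m0 : Fin k → ℕ}
    (h0 : s m0 ≠ g) : Tendsto (fun N => bx k N (fun m => if s m = g then 1 else 0)) atTop (𝓝 0) := by
  have h1 : Tendsto (fun N : Fin k → ℕ => ∑ j, (D : ℝ) * (N j : ℝ)⁻¹) atTop (𝓝 0) := by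
    have h2 : ∀ j : Fin k, Tendsto (fun N : Fin k → ℕ => (D : ℝ) * (N j : ℝ)⁻¹) atTop (𝓝 0) := by
      intro j
      have := ((tendsto_inv_atTop_nhds_zero_nat (𝕜 := ℝ)).comp (tendsto_coord j)).const_mul (D : ℝ)
      rw [mul_zero] at this
      exact this
    have h3 := tendsto_finsetSum (Finset.univ : Finset (Fin k)) fun j _ => h2 j
    rw [Finset.sum_const_zero] at h3
    exact h3
  refine squeeze_zero' (Eventually.of_forall fun N => bx_nonneg fun m => by
    split_ifs <;> norm_num) (Eventually.of_forall fun N => few_density hs h0 N) h1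

open Classical in
/-- finitely many values -/
theorem few_tendsto_finset {D : ℕ} {s : (Fin k → ℕ) → G} (hs : Few D s)
    (h0 : ∀ g, ∃ m, s m ≠ g) (S : Finset G) :
    Tendsto (fun N => bx k N (fun m => if s m ∈ S then 1 else 0)) atTop (𝓝 0) := by
  have h1 : Tendsto (fun N => ∑ g ∈ S, bx k N (fun m => if s m = g then 1 else 0)) atTop (𝓝 0) := by
    have h2 := tendsto_finsetSum S fun g _ => few_tendsto hs (h0 g).choose_spec
    rw [Finset.sum_const_zero] at h2
    exact h2
  refine squeeze_zero' (Eventually.of_forall fun N => bx_nonneg fun m => by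
    split_ifs <;> norm_num) (Eventually.of_forall fun N => ?_) h1
  rw [← bx_sum]
  refine bx_mono fun m => ?_
  split_ifs with h
  · refine le_trans ?_ (Finset.single_le_sum (f := fun g => if s m = g then (1 : ℝ) else 0)
      (fun g _ => by split_ifs <;> norm_num) h)
    rw [if_pos rfl]
  · exact Finset.sum_nonneg fun g _ => by split_ifs <;> norm_num

end Pool.Agent.Zk89.QM
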