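import Pool.Agent.Zk89.KS.Null
import Pool.Agent.W761.Box.Clos

/-!
# Convergence of box averages to zero from second moments along lines
-/

set_option autoImplicit false

open Filter Topology MeasureTheory

noncomputable section

namespace Pool.Agent.Zk89.QM

open Pool.Agent.W761.Box
open Pool.Agent.Zk89.KS (ae_tendsto_zero ratio_le tendsto_coord bx_dyadic bx_avg)

theorem cavg_diff {y : ℕ → ℂ} {K : ℝ} (hK : 0 ≤ K) (hy : ∀ t, ‖y t‖ ≤ K) {n n' : ℕ} (hn' : 0 < n')
    (hnn : n' ≤ n) :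
    ‖(n : ℂ)⁻¹ * ∑ t ∈ Finset.range n, y t - (n' : ℂ)⁻¹ * ∑ t ∈ Finset.range n', y t‖ ≤
      K * (2 * ((n - n') / n)) := by
  have h0 : (0 : ℝ) < n' := by exact_mod_cast hn'
  have h1 : (n' : ℝ) ≤ n := by exact_mod_cast hnn
  have h2 : (0 : ℝ) < n := by linarith
  have e1 : ∑ t ∈ Finset.range n, y t = ∑ t ∈ Finset.range n', y t +
      ∑ t ∈ Finset.Ico n' n, y t := (Finset.sum_range_add_sum_Ico _ hnn).symm
  have b1 : ‖∑ t ∈ Finset.range n', y t‖ ≤ n' * K := by
    refine (norm_sum_le _ _).trans ?_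
    refine (Finset.sum_le_sum fun t _ => hy t).trans ?_
    simp
  have b2 : ‖∑ t ∈ Finset.Ico n' n, y t‖ ≤ (n - n') * K := by
    refine (norm_sum_le _ _).trans ?_
    refine (Finset.sum_le_sum fun t _ => hy t).trans ?_
    rw [Finset.sum_const, Nat.card_Ico, nsmul_eq_mul, Nat.cast_sub hnn]
  have e2 : (n : ℂ)⁻¹ * ∑ t ∈ Finset.range n, y t - (n' : ℂ)⁻¹ * ∑ t ∈ Finset.range n', y t =
      (((n : ℝ)⁻¹ - (n' : ℝ)⁻¹ : ℝ) : ℂ) * ∑ t ∈ Finset.range n', y t +
      (((n : ℝ)⁻¹ : ℝ) : ℂ) * ∑ t ∈ Finset.Ico n' n, y t := by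
    rw [e1]
    push_cast
    ring
  rw [e2]
  refine (norm_add_le _ _).trans ?_
  rw [norm_mul, norm_mul, Complex.norm_real, Complex.norm_real, Real.norm_eq_abs, Real.norm_eq_abs]
  have e3 : |(n : ℝ)⁻¹ - (n' : ℝ)⁻¹| = (n - n') / (n * n') := by
    rw [abs_of_nonpos]
    · field_simp
      ring
    · have := inv_anti₀ h0 h1
      linarith
  rw [e3, abs_of_nonneg (inv_nonneg.2 h2.le)]
  calc (n - n') / (n * n') * ‖∑ t ∈ Finset.range n', y t‖ + (n : ℝ)⁻¹ * ‖∑ t ∈ Finset.Ico n' n, y t‖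
      ≤ (n - n') / (n * n') * (n' * K) + (n : ℝ)⁻¹ * ((n - n') * K) := by
        have : (0 : ℝ) ≤ (n - n') / (n * n') := div_nonneg (by linarith) (by positivity)
        gcongr
    _ = K * (2 * ((n - n') / n)) := by
        field_simp
        ring

variable {X : Type*} [MeasurableSpace X] {μ : Measure X} [IsProbabilityMeasure μ]

/-- **Box averages tend to zero** if the averages along all lines have small second moments. -/
theorem fib {k : ℕ} (hk : 0 < k) (a : (Fin k → ℕ) → X → ℂ) (y : Fin k → (Fin k → ℕ) → X → ℂ)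
    (hym : ∀ i m, Measurable (y i m)) {K : ℝ} (hK : 0 ≤ K) (hyK : ∀ i m x, ‖y i m x‖ ≤ K)
    {C η : ℝ} (hη : 0 < η) (hC : 0 ≤ C)
    (hint : ∀ i m (n : ℕ), 0 < n → ∫ x, ‖(n : ℂ)⁻¹ * ∑ t ∈ Finset.range n,
      y i (Function.update m i t) x‖ ^ 2 ∂μ ≤ C * (n : ℝ) ^ (-η))
    (e : Fin k → (Fin k → ℕ) → ℝ) (he : ∀ i, Tendsto (fun N => bx k N (e i)) atTop (𝓝 0))
    {D : ℝ} (hD : 0 ≤ D)
    (hdom : ∀ i (N : Fin k → ℕ) x, (∀ j, 0 < N j) → ‖bxc k N fun m => a m x‖ ≤
      D * bx k N (fun m => ‖(N i : ℂ)⁻¹ * ∑ t ∈ Finset.range (N i),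
        y i (Function.update m i t) x‖) + bx k N (e i)) :
    ∀ᵐ x ∂μ, Tendsto (fun N => bxc k N fun m => a m x) atTop (𝓝 0) := by
  classical
  have : Nonempty (Fin k) := ⟨⟨0, hk⟩⟩
  set B : Fin k → ℕ → (Fin k → ℕ) → X → ℂ := fun i n m x =>
    (n : ℂ)⁻¹ * ∑ t ∈ Finset.range n, y i (Function.update m i t) x with hB
  have hBm : ∀ i n m, Measurable (B i n m) := fun i n m =>
    (Finset.measurable_fun_sum _ fun t _ => hym i _).const_mul _
  have hB1 : ∀ i n m x, ‖B i n m x‖ ≤ K := by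
    intro i n m x
    simp only [hB]
    rcases Nat.eq_zero_or_pos n with rfl | hn
    · simp [hK]
    rw [norm_mul, norm_inv, Complex.norm_natCast, inv_mul_le_iff₀ (by exact_mod_cast hn)]
    refine (norm_sum_le _ _).trans ?_
    refine (Finset.sum_le_sum fun t _ => hyK i _ x).trans ?_
    simp
  set q : Fin k → ℕ → (Fin k → ℕ) → X → ℝ := fun i n m x => ‖B i n m x‖ ^ 2 with hq
  have hq0 : ∀ i n m x, 0 ≤ q i n m x := fun i n m x => by
    simp only [hq]
    positivity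
  have hqm : ∀ i n m, Measurable (q i n m) := fun i n m => (hBm i n m).norm.pow_const 2
  have hq1 : ∀ i n m x, |q i n m x| ≤ K ^ 2 := by
    intro i n m x
    rw [abs_of_nonneg (hq0 i n m x)]
    exact pow_le_pow_left₀ (norm_nonneg _) (hB1 i n m x) 2
  have hqi : ∀ i n m, Integrable (q i n m) μ := fun i n m =>
    Integrable.of_bound (hqm i n m).aestronglyMeasurable (K ^ 2)
      (Eventually.of_forall fun x => by rw [Real.norm_eq_abs]; exact hq1 i n m x)
  -- the grid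
  obtain ⟨p, hp1, hpη⟩ : ∃ p : ℕ, 1 ≤ p ∧ (k : ℝ) + 2 ≤ p * η := by
    obtain ⟨p, hp⟩ := exists_nat_ge (((k : ℝ) + 2) / η)
    refine ⟨p + 1, by omega, ?_⟩
    rw [div_le_iff₀ hη] at hp
    push_cast
    nlinarith
  set E : ℕ → ℕ := fun l => p * (l + 2) + 2 with hE
  set Z : Fin k → ℕ → X → ℝ := fun i l x =>
    ∑ e ∈ Fintype.piFinset (fun _ : Fin k => Finset.range (E l)),
      bx k (fun r => 2 ^ (e r)) (fun m => q i ((l + 1) ^ p) m x) with hZ
  have hbxm : ∀ i n (M : Fin k → ℕ), Measurable fun x => bx k M fun m => q i n m x := by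
    intro i n M
    unfold bx
    exact (Finset.measurable_fun_sum _ fun m _ => hqm i n m).const_mul _
  have hbx1 : ∀ i n (M : Fin k → ℕ) x, |bx k M fun m => q i n m x| ≤ K ^ 2 := fun i n M x =>
    bx_bound (by positivity) fun m => hq1 i n m x
  have hbxi : ∀ i n (M : Fin k → ℕ), Integrable (fun x => bx k M fun m => q i n m x) μ :=
    fun i n M => Integrable.of_bound (hbxm i n M).aestronglyMeasurable (K ^ 2)
      (Eventually.of_forall fun x => by rw [Real.norm_eq_abs]; exact hbx1 i n M x)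
  have hbxint : ∀ i, ∀ (n : ℕ) (M : Fin k → ℕ), 0 < n →
      ∫ x, bx k M (fun m => q i n m x) ∂μ ≤ C * (n : ℝ) ^ (-η) := by
    intro i n M hn
    have h1 : ∫ x, bx k M (fun m => q i n m x) ∂μ = bx k M fun m => ∫ x, q i n m x ∂μ := by
      unfold bx
      rw [integral_const_mul, integral_finsetSum _ fun m _ => hqi i n m]
    rw [h1]
    exact (bx_mono fun m => hint i m n hn).trans (bx_const_le (by positivity))
  have hZae : ∀ i, ∀ᵐ x ∂μ, Tendsto (fun l => Z i l x) atTop (𝓝 0) := by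
    intro i
    refine ae_tendsto_zero
      (c := fun l : ℕ => (((2 * p + 2 : ℕ) : ℝ) ^ k * C) * (1 / ((l : ℝ) + 1) ^ 2))
      ?_ ?_ ?_ ?_ ?_
    · intro l
      exact Finset.measurable_fun_sum _ fun e _ => hbxm i _ _
    · intro l x
      exact Finset.sum_nonneg fun e _ => bx_nonneg fun m => hq0 i _ m x
    · intro l
      exact integrable_finsetSum _ fun e _ => hbxi i _ _
    · intro l
      simp only [hZ]
      rw [integral_finsetSum _ fun e _ => hbxi i _ _]
      refine (Finset.sum_le_sum fun e _ => hbxint i _ _ (by positivity)).trans ?_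
      rw [Finset.sum_const, Fintype.card_piFinset, nsmul_eq_mul]
      simp only [Finset.card_range, Finset.prod_const, Finset.card_univ, Fintype.card_fin]
      push_cast
      have hl : (0 : ℝ) < (l : ℝ) + 1 := by positivity
      have h1 : ((E l : ℕ) : ℝ) ≤ ((2 * p + 2 : ℕ) : ℝ) * ((l : ℝ) + 1) := by
        simp only [hE]
        push_cast
        have : (0 : ℝ) ≤ (p : ℝ) := by positivity
        have hl0 : (0 : ℝ) ≤ (l : ℝ) := by positivity
        nlinarith
      have h2 : ((E l : ℕ) : ℝ) ^ k ≤ (((2 * p + 2 : ℕ) : ℝ) * ((l : ℝ) + 1)) ^ k := by gcongr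
      have h3 : ((((l : ℝ) + 1) ^ p) ^ (-η) : ℝ) ≤ ((l : ℝ) + 1) ^ (-((k : ℝ) + 2)) := by
        rw [← Real.rpow_natCast, ← Real.rpow_mul hl.le]
        refine Real.rpow_le_rpow_of_exponent_le (by linarith [(Nat.cast_nonneg l : (0:ℝ) ≤ l)]) ?_
        linarith
      have h4 : ((l : ℝ) + 1) ^ (-((k : ℝ) + 2)) = (((l : ℝ) + 1) ^ k)⁻¹ * (1 / ((l : ℝ) + 1) ^ 2) := by
        rw [neg_add, Real.rpow_add hl, Real.rpow_neg hl.le, Real.rpow_neg hl.le,
          Real.rpow_natCast]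
        norm_num
      calc ((E l : ℕ) : ℝ) ^ k * (C * (((l : ℝ) + 1) ^ p) ^ (-η))
          ≤ (((2 * p + 2 : ℕ) : ℝ) * ((l : ℝ) + 1)) ^ k *
              (C * ((((l : ℝ) + 1) ^ k)⁻¹ * (1 / ((l : ℝ) + 1) ^ 2))) := by
            rw [← h4]
            gcongr
        _ = ((2 * (p : ℝ) + 2) ^ k * C) * (1 / ((l : ℝ) + 1) ^ 2) := by
            rw [mul_pow]
            push_cast
            field_simp
    · refine Summable.mul_left _ ?_
      have h1 := (summable_nat_add_iff 1).2 (Real.summable_one_div_nat_pow.2 (one_lt_two))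
      refine h1.congr fun l => ?_
      push_cast
      rfl
  have hZall : ∀ᵐ x ∂μ, ∀ i, Tendsto (fun l => Z i l x) atTop (𝓝 0) := ae_all_iff.2 hZae
  filter_upwards [hZall] with x hx
  rw [Metric.tendsto_atTop]
  intro ε hε
  set δ : ℝ := ε / (8 * (D + 1) * (K + 1)) with hδ
  have hδ0 : 0 < δ := by positivity
  have hZs : ∃ l0 : ℕ, ∀ l ≥ l0, ∀ i, 2 ^ k * Z i l x < δ * δ := by
    have h1 : ∀ i, ∀ᶠ l in atTop, 2 ^ k * Z i l x < δ * δ := by
      intro i
      have := (hx i).const_mul (2 ^ k : ℝ)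
      rw [mul_zero] at this
      exact (tendsto_order.1 this).2 _ (by positivity)
    obtain ⟨l0, hl0⟩ := eventually_atTop.1 (eventually_all.2 h1)
    exact ⟨l0, hl0⟩
  obtain ⟨l0, hl0⟩ := hZs
  obtain ⟨l1, hl1⟩ := exists_nat_gt (2 * (p : ℝ) / δ)
  obtain ⟨N1, hN1⟩ : ∃ N1 : Fin k → ℕ, ∀ N ≥ N1, ∀ i, bx k N (e i) < ε / 4 := by
    have h1 : ∀ i, ∀ᶠ N in atTop, bx k N (e i) < ε / 4 := fun i =>
      (tendsto_order.1 (he i)).2 _ (by positivity)
    exact eventually_atTop.1 (eventually_all.2 h1)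
  set L0 := max l0 l1 with hL0
  refine ⟨N1 ⊔ fun _ => (L0 + 1) ^ p, fun N hN => ?_⟩
  have hNN1 : N1 ≤ N := le_sup_left.trans hN
  have hNL : ∀ i, (L0 + 1) ^ p ≤ N i := fun i => (le_sup_right.trans hN : _ ≤ N) i
  have hNpos : ∀ i, 0 < N i := fun i => lt_of_lt_of_le (by positivity) (hNL i)
  obtain ⟨i0, hmax⟩ := Finite.exists_max N
  set n := N i0 with hn
  have hnpos : 0 < n := hNpos i0
  set l := Nat.findGreatest (fun l => (l + 1) ^ p ≤ n) n with hl
  have hPl : (l + 1) ^ p ≤ n :=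
    Nat.findGreatest_spec (P := fun l => (l + 1) ^ p ≤ n) (Nat.zero_le n)
      (by simpa using Nat.succ_le_of_lt hnpos)
  have hlL : L0 ≤ l := by
    refine Nat.le_findGreatest ?_ (hNL i0)
    have h1 : L0 + 1 ≤ (L0 + 1) ^ p := Nat.le_self_pow (by omega) _
    have h2 := hNL i0
    omega
  have hlt : n < (l + 2) ^ p := by
    by_contra hcon
    rw [not_lt] at hcon
    have h1 : l + 1 ≤ n := (Nat.le_self_pow (by omega) _).trans hPl
    exact Nat.findGreatest_is_greatest (P := fun l => (l + 1) ^ p ≤ n) (k := l + 1)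
      (Nat.lt_succ_self l) h1 hcon
  have hl0' : l0 ≤ l := (le_max_left _ _).trans hlL
  have hl1' : l1 ≤ l := (le_max_right _ _).trans hlL
  -- the fibres
  have hfib : ∀ m, ‖B i0 n m x‖ ≤ K * δ + (δ + δ⁻¹ * q i0 ((l + 1) ^ p) m x) := by
    intro m
    have hqq := hq0 i0 ((l + 1) ^ p) m x
    have h1 := cavg_diff (y := fun t => y i0 (Function.update m i0 t) x) hK (fun t => hyK _ _ _)
      (n := n) (n' := (l + 1) ^ p) (by positivity) hPl
    have h2 := ratio_le p l n hPl hlt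
    have h3 : 2 * (p : ℝ) / (l + 2) ≤ δ := by
      rw [div_le_iff₀ (by positivity)]
      have h4 : 2 * (p : ℝ) / δ < l := hl1.trans_le (by exact_mod_cast hl1')
      rw [div_lt_iff₀ hδ0] at h4
      nlinarith
    have h5 : ‖B i0 n m x - B i0 ((l + 1) ^ p) m x‖ ≤ K * δ :=
      h1.trans (mul_le_mul_of_nonneg_left (h2.trans h3) hK)
    have h6 : ‖B i0 ((l + 1) ^ p) m x‖ ≤ δ + δ⁻¹ * q i0 ((l + 1) ^ p) m x := by
      simp only [hq]
      set z := ‖B i0 ((l + 1) ^ p) m x‖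
      have hz : 0 ≤ z := norm_nonneg _
      have h7 : z * δ ≤ δ * δ + z ^ 2 := by nlinarith [sq_nonneg (z - δ)]
      have h8 : z = δ⁻¹ * (z * δ) := by field_simp
      have h9 : δ + δ⁻¹ * z ^ 2 = δ⁻¹ * (δ * δ + z ^ 2) := by field_simp
      rw [h9]
      conv_lhs => rw [h8]
      gcongr
    have h10 := norm_sub_norm_le (B i0 n m x) (B i0 ((l + 1) ^ p) m x)
    linarith
  -- the average of q
  have hqavg : bx k N (fun m => q i0 ((l + 1) ^ p) m x) ≤ 2 ^ k * Z i0 l x := by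
    set e : Fin k → ℕ := fun i => Nat.log 2 (N i) + 1 with he'
    have h2 := bx_dyadic (N := N) (M := fun i => 2 ^ (e i)) hNpos
      (fun i => (Nat.lt_pow_succ_log_self one_lt_two (N i)).le)
      (fun i => by
        simp only [he']
        rw [pow_succ, mul_comm]
        exact Nat.mul_le_mul_left 2 (Nat.pow_log_le_self 2 (hNpos i).ne'))
      (q := fun m => q i0 ((l + 1) ^ p) m x) (fun m => hq0 _ _ _ _)
    refine h2.trans ?_
    refine mul_le_mul_of_nonneg_left ?_ (by positivity)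
    simp only [hZ]
    refine Finset.single_le_sum (f := fun e : Fin k → ℕ =>
      bx k (fun r => 2 ^ (e r)) (fun m => q i0 ((l + 1) ^ p) m x))
      (fun e _ => bx_nonneg fun m => hq0 _ _ _ _) ?_
    rw [Fintype.mem_piFinset]
    intro i
    rw [Finset.mem_range]
    have h3 : Nat.log 2 (N i) < p * (l + 2) := by
      refine Nat.log_lt_of_lt_pow (hNpos i).ne' ?_
      refine ((hmax i).trans_lt hlt).trans_le ?_
      rw [mul_comm, pow_mul]
      exact Nat.pow_le_pow_left (Nat.lt_two_pow_self).le p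
    simp only [he', hE]
    omega
  rw [dist_zero_right]
  have hA := hdom i0 N x hNpos
  have hav : bx k N (fun m => ‖(N i0 : ℂ)⁻¹ * ∑ t ∈ Finset.range (N i0),
        y i0 (Function.update m i0 t) x‖) ≤ K * δ + (δ + δ) := by
    calc bx k N (fun m => ‖(N i0 : ℂ)⁻¹ * ∑ t ∈ Finset.range (N i0),
          y i0 (Function.update m i0 t) x‖)
        ≤ bx k N (fun m => K * δ + (δ + δ⁻¹ * q i0 ((l + 1) ^ p) m x)) := bx_mono hfib
      _ = bx k N (fun _ => K * δ) + (bx k N (fun _ => δ) +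
          δ⁻¹ * bx k N (fun m => q i0 ((l + 1) ^ p) m x)) := by
          rw [bx_add, bx_add, bx_mul k N δ⁻¹]
      _ ≤ K * δ + (δ + δ) := by
          have h1 : bx k N (fun _ => K * δ) ≤ K * δ := bx_const_le (by positivity)
          have h2 : bx k N (fun _ => δ) ≤ δ := bx_const_le (by positivity)
          have h3 : δ⁻¹ * bx k N (fun m => q i0 ((l + 1) ^ p) m x) ≤ δ := by
            rw [inv_mul_le_iff₀ hδ0]
            exact hqavg.trans (hl0 l hl0' i0).le
          linarith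
  have h11 : D * (K * δ + (δ + δ)) ≤ ε / 4 := by
    have h12 : D * (K * δ + (δ + δ)) = D * (K + 2) * δ := by ring
    have h13 : δ * (8 * (D + 1) * (K + 1)) = ε := by
      rw [hδ]
      field_simp
    rw [h12]
    have h14 : D * (K + 2) ≤ 2 * ((D + 1) * (K + 1)) := by nlinarith
    nlinarith
  have h15 := mul_le_mul_of_nonneg_left hav hD
  have h16 := hN1 N hNN1 i0
  linarith

end Pool.Agent.Zk89.QM
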