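import Mathlib

/-!
# Effective mixing of all orders: clusters and covariances
-/

set_option autoImplicit false
set_option linter.unusedSectionVars false

open Filter Topology MeasureTheory

noncomputable section

namespace Pool.Agent.Zk89.QM

/-- Effective mixing of all orders on the algebra `𝒮` with norm `Nm`, with respect to the size
function `ρ` on the group. -/
structure EM {X G : Type*} [Group G] [MeasurableSpace X] (μ : Measure X) (Φ : G →* Equiv.Perm X)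
    (ρ : G → ℝ) (𝒮 : Set (X → ℂ)) (Nm : (X → ℂ) → ℝ) (A : ℝ) (a : ℕ) : Prop where
  mp : ∀ g, MeasurePreserving (Φ g) μ μ
  ρ_one : ρ 1 = 1
  ρ_ge : ∀ g, 1 ≤ ρ g
  ρ_inv : ∀ g, ρ g⁻¹ = ρ g
  ρ_mul : ∀ g h, ρ (g * h) ≤ ρ g * ρ h
  ball : ∃ C Q : ℝ, ∀ R : ℝ, 1 ≤ R → ∀ S : Finset G, (∀ g ∈ S, ρ g ≤ R) →
    (S.card : ℝ) ≤ C * R ^ Q
  meas : ∀ f ∈ 𝒮, Measurable f
  bdd : ∀ f ∈ 𝒮, ∀ x, ‖f x‖ ≤ Nm f
  one : (fun _ => 1) ∈ 𝒮
  mul : ∀ f ∈ 𝒮, ∀ g ∈ 𝒮, (fun x => f x * g x) ∈ 𝒮 ∧ Nm (fun x => f x * g x) ≤ A * Nm f * Nm g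
  shift : ∀ f ∈ 𝒮, ∀ g, (fun x => f (Φ g x)) ∈ 𝒮 ∧ Nm (fun x => f (Φ g x)) ≤ A * ρ g ^ a * Nm f
  conj : ∀ f ∈ 𝒮, (fun x => starRingEnd ℂ (f x)) ∈ 𝒮
  sub : ∀ f ∈ 𝒮, ∀ c : ℂ, (fun x => f x - c) ∈ 𝒮
  mix : ∀ r : ℕ, ∃ C δ : ℝ, 0 < δ ∧ ∀ (f : Fin r → X → ℂ) (p : Fin r → G), (∀ i, f i ∈ 𝒮) →
    ∀ M : ℝ, 1 ≤ M → (∀ i j, i ≠ j → M ≤ ρ (p i * (p j)⁻¹)) →
    ‖∫ x, ∏ i, f i (Φ (p i) x) ∂μ - ∏ i, ∫ x, f i x ∂μ‖ ≤ C * (∏ i, Nm (f i)) * M ^ (-δ)

theorem gap {I : Type*} [Fintype I] (ρ : I → I → ℝ) (θ : ℕ → ℝ) (hθ : Monotone θ) :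
    ∃ j ≤ Fintype.card I * Fintype.card I, ∀ a b, θ j < ρ a b → θ (j + 1) < ρ a b := by
  by_contra hcon
  push Not at hcon
  choose a b hab using fun j : Fin (Fintype.card I * Fintype.card I + 1) =>
    hcon j (Nat.lt_succ_iff.1 j.2)
  have hinj : Function.Injective fun j => (a j, b j) := by
    intro j j' h
    have h1 : a j = a j' := congrArg Prod.fst h
    have h2 : b j = b j' := congrArg Prod.snd h
    by_contra hne
    rcases lt_or_gt_of_ne (fun e => hne (Fin.ext e) : (j : ℕ) ≠ j') with h3 | h3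
    · have h4 := (hab j).2
      have h5 := (hab j').1
      rw [h1, h2] at h4
      have h6 := hθ (show (j : ℕ) + 1 ≤ j' by omega)
      linarith
    · have h4 := (hab j').2
      have h5 := (hab j).1
      rw [h1, h2] at h5
      have h6 := hθ (show (j' : ℕ) + 1 ≤ j by omega)
      linarith
  have h1 := Fintype.card_le_of_injective _ hinj
  rw [Fintype.card_fin, Fintype.card_prod] at h1
  omega

variable {X G : Type*} [Group G] [MeasurableSpace X] {μ : Measure X} [IsProbabilityMeasure μ]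
  {Φ : G →* Equiv.Perm X} {ρ : G → ℝ} {𝒮 : Set (X → ℂ)} {Nm : (X → ℂ) → ℝ} {A : ℝ} {a : ℕ}

theorem EM.nonneg [Nonempty X] (h : EM μ Φ ρ 𝒮 Nm A a) {f : X → ℂ} (hf : f ∈ 𝒮) : 0 ≤ Nm f :=
  (norm_nonneg _).trans (h.bdd f hf (Classical.arbitrary X))

/-- products -/
theorem EM.prod [Nonempty X] (h : EM μ Φ ρ 𝒮 Nm A a) (hA : 1 ≤ A) {I : Type*} (T : Finset I)
    (u : I → X → ℂ) (hu : ∀ i ∈ T, u i ∈ 𝒮) {c : ℝ} (hc : 1 ≤ c) (huc : ∀ i ∈ T, Nm (u i) ≤ c) :
    (fun x => ∏ i ∈ T, u i x) ∈ 𝒮 ∧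
      Nm (fun x => ∏ i ∈ T, u i x) ≤ max 1 (Nm fun _ => 1) * (A * c) ^ T.card := by
  classical
  induction T using Finset.induction_on with
  | empty =>
    simp only [Finset.prod_empty, Finset.card_empty, pow_zero, mul_one]
    exact ⟨h.one, le_max_right _ _⟩
  | insert i T hi ih =>
    obtain ⟨h1, h2⟩ := ih (fun j hj => hu j (Finset.mem_insert_of_mem hj))
      (fun j hj => huc j (Finset.mem_insert_of_mem hj))
    have hui := hu i (Finset.mem_insert_self _ _)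
    obtain ⟨h3, h4⟩ := h.mul _ hui _ h1
    simp only [Finset.prod_insert hi, Finset.card_insert_of_notMem hi]
    refine ⟨h3, h4.trans ?_⟩
    have h5 := huc i (Finset.mem_insert_self _ _)
    have h6 := h.nonneg hui
    have h7 := h.nonneg h1
    calc A * Nm (u i) * Nm (fun x => ∏ i ∈ T, u i x)
        ≤ A * c * (max 1 (Nm fun _ => 1) * (A * c) ^ T.card) := by
          have : 0 ≤ A := by linarith
          gcongr
      _ = _ := by ring

/-- mixing for families indexed by a finset, with uniform constants -/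
theorem EM.mix' [Nonempty X] (h : EM μ Φ ρ 𝒮 Nm A a) (n : ℕ) :
    ∃ C δ : ℝ, 0 ≤ C ∧ 0 < δ ∧ ∀ {I : Type} (T : Finset I), T.card ≤ n →
      ∀ (f : I → X → ℂ) (p : I → G), (∀ i ∈ T, f i ∈ 𝒮) →
      ∀ M : ℝ, 1 ≤ M → (∀ i ∈ T, ∀ j ∈ T, i ≠ j → M ≤ ρ (p i * (p j)⁻¹)) →
      ‖∫ x, ∏ i ∈ T, f i (Φ (p i) x) ∂μ - ∏ i ∈ T, ∫ x, f i x ∂μ‖ ≤
        C * (∏ i ∈ T, Nm (f i)) * M ^ (-δ) := by
  choose C δ hδ hmix using h.mix
  refine ⟨∑ r ∈ Finset.range (n + 1), |C r|,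
    (Finset.range (n + 1)).inf' ⟨0, by simp⟩ δ, Finset.sum_nonneg fun _ _ => abs_nonneg _,
    (Finset.lt_inf'_iff _).2 fun r _ => hδ r, ?_⟩
  intro I T hT f p hf M hM hdist
  have hmem : T.card ∈ Finset.range (n + 1) := Finset.mem_range.2 (by omega)
  let e := T.equivFin.symm
  have h1 := hmix T.card (fun i => f (e i)) (fun i => p (e i)) (fun i => hf _ (e i).2) M hM
    (fun i j hij => hdist _ (e i).2 _ (e j).2 fun h => hij (e.injective (Subtype.ext h)))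
  have e1 : ∀ (β : Type) [CommMonoid β] (F : I → β), ∏ i : Fin T.card, F (e i) = ∏ i ∈ T, F i := by
    intro β _ F
    exact (Equiv.prod_comp e (fun i : T => F i)).trans (Finset.prod_coe_sort T F)
  have e2 : ∀ x, ∏ i : Fin T.card, f (e i) (Φ (p (e i)) x) = ∏ i ∈ T, f i (Φ (p i) x) := fun x =>
    e1 ℂ fun i => f i (Φ (p i) x)
  have e3 : ∏ i : Fin T.card, ∫ x, f (e i) x ∂μ = ∏ i ∈ T, ∫ x, f i x ∂μ :=
    e1 ℂ fun i => ∫ x, f i x ∂μ
  have e4 : ∏ i : Fin T.card, Nm (f (e i)) = ∏ i ∈ T, Nm (f i) := e1 ℝ fun i => Nm (f i)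
  simp only [e2] at h1
  rw [e3, e4] at h1
  refine h1.trans ?_
  have h2 : 0 ≤ ∏ i ∈ T, Nm (f i) := Finset.prod_nonneg fun i hi => h.nonneg (hf i hi)
  have h3 : C T.card ≤ ∑ r ∈ Finset.range (n + 1), |C r| :=
    (le_abs_self _).trans (Finset.single_le_sum (f := fun r => |C r|) (fun _ _ => abs_nonneg _) hmem)
  have h4 : M ^ (-δ T.card) ≤ M ^ (-(Finset.range (n + 1)).inf' ⟨0, by simp⟩ δ) := by
    refine Real.rpow_le_rpow_of_exponent_le hM (neg_le_neg (Finset.inf'_le _ hmem))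
  have h5 : 0 ≤ M ^ (-δ T.card) := Real.rpow_nonneg (by linarith) _
  have h6 : 0 ≤ ∑ r ∈ Finset.range (n + 1), |C r| := Finset.sum_nonneg fun _ _ => abs_nonneg _
  gcongr

/-- **Cluster expansion.** -/
theorem EM.cluster [Nonempty X] (h : EM μ Φ ρ 𝒮 Nm A a) (hA : 1 ≤ A) {I : Type} [Fintype I]
    [DecidableEq I] (f : I → X → ℂ) (hf : ∀ i, f i ∈ 𝒮) {β : ℝ} (hβ : 0 < β) :
    ∃ C ε : ℝ, 0 ≤ C ∧ 0 < ε ∧ ∀ (L : ℝ), 1 ≤ L → ∀ p : I → G,
      ∃ (κ : I → I) (T : Finset I), (∀ i j, κ i = κ j → ρ (p i * (p j)⁻¹) ≤ L ^ β) ∧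
        ∀ I' : Finset I, ‖∫ x, ∏ i ∈ I', f i (Φ (p i) x) ∂μ -
          ∏ c ∈ T, ∫ x, ∏ i ∈ I' with κ i = c, f i (Φ (p i) x) ∂μ‖ ≤ C * L ^ (-ε) := by
  classical
  set n := Fintype.card I with hn
  obtain ⟨C₀, δ, hC₀, hδ, hmix⟩ := h.mix' (μ := μ) n
  obtain ⟨κ₀, hκ2, hκδ⟩ : ∃ κ₀ : ℕ, 2 ≤ κ₀ ∧ (a : ℝ) * n + 1 ≤ κ₀ * δ := by
    obtain ⟨κ₀, h1⟩ := exists_nat_ge (((a : ℝ) * n + 1) / δ)
    refine ⟨κ₀ + 2, by omega, ?_⟩
    rw [div_le_iff₀ hδ] at h1
    push_cast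
    nlinarith
  set s := n * n + 1 with hs
  set ε₀ : ℝ := β / (κ₀ : ℝ) ^ s with hε₀
  have hκpos : (0 : ℝ) < κ₀ := by
    have : 0 < κ₀ := by omega
    exact_mod_cast this
  have hε₀pos : 0 < ε₀ := by positivity
  set K₀ : ℝ := max 1 (∑ i, Nm (f i)) with hK₀
  have hK₀1 : 1 ≤ K₀ := le_max_left _ _
  have hNmK : ∀ i, Nm (f i) ≤ K₀ := fun i =>
    (Finset.single_le_sum (f := fun i => Nm (f i)) (fun i _ => h.nonneg (hf i))
      (Finset.mem_univ i)).trans (le_max_right _ _)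
  set B₀ : ℝ := max 1 (Nm fun _ => 1) with hB₀
  have hB₀1 : 1 ≤ B₀ := le_max_left _ _
  set K₁ : ℝ := (B₀ * (A * (A * K₀)) ^ n) ^ n with hK₁
  have hK₁0 : 0 ≤ K₁ := by positivity
  refine ⟨C₀ * K₁, ε₀, mul_nonneg hC₀ hK₁0, hε₀pos, fun L hL p => ?_⟩
  set Λ : ℝ := L ^ ε₀ with hΛ
  have hΛ1 : 1 ≤ Λ := Real.one_le_rpow hL hε₀pos.le
  set θ : ℕ → ℝ := fun j => Λ ^ (κ₀ ^ j) with hθ
  have hθmono : Monotone θ := fun i j hij =>
    pow_le_pow_right₀ hΛ1 (Nat.pow_le_pow_right (by omega) hij)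
  have hθ1 : ∀ j, 1 ≤ θ j := fun j => one_le_pow₀ hΛ1
  have hθΛ : ∀ j, Λ ≤ θ j := fun j => by
    have := pow_le_pow_right₀ hΛ1 (Nat.one_le_pow j κ₀ (by omega))
    rwa [pow_one] at this
  have hθβ : θ s = L ^ β := by
    simp only [hθ, hΛ]
    rw [← Real.rpow_natCast, ← Real.rpow_mul (by linarith)]
    congr 1
    push_cast
    rw [hε₀]
    field_simp
  obtain ⟨j, hj, hgap⟩ := gap (fun i i' => ρ (p i * (p i')⁻¹)) θ hθmono
  have hθj2 : θ j * θ j ≤ θ (j + 1) := by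
    have e : θ (j + 1) = (θ j) ^ κ₀ := by
      simp only [hθ]
      rw [pow_succ, pow_mul]
    rw [e, ← pow_two]
    exact pow_le_pow_right₀ (hθ1 j) hκ2
  -- the equivalence relation
  let r : Setoid I := ⟨fun i i' => ρ (p i * (p i')⁻¹) ≤ θ j, by
    constructor
    · intro i
      rw [mul_inv_cancel, h.ρ_one]
      exact hθ1 j
    · intro i i' hii
      have e : p i' * (p i)⁻¹ = (p i * (p i')⁻¹)⁻¹ := by group
      rw [e, h.ρ_inv]
      exact hii
    · intro i i' i'' h1 h2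
      by_contra hcon
      rw [not_le] at hcon
      have h3 := hgap i i'' hcon
      have e : p i * (p i'')⁻¹ = (p i * (p i')⁻¹) * (p i' * (p i'')⁻¹) := by group
      have h4 : ρ (p i * (p i'')⁻¹) ≤ θ j * θ j := by
        rw [e]
        refine (h.ρ_mul _ _).trans ?_
        have := h.ρ_ge (p i * (p i')⁻¹)
        have := h.ρ_ge (p i' * (p i'')⁻¹)
        gcongr
      linarith⟩
  let κ : I → I := fun i => (Quotient.mk r i).out
  have hκrel : ∀ i, r (κ i) i := fun i => Quotient.exact (Quotient.out_eq (Quotient.mk r i))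
  have hκiff : ∀ i i', κ i = κ i' → r i i' := by
    intro i i' hii
    have h1 := r.symm (hκrel i)
    have h2 := hκrel i'
    rw [← hii] at h2
    exact r.trans h1 h2
  have hκeq : ∀ i i', r i i' → κ i = κ i' := by
    intro i i' hii
    show (Quotient.mk r i).out = (Quotient.mk r i').out
    rw [Quotient.sound hii]
  refine ⟨κ, Finset.univ.image κ, ?_, ?_⟩
  · intro i i' hii
    refine (show ρ (p i * (p i')⁻¹) ≤ θ j from hκiff i i' hii).trans ?_
    rw [← hθβ]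
    rw [← hn] at hj
    exact hθmono (by omega)
  intro I'
  let g : I → X → ℂ := fun c x => ∏ i ∈ I' with κ i = c, f i (Φ (p i * (p c)⁻¹) x)
  -- membership and norms
  have hgS : ∀ c ∈ Finset.univ.image κ, g c ∈ 𝒮 ∧
      Nm (g c) ≤ B₀ * (A * (A * K₀)) ^ n * θ j ^ (a * (I'.filter fun i => κ i = c).card) := by
    intro c _
    have hrel : ∀ i ∈ I'.filter (fun i => κ i = c), ρ (p i * (p c)⁻¹) ≤ θ j := by
      intro i hi
      have h1 := (Finset.mem_filter.1 hi).2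
      have h2 := r.symm (hκrel i)
      rw [h1] at h2
      exact h2
    have h1 := h.prod hA (I'.filter fun i => κ i = c) (fun i x => f i (Φ (p i * (p c)⁻¹) x))
      (fun i _ => (h.shift _ (hf i) _).1) (c := A * θ j ^ a * K₀) (by
        have := one_le_pow₀ (n := a) (hθ1 j)
        nlinarith [mul_le_mul hA this zero_le_one (by linarith)])
      (fun i hi => by
        refine (h.shift _ (hf i) _).2.trans ?_
        have h2 := hrel i hi
        have h3 := h.ρ_ge (p i * (p c)⁻¹)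
        have h4 := hNmK i
        have h5 := h.nonneg (hf i)
        gcongr)
    refine ⟨h1.1, h1.2.trans ?_⟩
    set w := (I'.filter fun i => κ i = c).card with hw
    have hwn : w ≤ n := Finset.card_le_univ _
    have e : (A * (A * θ j ^ a * K₀)) ^ w = (A * (A * K₀)) ^ w * θ j ^ (a * w) := by
      rw [pow_mul, ← mul_pow]
      congr 1
      ring
    rw [e, ← mul_assoc]
    have h6 : 1 ≤ A * (A * K₀) := by nlinarith [mul_le_mul hA hK₀1 zero_le_one (by linarith)]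
    have h7 : (A * (A * K₀)) ^ w ≤ (A * (A * K₀)) ^ n := pow_le_pow_right₀ h6 hwn
    have h8 : 0 ≤ θ j ^ (a * w) := by
      have := hθ1 j
      positivity
    have h9 : 0 ≤ B₀ := by linarith
    gcongr
  have hmixed := hmix (Finset.univ.image κ) (Finset.card_image_le.trans (le_of_eq Finset.card_univ))
    g p (fun c hc => (hgS c hc).1) (θ (j + 1)) (hθ1 _) (by
      intro c hc c' hc' hcc
      obtain ⟨i, -, rfl⟩ := Finset.mem_image.1 hc
      obtain ⟨i', -, rfl⟩ := Finset.mem_image.1 hc'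
      have h1 : ¬ ρ (p (κ i) * (p (κ i'))⁻¹) ≤ θ j := by
        intro h2
        apply hcc
        have h3 := hκeq _ _ (show r (κ i) (κ i') from h2)
        have h4 := hκeq _ _ (hκrel i)
        have h5 := hκeq _ _ (hκrel i')
        rw [← h4, ← h5]
        exact h3
      exact (hgap _ _ (not_le.1 h1)).le)
  have e1 : ∀ x, ∏ c ∈ Finset.univ.image κ, g c (Φ (p c) x) = ∏ i ∈ I', f i (Φ (p i) x) := by
    intro x
    rw [← Finset.prod_fiberwise_of_maps_to (s := I') (t := Finset.univ.image κ) (g := κ)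
      (fun i _ => Finset.mem_image_of_mem κ (Finset.mem_univ i))]
    refine Finset.prod_congr rfl fun c _ => Finset.prod_congr rfl fun i _ => ?_
    rw [← Equiv.Perm.mul_apply, ← map_mul, inv_mul_cancel_right]
  have e2 : ∀ c, ∫ x, g c x ∂μ = ∫ x, ∏ i ∈ I' with κ i = c, f i (Φ (p i) x) ∂μ := by
    intro c
    have hgm : Measurable (g c) := Finset.measurable_fun_prod _ fun i _ =>
      (h.meas _ (hf i)).comp (h.mp _).measurable
    have h1 : ∫ x, g c (Φ (p c) x) ∂μ = ∫ x, g c x ∂μ := by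
      have h2 := integral_map (μ := μ) (h.mp (p c)).measurable.aemeasurable
        (f := g c) hgm.aestronglyMeasurable
      rw [(h.mp (p c)).map_eq] at h2
      exact h2.symm
    rw [← h1]
    congr 1
    funext x
    refine Finset.prod_congr rfl fun i _ => ?_
    rw [← Equiv.Perm.mul_apply, ← map_mul, inv_mul_cancel_right]
  simp only [e1, e2] at hmixed
  refine hmixed.trans ?_
  have hprod : ∏ c ∈ Finset.univ.image κ, Nm (g c) ≤ K₁ * θ j ^ (a * n) := by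
    calc ∏ c ∈ Finset.univ.image κ, Nm (g c)
        ≤ ∏ c ∈ Finset.univ.image κ, (B₀ * (A * (A * K₀)) ^ n *
            θ j ^ (a * (I'.filter fun i => κ i = c).card)) :=
          Finset.prod_le_prod (fun c hc => h.nonneg (hgS c hc).1) fun c hc => (hgS c hc).2
      _ = (B₀ * (A * (A * K₀)) ^ n) ^ (Finset.univ.image κ).card *
            θ j ^ (a * ∑ c ∈ Finset.univ.image κ, (I'.filter fun i => κ i = c).card) := by
          rw [Finset.prod_mul_distrib, Finset.prod_const, Finset.prod_pow_eq_pow_sum,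
            Finset.mul_sum]
      _ ≤ (B₀ * (A * (A * K₀)) ^ n) ^ n * θ j ^ (a * n) := by
          have h6 : 1 ≤ A * (A * K₀) := by nlinarith [mul_le_mul hA hK₀1 zero_le_one (by linarith)]
          have h7 : 1 ≤ B₀ * (A * (A * K₀)) ^ n := by
            have := one_le_pow₀ (n := n) h6
            nlinarith
          have h8 : (Finset.univ.image κ).card ≤ n := Finset.card_image_le.trans (le_of_eq Finset.card_univ)
          have h9 : ∑ c ∈ Finset.univ.image κ, (I'.filter fun i => κ i = c).card ≤ n := by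
            rw [← Finset.card_eq_sum_card_fiberwise
              (fun i _ => Finset.mem_image_of_mem κ (Finset.mem_univ i))]
            exact Finset.card_le_univ _
          have h10 := hθ1 j
          gcongr
  have hpow : θ j ^ (a * n) * θ (j + 1) ^ (-δ) ≤ L ^ (-ε₀) := by
    have hθj := hθ1 j
    have hθpos : 0 < θ j := by linarith
    have e : θ (j + 1) = (θ j) ^ κ₀ := by
      simp only [hθ]
      rw [pow_succ, pow_mul]
    rw [e, ← Real.rpow_natCast (θ j) κ₀, ← Real.rpow_mul hθpos.le, ← Real.rpow_natCast,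
      ← Real.rpow_add hθpos]
    calc θ j ^ (((a * n : ℕ) : ℝ) + (κ₀ : ℝ) * -δ) ≤ θ j ^ (-1 : ℝ) := by
          refine Real.rpow_le_rpow_of_exponent_le hθj ?_
          push_cast
          linarith
      _ = (θ j)⁻¹ := Real.rpow_neg_one _
      _ ≤ Λ⁻¹ := inv_anti₀ (by linarith) (hθΛ j)
      _ = L ^ (-ε₀) := by rw [hΛ, Real.rpow_neg (by linarith)]
  calc C₀ * (∏ c ∈ Finset.univ.image κ, Nm (g c)) * θ (j + 1) ^ (-δ)
      ≤ C₀ * (K₁ * θ j ^ (a * n)) * θ (j + 1) ^ (-δ) := by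
        have : 0 ≤ θ (j + 1) ^ (-δ) := Real.rpow_nonneg (by linarith [hθ1 (j + 1)]) _
        gcongr
    _ = C₀ * K₁ * (θ j ^ (a * n) * θ (j + 1) ^ (-δ)) := by ring
    _ ≤ C₀ * K₁ * L ^ (-ε₀) := by
        have : 0 ≤ C₀ * K₁ := mul_nonneg hC₀ hK₁0
        gcongr

end Pool.Agent.Zk89.QM
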