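import Pool.Agent.Helper28.LCN.Seq
import Pool.Agent.Helper28.LCN.Base
import Pool.Agent.Helper28.LCN.LcsComm

/-!
# Polynomial sequences in torsion-free nilpotent groups have few repeated values
-/

set_option autoImplicit false

noncomputable section

namespace Pool.Agent.Zk89.QM

open Pool.Agent.Helper28.LCN
open scoped commutatorElement

/-- Lagrange interpolation of binomial coefficients, with cleared denominators. -/
theorem lagrange_int (T : Finset ℕ) {M : ℕ} (hT : M ≤ T.card) (n : ℕ) :
    ∃ (Δ : ℕ) (c : ℕ → ℤ), 0 < Δ ∧ ∀ k < M, (Δ : ℤ) * (n.choose k : ℤ) =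
      ∑ t ∈ T, c t * (t.choose k : ℤ) := by
  classical
  let q : ℕ → ℚ := fun t => (Lagrange.basis T (fun i : ℕ => (i : ℚ)) t).eval (n : ℚ)
  let Δ : ℕ := ∏ t ∈ T, (q t).den
  have hΔ : 0 < Δ := Finset.prod_pos fun t _ => (q t).den_pos
  let c : ℕ → ℤ := fun t => (q t).num * ∏ t' ∈ T.erase t, ((q t').den : ℤ)
  have hc : ∀ t ∈ T, (c t : ℚ) = Δ * q t := by
    intro t ht
    simp only [c, Δ]
    rw [← Finset.mul_prod_erase _ _ ht]
    push_cast
    have : (q t) * ((q t).den : ℚ) = (q t).num := Rat.mul_den_eq_num (q t)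
    rw [← this]
    ring
  refine ⟨Δ, c, hΔ, fun k hk => ?_⟩
  let p : Polynomial ℚ := Polynomial.C ((k.factorial : ℚ)⁻¹) * descPochhammer ℚ k
  have hp : ∀ m : ℕ, p.eval (m : ℚ) = (m.choose k : ℚ) := by
    intro m
    simp only [p]
    rw [Polynomial.eval_mul, Polynomial.eval_C, descPochhammer_eval_eq_descFactorial,
      Nat.descFactorial_eq_factorial_mul_choose]
    push_cast
    have : (k.factorial : ℚ) ≠ 0 := by exact_mod_cast k.factorial_ne_zero
    field_simp
  have hdeg : p.degree < T.card := by
    have h1 : p.natDegree ≤ k := by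
      refine (Polynomial.natDegree_C_mul_le _ _).trans ?_
      rw [descPochhammer_natDegree]
    refine lt_of_le_of_lt Polynomial.degree_le_natDegree ?_
    exact_mod_cast (h1.trans_lt (hk.trans_le hT))
  have hinj : Set.InjOn (fun i : ℕ => (i : ℚ)) (T : Set ℕ) := fun a _ b _ h =>
    Nat.cast_injective h
  have h1 := Lagrange.eq_interpolate hinj hdeg
  have h2 := congrArg (fun r : Polynomial ℚ => r.eval (n : ℚ)) h1
  simp only [Lagrange.interpolate_apply, Polynomial.eval_finsetSum, Polynomial.eval_mul,
    Polynomial.eval_C, hp] at h2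
  have h3 : ((Δ : ℤ) * (n.choose k : ℤ) : ℚ) = ∑ t ∈ T, (c t : ℚ) * (t.choose k : ℚ) := by
    push_cast
    rw [h2, Finset.mul_sum]
    refine Finset.sum_congr rfl fun t ht => ?_
    rw [hc t ht]
    ring
  have h4 : (((Δ : ℤ) * (n.choose k : ℤ) : ℤ) : ℚ) = ((∑ t ∈ T, c t * (t.choose k : ℤ) : ℤ) : ℚ) := by
    push_cast
    push_cast at h3
    exact h3
  exact_mod_cast h4

section ab

variable {A : Type} [CommGroup A]

theorem iter_zero (D : ℕ) : ∀ (f : ℤ → A), RR D f → ∀ k, D ≤ k → ∀ y,
    ((fwdDiff (1 : ℤ))^[k] (fun n => Additive.ofMul (f n))) y = 0 := by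
  induction D with
  | zero =>
    intro f hf k _ y
    have h1 : (fun n => Additive.ofMul (f n)) = fun _ => 0 := by
      funext n
      rw [show f n = 1 from hf n]
      rfl
    rw [h1]
    have h2 : ∀ k, ((fwdDiff (1 : ℤ))^[k] (fun _ : ℤ => (0 : Additive A))) = fun _ => 0 := by
      intro k
      induction k with
      | zero => rfl
      | succ k ih =>
        rw [Function.iterate_succ_apply, show fwdDiff (1 : ℤ) (fun _ : ℤ => (0 : Additive A)) =
          fun _ => 0 from by funext y; simp [fwdDiff], ih]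
    rw [h2]
  | succ D ih =>
    intro f hf k hk y
    obtain ⟨k', rfl⟩ : ∃ k', k = k' + 1 := ⟨k - 1, by omega⟩
    rw [Function.iterate_succ_apply]
    have h1 : fwdDiff (1 : ℤ) (fun n => Additive.ofMul (f n)) =
        fun n => Additive.ofMul (dd 1 f n) := by
      funext n
      simp only [fwdDiff, dd]
      rw [← ofMul_div, div_eq_mul_inv]
    rw [h1]
    exact ih (dd 1 f) (hf 1) k' (by omega) y

theorem newton {D : ℕ} {f : ℤ → A} (hf : RR D f) (n : ℕ) :
    Additive.ofMul (f n) = ∑ k ∈ Finset.range D, (n.choose k : ℤ) •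
      ((fwdDiff (1 : ℤ))^[k] (fun n => Additive.ofMul (f n))) 0 := by
  have h1 := shift_eq_sum_fwdDiff_iter (h := (1 : ℤ)) (fun n => Additive.ofMul (f n)) n 0
  simp only [zero_add, nsmul_eq_mul, mul_one] at h1
  rw [h1]
  simp only [natCast_zsmul]
  rcases le_total D (n + 1) with h | h
  · refine (Finset.sum_subset (Finset.range_subset_range.2 h) fun k _ hk => ?_).symm
    rw [iter_zero D f hf k (by simpa using hk), smul_zero]
  · refine Finset.sum_subset (Finset.range_subset_range.2 h) fun k _ hk => ?_
    rw [Nat.choose_eq_zero_of_lt (by simpa using hk), zero_smul]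

theorem ab_few_nat (htf : TorsionFree A) {D : ℕ} {f : ℤ → A} (hf : RR D f) (T : Finset ℕ)
    (hT : D ≤ T.card) (h1 : ∀ t ∈ T, f t = 1) (n : ℕ) : f n = 1 := by
  obtain ⟨Δ, c, hΔ, hc⟩ := lagrange_int T hT n
  apply htf _ Δ hΔ
  have h2 : (Δ : ℤ) • Additive.ofMul (f n) = 0 := by
    rw [newton hf, Finset.smul_sum]
    have h3 : ∀ k ∈ Finset.range D, (Δ : ℤ) • ((n.choose k : ℤ) •
        ((fwdDiff (1 : ℤ))^[k] (fun n => Additive.ofMul (f n))) 0) =
        ∑ t ∈ T, c t • ((t.choose k : ℤ) •
          ((fwdDiff (1 : ℤ))^[k] (fun n => Additive.ofMul (f n))) 0) := by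
      intro k hk
      rw [smul_smul, hc k (Finset.mem_range.1 hk), Finset.sum_smul]
      refine Finset.sum_congr rfl fun t _ => ?_
      rw [smul_smul]
    rw [Finset.sum_congr rfl h3, Finset.sum_comm]
    refine Finset.sum_eq_zero fun t ht => ?_
    rw [← Finset.smul_sum, ← newton hf, h1 t ht]
    simp
  rw [← ofMul_zpow, zpow_natCast] at h2
  exact h2

theorem RR_shift (D : ℕ) {G : Type} [Group G] : ∀ (f : ℤ → G) (_ : RR D f) (c : ℤ),
    RR D (fun n => f (n + c)) := by
  induction D with
  | zero => exact fun f hf c n => hf _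
  | succ D ih =>
    intro f hf c s
    have h1 := ih (dd s f) (hf s) c
    have h2 : (fun n => dd s f (n + c)) = dd s (fun n => f (n + c)) := by
      funext n
      unfold dd
      rw [show n + c + s = n + s + c by ring]
    rwa [h2] at h1

theorem ab_few (htf : TorsionFree A) {D : ℕ} {f : ℤ → A} (hf : RR D f) (T : Finset ℤ)
    (hT : D ≤ T.card) (h1 : ∀ t ∈ T, f t = 1) (n : ℤ) : f n = 1 := by
  classical
  obtain ⟨N, hN, hnN⟩ : ∃ N : ℤ, (∀ t ∈ T, 0 ≤ t + N) ∧ 0 ≤ n + N := by
    refine ⟨∑ t ∈ T, |t| + |n|, fun t ht => ?_, ?_⟩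
    · have h2 : |t| ≤ ∑ t ∈ T, |t| := Finset.single_le_sum (f := fun t : ℤ => |t|)
        (fun _ _ => abs_nonneg _) ht
      have h3 := neg_abs_le t
      have h4 := abs_nonneg n
      omega
    · have h2 : 0 ≤ ∑ t ∈ T, |t| := Finset.sum_nonneg fun _ _ => abs_nonneg _
      have h3 := neg_abs_le n
      omega
  have h2 := ab_few_nat htf (RR_shift D f hf (-N)) (T.image fun t => (t + N).toNat) (by
    rw [Finset.card_image_of_injOn]
    · exact hT
    · intro a ha b hb hab
      have e1 := hN a ha
      have e2 := hN b hb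
      simp only at hab
      omega) (by
    intro t ht
    obtain ⟨t', ht', rfl⟩ := Finset.mem_image.1 ht
    rw [Int.toNat_of_nonneg (hN t' ht')]
    simpa using h1 t' ht') (n + N).toNat
  rw [Int.toNat_of_nonneg hnN] at h2
  simpa using h2

end ab

theorem RR_map {G H : Type} [Group G] [Group H] (φ : G →* H) (D : ℕ) :
    ∀ (f : ℤ → G), RR D f → RR D (fun n => φ (f n)) := by
  induction D with
  | zero =>
    intro f hf n
    show φ (f n) = 1
    rw [show f n = 1 from hf n, map_one]
  | succ D ih =>
    intro f hf s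
    have h1 := ih (dd s f) (hf s)
    have h2 : (fun n => φ (dd s f n)) = dd s (fun n => φ (f n)) := by
      funext n
      unfold dd
      rw [map_mul, map_inv]
    rwa [h2] at h1

theorem RR_map_inj {G H : Type} [Group G] [Group H] (φ : G →* H) (hφ : Function.Injective φ)
    (D : ℕ) : ∀ (f : ℤ → G), RR D (fun n => φ (f n)) → RR D f := by
  induction D with
  | zero =>
    intro f hf n
    exact hφ ((hf n).trans (map_one φ).symm)
  | succ D ih =>
    intro f hf s
    apply ih (dd s f)
    have h1 := hf s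
    have h2 : (fun n => φ (dd s f n)) = dd s (fun n => φ (f n)) := by
      funext n
      unfold dd
      rw [map_mul, map_inv]
    rw [h2]
    exact h1

/-- **Few repeated values.** -/
theorem nil_few (G : Type) [Group G] [Group.IsNilpotent G] : TorsionFree G →
    ∀ (D : ℕ) (f : ℤ → G), RR D f → ∀ (g : G) (T : Finset ℤ), D < T.card →
      (∀ t ∈ T, f t = g) → ∀ n, f n = g := by
  refine Group.nilpotent_center_quotient_ind
    (P := fun G _ _ => TorsionFree G → ∀ (D : ℕ) (f : ℤ → G), RR D f → ∀ (g : G) (T : Finset ℤ),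
      D < T.card → (∀ t ∈ T, f t = g) → ∀ n, f n = g) G ?_ ?_
  · intro G _ _ _ D f _ g T _ _ n
    exact Subsingleton.elim _ _
  · intro G _ _ ih htf D f hf g T hT h1 n
    have htf' : TorsionFree (G ⧸ Subgroup.center G) := by
      intro q k hk hq
      induction q using QuotientGroup.induction_on with
      | H x =>
        rw [← QuotientGroup.mk_pow, QuotientGroup.eq_one_iff] at hq
        rw [QuotientGroup.eq_one_iff]
        exact center_tf htf hk hq
    have h2 := ih htf' D (fun n => QuotientGroup.mk' (Subgroup.center G) (f n))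
      (RR_map _ D f hf) (QuotientGroup.mk' _ g) T hT (fun t ht => by rw [h1 t ht])
    have h3 : ∀ n, f n * g⁻¹ ∈ Subgroup.center G := by
      intro n
      have h4 := h2 n
      rw [← QuotientGroup.eq_one_iff]
      have h5 : QuotientGroup.mk' (Subgroup.center G) (f n * g⁻¹) = 1 := by
        rw [map_mul, map_inv, h4, mul_inv_cancel]
      exact h5
    cases D with
    | zero =>
      obtain ⟨t, ht⟩ := Finset.card_pos.1 hT
      have e1 : ∀ n : ℤ, f n = 1 := fun n => hf n
      rw [e1 n, ← h1 t ht, e1 t]
    | succ D =>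
      let z : ℤ → Subgroup.center G := fun n => ⟨f n * g⁻¹, h3 n⟩
      have hz : RR (D + 1) z := by
        refine RR_map_inj (Subgroup.center G).subtype (Subgroup.subtype_injective _) (D + 1) z ?_
        intro s
        have e1 : dd s (fun n => (Subgroup.center G).subtype (z n)) = dd s f := by
          funext n
          simp only [dd, z, Subgroup.subtype_apply]
          group
        rw [e1]
        exact hf s
      have htfc : TorsionFree (Subgroup.center G) := by
        intro x k hk hx
        apply Subtype.ext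
        refine htf x.1 k hk ?_
        have := congrArg Subtype.val hx
        simpa using this
      have h6 : ∀ t ∈ T, z t = 1 := by
        intro t ht
        apply Subtype.ext
        show f t * g⁻¹ = 1
        rw [h1 t ht, mul_inv_cancel]
      let inst : CommGroup (Subgroup.center G) :=
        { Subgroup.toGroup (Subgroup.center G) with
          mul_comm := fun a b => Subtype.ext (Subgroup.mem_center_iff.1 b.2 a.1) }
      have h4 := @ab_few (Subgroup.center G) inst htfc (D + 1) z hz T hT.le h6 n
      have h5 : f n * g⁻¹ = 1 := congrArg Subtype.val h4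
      exact mul_inv_eq_one.1 h5

end Pool.Agent.Zk89.QM
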