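import Pool.Agent.Zk89.QM.Mix

/-!
# Second moments along lines
-/

set_option autoImplicit false
set_option linter.unusedSectionVars false

open Filter Topology MeasureTheory

noncomputable section

namespace Pool.Agent.Zk89.QM

variable {X G : Type*} [Group G] [MeasurableSpace X] {μ : Measure X} [IsProbabilityMeasure μ]
  {Φ : G →* Equiv.Perm X} {ρ : G → ℝ} {𝒮 : Set (X → ℂ)} {Nm : (X → ℂ) → ℝ} {A : ℝ} {a : ℕ}

/-- the product of the translates -/
def Fp {V : Type*} [Fintype V] (Φ : G →* Equiv.Perm X) (f : V → X → ℂ) (p : V → G) (x : X) : ℂ :=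
  ∏ v, f v (Φ (p v) x)

theorem Fp_meas (h : EM μ Φ ρ 𝒮 Nm A a) {V : Type*} [Fintype V] {f : V → X → ℂ}
    (hf : ∀ v, f v ∈ 𝒮) (p : V → G) : Measurable (Fp Φ f p) :=
  Finset.measurable_fun_prod _ fun v _ => (h.meas _ (hf v)).comp (h.mp _).measurable

/-- bound of the product -/
def KF {V : Type*} [Fintype V] (Nm : (X → ℂ) → ℝ) (f : V → X → ℂ) : ℝ := ∏ v, max 1 (Nm (f v))

theorem KF_one {V : Type*} [Fintype V] (f : V → X → ℂ) : 1 ≤ KF Nm f := by
  unfold KF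
  calc (1 : ℝ) = ∏ _v : V, (1 : ℝ) := by simp
    _ ≤ _ := Finset.prod_le_prod (fun _ _ => zero_le_one) fun _ _ => le_max_left _ _

theorem Fp_bdd (h : EM μ Φ ρ 𝒮 Nm A a) {V : Type*} [Fintype V] {f : V → X → ℂ}
    (hf : ∀ v, f v ∈ 𝒮) (p : V → G) (x : X) : ‖Fp Φ f p x‖ ≤ KF Nm f := by
  unfold Fp KF
  rw [norm_prod]
  exact Finset.prod_le_prod (fun _ _ => norm_nonneg _) fun v _ =>
    (h.bdd _ (hf v) _).trans (le_max_right _ _)

theorem norm_int_le {F : X → ℂ} {K : ℝ} (hF : ∀ x, ‖F x‖ ≤ K) : ‖∫ x, F x ∂μ‖ ≤ K := by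
  have := norm_integral_le_of_norm_le_const (μ := μ) (Eventually.of_forall hF)
  simpa using this

/-- **Covariances** of products whose factors are far apart. -/
theorem EM.cov [Nonempty X] (h : EM μ Φ ρ 𝒮 Nm A a) (hA : 1 ≤ A) {V : Type} [Fintype V]
    [DecidableEq V] (f : V → X → ℂ) (hf : ∀ v, f v ∈ 𝒮) {β : ℝ} (hβ : 0 < β) :
    ∃ C ε : ℝ, 0 ≤ C ∧ 0 < ε ∧ ∀ (L : ℝ), 1 ≤ L → ∀ p₁ p₂ : V → G,
      (∀ v w, L ^ β < ρ (p₁ v * (p₂ w)⁻¹)) →
      ‖∫ x, Fp Φ f p₁ x * starRingEnd ℂ (Fp Φ f p₂ x) ∂μ -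
        (∫ x, Fp Φ f p₁ x ∂μ) * starRingEnd ℂ (∫ x, Fp Φ f p₂ x ∂μ)‖ ≤ C * L ^ (-ε) := by
  classical
  let f' : V × Bool → X → ℂ := fun i x => if i.2 then f i.1 x else starRingEnd ℂ (f i.1 x)
  have hf' : ∀ i, f' i ∈ 𝒮 := by
    rintro ⟨v, b⟩
    cases b
    · exact h.conj _ (hf v)
    · exact hf v
  obtain ⟨C, ε, hC, hε, hcl⟩ := h.cluster hA f' hf' hβ
  set K := KF Nm f with hK
  have hK1 : 1 ≤ K := KF_one f
  refine ⟨C * (1 + K + C + K), ε, by positivity, hε, fun L hL p₁ p₂ hp => ?_⟩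
  obtain ⟨p, hp'⟩ : ∃ p : V × Bool → G, p = fun i => if i.2 then p₁ i.1 else p₂ i.1 := ⟨_, rfl⟩
  obtain ⟨κ, T, hκ, hI⟩ := hcl L hL p
  set I₁ : Finset (V × Bool) := Finset.univ.filter fun i => i.2 = true with hI₁
  set I₂ : Finset (V × Bool) := Finset.univ.filter fun i => i.2 = false with hI₂
  have hdisj : ∀ c, (I₁.filter fun i => κ i = c) = ∅ ∨ (I₂.filter fun i => κ i = c) = ∅ := by
    intro c
    by_contra hcon
    push Not at hcon
    obtain ⟨⟨i, hi⟩, ⟨i', hi'⟩⟩ := hcon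
    rw [Finset.mem_filter, hI₁, Finset.mem_filter] at hi
    rw [Finset.mem_filter, hI₂, Finset.mem_filter] at hi'
    have h1 := hκ i i' (hi.2.trans hi'.2.symm)
    simp only [hp', hi.1.2, hi'.1.2, if_true] at h1
    have h2 := hp i.1 i'.1
    simp only [Bool.false_eq_true, if_false] at h1
    linarith
  have hu := hI Finset.univ
  have h1 := hI I₁
  have h2 := hI I₂
  have e1 : ∀ x, ∏ i ∈ I₁, f' i (Φ (p i) x) = Fp Φ f p₁ x := by
    intro x
    unfold Fp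
    refine Finset.prod_nbij' (fun i => i.1) (fun v => (v, true)) ?_ ?_ ?_ ?_ ?_
    · intro i _
      exact Finset.mem_univ _
    · intro v _
      exact Finset.mem_filter.2 ⟨Finset.mem_univ _, rfl⟩
    · rintro ⟨v, b⟩ hi
      have := (Finset.mem_filter.1 hi).2
      simp only at this
      rw [this]
    · intro v _
      rfl
    · rintro ⟨v, b⟩ hi
      have := (Finset.mem_filter.1 hi).2
      simp only at this
      simp only [f', hp', this, if_true]
  have e2 : ∀ x, ∏ i ∈ I₂, f' i (Φ (p i) x) = starRingEnd ℂ (Fp Φ f p₂ x) := by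
    intro x
    unfold Fp
    rw [map_prod]
    refine Finset.prod_nbij' (fun i => i.1) (fun v => (v, false)) ?_ ?_ ?_ ?_ ?_
    · intro i _
      exact Finset.mem_univ _
    · intro v _
      exact Finset.mem_filter.2 ⟨Finset.mem_univ _, rfl⟩
    · rintro ⟨v, b⟩ hi
      have := (Finset.mem_filter.1 hi).2
      simp only at this
      rw [this]
    · intro v _
      rfl
    · rintro ⟨v, b⟩ hi
      have := (Finset.mem_filter.1 hi).2
      simp only at this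
      simp only [f', hp', this, Bool.false_eq_true, if_false]
  have e3 : ∀ x, ∏ i, f' i (Φ (p i) x) = Fp Φ f p₁ x * starRingEnd ℂ (Fp Φ f p₂ x) := by
    intro x
    rw [← e1, ← e2, ← Finset.prod_filter_mul_prod_filter_not Finset.univ (fun i => i.2 = true)]
    congr 1
    refine Finset.prod_congr ?_ fun _ _ => rfl
    ext i
    simp [hI₂]
  have e4 : ∫ x, starRingEnd ℂ (Fp Φ f p₂ x) ∂μ = starRingEnd ℂ (∫ x, Fp Φ f p₂ x ∂μ) :=
    integral_conj
  have e5 : ∏ c ∈ T, ∫ x, ∏ i with κ i = c, f' i (Φ (p i) x) ∂μ =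
      (∏ c ∈ T, ∫ x, ∏ i ∈ I₁ with κ i = c, f' i (Φ (p i) x) ∂μ) *
      ∏ c ∈ T, ∫ x, ∏ i ∈ I₂ with κ i = c, f' i (Φ (p i) x) ∂μ := by
    rw [← Finset.prod_mul_distrib]
    refine Finset.prod_congr rfl fun c _ => ?_
    have e6 : (Finset.univ.filter fun i => κ i = c) = (I₁.filter fun i => κ i = c) ∪
        (I₂.filter fun i => κ i = c) := by
      ext i
      simp only [Finset.mem_filter, Finset.mem_univ, true_and, Finset.mem_union, hI₁, hI₂]
      cases i.2 <;> simp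
    rcases hdisj c with h3 | h3
    · rw [e6, h3, Finset.empty_union]
      simp
    · rw [e6, h3, Finset.union_empty]
      simp
  simp only [e1] at h1
  simp only [e2] at h2
  simp only [e3] at hu
  rw [e4] at h2
  rw [e5] at hu
  set x₀ := ∫ x, Fp Φ f p₁ x * starRingEnd ℂ (Fp Φ f p₂ x) ∂μ
  set x₁ := ∫ x, Fp Φ f p₁ x ∂μ with hx₁
  set x₂ := starRingEnd ℂ (∫ x, Fp Φ f p₂ x ∂μ) with hx₂
  set y₁ := ∏ c ∈ T, ∫ x, ∏ i ∈ I₁ with κ i = c, f' i (Φ (p i) x) ∂μ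
  set y₂ := ∏ c ∈ T, ∫ x, ∏ i ∈ I₂ with κ i = c, f' i (Φ (p i) x) ∂μ
  set η := C * L ^ (-ε) with hη
  have hLε : L ^ (-ε) ≤ 1 := Real.rpow_le_one_of_one_le_of_nonpos hL (by linarith)
  have hLε0 : 0 ≤ L ^ (-ε) := Real.rpow_nonneg (by linarith) _
  have hηC : η ≤ C := by
    rw [hη]
    nlinarith
  have hη0 : 0 ≤ η := by positivity
  have hx1K : ‖x₁‖ ≤ K := norm_int_le (Fp_bdd h hf p₁)
  have hx2K : ‖x₂‖ ≤ K := by
    rw [hx₂, RCLike.norm_conj]
    exact norm_int_le (Fp_bdd h hf p₂)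
  have hy1 : ‖y₁‖ ≤ K + C := by
    have e : y₁ = x₁ - (x₁ - y₁) := by ring
    rw [e]
    refine (norm_sub_le _ _).trans ?_
    linarith
  have e : x₀ - x₁ * x₂ = (x₀ - y₁ * y₂) + (-(y₁ * (x₂ - y₂)) + -(x₂ * (x₁ - y₁))) := by ring
  rw [e]
  calc ‖(x₀ - y₁ * y₂) + (-(y₁ * (x₂ - y₂)) + -(x₂ * (x₁ - y₁)))‖
      ≤ ‖x₀ - y₁ * y₂‖ + (‖y₁‖ * ‖x₂ - y₂‖ + ‖x₂‖ * ‖x₁ - y₁‖) := by
        refine (norm_add_le _ _).trans (add_le_add le_rfl ((norm_add_le _ _).trans ?_))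
        rw [norm_neg, norm_neg, norm_mul, norm_mul]
    _ ≤ η + ((K + C) * η + K * η) := by gcongr
    _ = C * (1 + K + C + K) * L ^ (-ε) := by
        rw [hη]
        ring

/-- the second moment of an average -/
theorem sq_avg {Z : ℕ → X → ℂ} (hZm : ∀ t, Measurable (Z t)) {K : ℝ} (hZ : ∀ t x, ‖Z t x‖ ≤ K)
    {c : ℕ → ℕ → ℝ} (n : ℕ)
    (hc : ∀ t t', ‖∫ x, Z t x * starRingEnd ℂ (Z t' x) ∂μ‖ ≤ c t t') :
    ∫ x, ‖(n : ℂ)⁻¹ * ∑ t ∈ Finset.range n, Z t x‖ ^ 2 ∂μ ≤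
      ((n : ℝ)⁻¹) ^ 2 * ∑ t ∈ Finset.range n, ∑ t' ∈ Finset.range n, c t t' := by
  have hi : ∀ t t', Integrable (fun x => Z t x * starRingEnd ℂ (Z t' x)) μ := by
    intro t t'
    refine Integrable.of_bound
      ((hZm t).mul (Complex.continuous_conj.measurable.comp (hZm t'))).aestronglyMeasurable
      (K * K) (Eventually.of_forall fun x => ?_)
    rw [norm_mul, RCLike.norm_conj]
    exact mul_le_mul (hZ t x) (hZ t' x) (norm_nonneg _) ((norm_nonneg _).trans (hZ t x))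
  have h1 : ∀ x, ((‖(n : ℂ)⁻¹ * ∑ t ∈ Finset.range n, Z t x‖ ^ 2 : ℝ) : ℂ) =
      ((n : ℂ)⁻¹) ^ 2 * ∑ t ∈ Finset.range n, ∑ t' ∈ Finset.range n,
        Z t x * starRingEnd ℂ (Z t' x) := by
    intro x
    rw [norm_mul, mul_pow, norm_inv, Complex.norm_natCast]
    push_cast
    rw [← Complex.mul_conj', map_sum, Finset.sum_mul_sum]
  have h2 : ((∫ x, ‖(n : ℂ)⁻¹ * ∑ t ∈ Finset.range n, Z t x‖ ^ 2 ∂μ : ℝ) : ℂ) =
      ((n : ℂ)⁻¹) ^ 2 * ∑ t ∈ Finset.range n, ∑ t' ∈ Finset.range n,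
        ∫ x, Z t x * starRingEnd ℂ (Z t' x) ∂μ := by
    rw [← integral_complex_ofReal]
    simp only [h1]
    rw [integral_const_mul, integral_finsetSum _ fun t _ => integrable_finsetSum _ fun t' _ => hi t t']
    congr 1
    refine Finset.sum_congr rfl fun t _ => ?_
    rw [integral_finsetSum _ fun t' _ => hi t t']
  have h3 : 0 ≤ ∫ x, ‖(n : ℂ)⁻¹ * ∑ t ∈ Finset.range n, Z t x‖ ^ 2 ∂μ :=
    integral_nonneg fun x => by positivity
  have h4 : ∫ x, ‖(n : ℂ)⁻¹ * ∑ t ∈ Finset.range n, Z t x‖ ^ 2 ∂μ =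
      ‖((n : ℂ)⁻¹) ^ 2 * ∑ t ∈ Finset.range n, ∑ t' ∈ Finset.range n,
        ∫ x, Z t x * starRingEnd ℂ (Z t' x) ∂μ‖ := by
    rw [← h2, Complex.norm_real, Real.norm_of_nonneg h3]
  rw [h4, norm_mul, norm_pow, norm_inv, Complex.norm_natCast]
  refine mul_le_mul_of_nonneg_left ?_ (by positivity)
  refine (norm_sum_le _ _).trans (Finset.sum_le_sum fun t _ => ?_)
  exact (norm_sum_le _ _).trans (Finset.sum_le_sum fun t' _ => hc t t')

/-- **Second moments.** -/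
theorem EM.second [Nonempty X] (h : EM μ Φ ρ 𝒮 Nm A a) (hA : 1 ≤ A) {V : Type} [Fintype V]
    [DecidableEq V] (f : V → X → ℂ) (hf : ∀ v, f v ∈ 𝒮) (D : ℕ) :
    ∃ C η : ℝ, 0 ≤ C ∧ 0 < η ∧ ∀ n : ℕ, 0 < n → ∀ p : ℕ → V → G,
      (∀ v g, ∀ T : Finset ℕ, (∀ t ∈ T, p t v = g) → T.card ≤ D) →
      ∫ x, ‖(n : ℂ)⁻¹ * ∑ t ∈ Finset.range n, (Fp Φ f (p t) x - ∫ x, Fp Φ f (p t) x ∂μ)‖ ^ 2 ∂μ ≤
        C * (n : ℝ) ^ (-η) := by
  classical
  obtain ⟨Cb, Q, hball⟩ := h.ball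
  set Q' : ℝ := max Q 1 with hQ'
  have hQ'1 : 1 ≤ Q' := le_max_right _ _
  set β : ℝ := 1 / (2 * Q') with hβ'
  have hβ : 0 < β := by positivity
  obtain ⟨C, ε, hC, hε, hcov⟩ := h.cov hA f hf hβ
  set K := KF Nm f with hK
  have hK1 : 1 ≤ K := KF_one f
  set W : ℝ := (Fintype.card V : ℝ) * (Fintype.card V : ℝ) * (D * |Cb|) * (2 * K * (2 * K)) with hW
  have hW0 : 0 ≤ W := by positivity
  refine ⟨C + W, min ε (1 / 2), by positivity, by positivity, fun n hn p hp => ?_⟩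
  have hn1 : (1 : ℝ) ≤ n := by exact_mod_cast hn
  have hn0 : (0 : ℝ) < n := by linarith
  set Z : ℕ → X → ℂ := fun t x => Fp Φ f (p t) x - ∫ x, Fp Φ f (p t) x ∂μ with hZ
  have hZm : ∀ t, Measurable (Z t) := fun t => (Fp_meas h hf _).sub measurable_const
  have hZb : ∀ t x, ‖Z t x‖ ≤ 2 * K := by
    intro t x
    simp only [hZ]
    refine (norm_sub_le _ _).trans ?_
    have h1 := Fp_bdd h hf (p t) x
    have h2 := norm_int_le (μ := μ) (Fp_bdd h hf (p t))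
    linarith
  let tie : ℕ → ℕ → Prop := fun t t' => ∃ v w, ρ (p t v * (p t' w)⁻¹) ≤ (n : ℝ) ^ β
  let c : ℕ → ℕ → ℝ := fun t t' => C * (n : ℝ) ^ (-ε) + if tie t t' then 2 * K * (2 * K) else 0
  have hnε0 : 0 ≤ (n : ℝ) ^ (-ε) := Real.rpow_nonneg hn0.le _
  have hcc : ∀ t t', ‖∫ x, Z t x * starRingEnd ℂ (Z t' x) ∂μ‖ ≤ c t t' := by
    intro t t'
    simp only [c]
    split_ifs with ht
    · have h1 : ‖∫ x, Z t x * starRingEnd ℂ (Z t' x) ∂μ‖ ≤ 2 * K * (2 * K) := by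
        refine norm_int_le fun x => ?_
        rw [norm_mul, RCLike.norm_conj]
        exact mul_le_mul (hZb t x) (hZb t' x) (norm_nonneg _) (by positivity)
      have : 0 ≤ C * (n : ℝ) ^ (-ε) := by positivity
      linarith
    · rw [add_zero]
      simp only [tie, not_exists, not_le] at ht
      have h1 := hcov n hn1 (p t) (p t') (fun v w => ht v w)
      refine le_trans (le_of_eq ?_) h1
      congr 1
      have hi1 : ∀ t, Integrable (Fp Φ f (p t)) μ := fun t =>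
        Integrable.of_bound (Fp_meas h hf _).aestronglyMeasurable K
          (Eventually.of_forall fun x => Fp_bdd h hf _ x)
      have hi2 : ∀ t, Integrable (fun x => starRingEnd ℂ (Fp Φ f (p t) x)) μ := fun t =>
        Integrable.of_bound
          (Complex.continuous_conj.measurable.comp (Fp_meas h hf _)).aestronglyMeasurable K
          (Eventually.of_forall fun x => by rw [RCLike.norm_conj]; exact Fp_bdd h hf _ x)
      have hi3 : Integrable (fun x => Fp Φ f (p t) x * starRingEnd ℂ (Fp Φ f (p t') x)) μ :=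
        Integrable.of_bound ((Fp_meas h hf _).mul
          (Complex.continuous_conj.measurable.comp (Fp_meas h hf _))).aestronglyMeasurable (K * K)
          (Eventually.of_forall fun x => by
            rw [norm_mul, RCLike.norm_conj]
            exact mul_le_mul (Fp_bdd h hf _ x) (Fp_bdd h hf _ x) (norm_nonneg _) (by positivity))
      have e1 : ∀ x, Z t x * starRingEnd ℂ (Z t' x) =
          Fp Φ f (p t) x * starRingEnd ℂ (Fp Φ f (p t') x) -
            (∫ x, Fp Φ f (p t) x ∂μ) * starRingEnd ℂ (Fp Φ f (p t') x) -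
            (Fp Φ f (p t) x * starRingEnd ℂ (∫ x, Fp Φ f (p t') x ∂μ) -
              (∫ x, Fp Φ f (p t) x ∂μ) * starRingEnd ℂ (∫ x, Fp Φ f (p t') x ∂μ)) := by
        intro x
        simp only [hZ, map_sub]
        ring
      simp only [e1]
      set m1 := ∫ x, Fp Φ f (p t) x ∂μ with hm1
      set m2 := ∫ x, Fp Φ f (p t') x ∂μ with hm2
      have E1 : ∫ x, (Fp Φ f (p t) x * starRingEnd ℂ (Fp Φ f (p t') x) -
            m1 * starRingEnd ℂ (Fp Φ f (p t') x) -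
            (Fp Φ f (p t) x * starRingEnd ℂ m2 - m1 * starRingEnd ℂ m2)) ∂μ =
          ∫ x, (Fp Φ f (p t) x * starRingEnd ℂ (Fp Φ f (p t') x) -
            m1 * starRingEnd ℂ (Fp Φ f (p t') x)) ∂μ -
          ∫ x, (Fp Φ f (p t) x * starRingEnd ℂ m2 - m1 * starRingEnd ℂ m2) ∂μ :=
        integral_sub (hi3.sub ((hi2 t').const_mul _))
          (((hi1 t).mul_const _).sub (integrable_const _))
      have E2 : ∫ x, (Fp Φ f (p t) x * starRingEnd ℂ (Fp Φ f (p t') x) -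
            m1 * starRingEnd ℂ (Fp Φ f (p t') x)) ∂μ =
          ∫ x, Fp Φ f (p t) x * starRingEnd ℂ (Fp Φ f (p t') x) ∂μ -
          ∫ x, m1 * starRingEnd ℂ (Fp Φ f (p t') x) ∂μ :=
        integral_sub hi3 ((hi2 t').const_mul _)
      have E3 : ∫ x, (Fp Φ f (p t) x * starRingEnd ℂ m2 - m1 * starRingEnd ℂ m2) ∂μ =
          ∫ x, Fp Φ f (p t) x * starRingEnd ℂ m2 ∂μ - ∫ _x, m1 * starRingEnd ℂ m2 ∂μ :=
        integral_sub ((hi1 t).mul_const _) (integrable_const _)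
      have E4 : ∫ x, starRingEnd ℂ (Fp Φ f (p t') x) ∂μ = starRingEnd ℂ m2 := integral_conj
      rw [E1, E2, E3, integral_const_mul, integral_mul_const, E4, integral_const, probReal_univ,
        one_smul, ← hm1]
      ring
  refine (sq_avg hZm hZb n hcc).trans ?_
  -- number of ties
  have htie : ∀ t', ∑ t ∈ Finset.range n, (if tie t t' then 2 * K * (2 * K) else 0) ≤
      W * (n : ℝ) ^ (1 / 2 : ℝ) := by
    intro t'
    rw [Finset.sum_ite, Finset.sum_const_zero, add_zero, Finset.sum_const, nsmul_eq_mul]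
    let U : V × V → Finset ℕ := fun vw => (Finset.range n).filter fun t =>
          ρ (p t vw.1 * (p t' vw.2)⁻¹) ≤ (n : ℝ) ^ β
    have h1 : (Finset.range n).filter (fun t => tie t t') ⊆ Finset.univ.biUnion U := by
      intro t ht
      obtain ⟨ht1, v, w, ht2⟩ := Finset.mem_filter.1 ht
      exact Finset.mem_biUnion.2 ⟨(v, w), Finset.mem_univ _, Finset.mem_filter.2 ⟨ht1, ht2⟩⟩
    have h2 : ∀ v w : V, (((Finset.range n).filter fun t =>
          ρ (p t v * (p t' w)⁻¹) ≤ (n : ℝ) ^ β).card : ℝ) ≤ D * |Cb| * (n : ℝ) ^ (1 / 2 : ℝ) := by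
      intro v w
      set S := (Finset.range n).filter fun t => ρ (p t v * (p t' w)⁻¹) ≤ (n : ℝ) ^ β with hS
      have h3 : S.card ≤ D * (S.image fun t => p t v * (p t' w)⁻¹).card := by
        refine Finset.card_le_mul_card_image S D fun g _ => ?_
        refine hp v (g * p t' w) _ fun t ht => ?_
        have := (Finset.mem_filter.1 ht).2
        rw [← this, inv_mul_cancel_right]
      have h4 := hball ((n : ℝ) ^ β) (Real.one_le_rpow hn1 hβ.le)
        (S.image fun t => p t v * (p t' w)⁻¹) (by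
          intro g hg
          obtain ⟨t, ht, rfl⟩ := Finset.mem_image.1 hg
          exact (Finset.mem_filter.1 ht).2)
      have h5 : Cb * ((n : ℝ) ^ β) ^ Q ≤ |Cb| * (n : ℝ) ^ (1 / 2 : ℝ) := by
        have h6 : ((n : ℝ) ^ β) ^ Q ≤ (n : ℝ) ^ (1 / 2 : ℝ) := by
          rw [← Real.rpow_mul hn0.le]
          refine Real.rpow_le_rpow_of_exponent_le hn1 ?_
          have : β * Q ≤ β * Q' := mul_le_mul_of_nonneg_left (le_max_left _ _) hβ.le
          refine this.trans (le_of_eq ?_)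
          rw [hβ']
          field_simp
        have h7 : 0 ≤ ((n : ℝ) ^ β) ^ Q := Real.rpow_nonneg (Real.rpow_nonneg hn0.le _) _
        calc Cb * ((n : ℝ) ^ β) ^ Q ≤ |Cb| * ((n : ℝ) ^ β) ^ Q :=
              mul_le_mul_of_nonneg_right (le_abs_self _) h7
          _ ≤ _ := mul_le_mul_of_nonneg_left h6 (abs_nonneg _)
      calc (S.card : ℝ) ≤ D * ((S.image fun t => p t v * (p t' w)⁻¹).card : ℝ) := by
            exact_mod_cast h3
        _ ≤ D * (|Cb| * (n : ℝ) ^ (1 / 2 : ℝ)) := by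
            refine mul_le_mul_of_nonneg_left (h4.trans h5) (by positivity)
        _ = _ := by ring
    have h3 : (((Finset.range n).filter fun t => tie t t').card : ℝ) ≤
        (Fintype.card V : ℝ) * (Fintype.card V : ℝ) * (D * |Cb|) * (n : ℝ) ^ (1 / 2 : ℝ) := by
      have h4 := (Finset.card_le_card h1).trans Finset.card_biUnion_le
      have h5 : ((∑ vw : V × V, (U vw).card : ℕ) : ℝ) ≤
          ∑ _vw : V × V, D * |Cb| * (n : ℝ) ^ (1 / 2 : ℝ) := by
        push_cast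
        exact Finset.sum_le_sum fun vw _ => h2 vw.1 vw.2
      rw [Finset.sum_const, Finset.card_univ, nsmul_eq_mul, Fintype.card_prod] at h5
      push_cast at h5
      calc (((Finset.range n).filter fun t => tie t t').card : ℝ) ≤
            ((∑ vw : V × V, (U vw).card : ℕ) : ℝ) := by exact_mod_cast h4
        _ ≤ (Fintype.card V : ℝ) * (Fintype.card V : ℝ) * (D * |Cb| * (n : ℝ) ^ (1 / 2 : ℝ)) := by
            push_cast
            exact h5
        _ = _ := by ring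
    calc (((Finset.range n).filter fun t => tie t t').card : ℝ) * (2 * K * (2 * K))
        ≤ ((Fintype.card V : ℝ) * (Fintype.card V : ℝ) * (D * |Cb|) * (n : ℝ) ^ (1 / 2 : ℝ)) *
          (2 * K * (2 * K)) := mul_le_mul_of_nonneg_right h3 (by positivity)
      _ = _ := by
          rw [hW]
          ring
  have hsum : ∑ t ∈ Finset.range n, ∑ t' ∈ Finset.range n, c t t' ≤
      (n : ℝ) ^ 2 * (C * (n : ℝ) ^ (-ε)) + n * (W * (n : ℝ) ^ (1 / 2 : ℝ)) := by
    rw [Finset.sum_comm]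
    simp only [c, Finset.sum_add_distrib]
    refine add_le_add (le_of_eq ?_) ?_
    · simp only [Finset.sum_const, Finset.card_range, nsmul_eq_mul]
      ring
    · calc ∑ t' ∈ Finset.range n, ∑ t ∈ Finset.range n, (if tie t t' then 2 * K * (2 * K) else 0)
          ≤ ∑ _t' ∈ Finset.range n, W * (n : ℝ) ^ (1 / 2 : ℝ) :=
            Finset.sum_le_sum fun t' _ => htie t'
        _ = _ := by
            rw [Finset.sum_const, Finset.card_range, nsmul_eq_mul]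
  have hmin1 : (n : ℝ) ^ (-ε) ≤ (n : ℝ) ^ (-(min ε (1 / 2))) :=
    Real.rpow_le_rpow_of_exponent_le hn1 (neg_le_neg (min_le_left _ _))
  have hmin2 : (n : ℝ) ^ (-(1 / 2) : ℝ) ≤ (n : ℝ) ^ (-(min ε (1 / 2))) :=
    Real.rpow_le_rpow_of_exponent_le hn1 (neg_le_neg (min_le_right _ _))
  have hhalf : (n : ℝ)⁻¹ * (n : ℝ) ^ (1 / 2 : ℝ) = (n : ℝ) ^ (-(1 / 2) : ℝ) := by
    rw [← Real.rpow_neg_one, ← Real.rpow_add hn0]
    norm_num
  calc ((n : ℝ)⁻¹) ^ 2 * ∑ t ∈ Finset.range n, ∑ t' ∈ Finset.range n, c t t'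
      ≤ ((n : ℝ)⁻¹) ^ 2 * ((n : ℝ) ^ 2 * (C * (n : ℝ) ^ (-ε)) + n * (W * (n : ℝ) ^ (1 / 2 : ℝ))) :=
        mul_le_mul_of_nonneg_left hsum (by positivity)
    _ = C * (n : ℝ) ^ (-ε) + W * ((n : ℝ)⁻¹ * (n : ℝ) ^ (1 / 2 : ℝ)) := by
        field_simp
    _ ≤ C * (n : ℝ) ^ (-(min ε (1 / 2))) + W * (n : ℝ) ^ (-(min ε (1 / 2))) := by
        rw [hhalf]
        gcongr
    _ = _ := by ring

end Pool.Agent.Zk89.QM
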