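import Pool.Agent.Zk89.QM.Fib
import Pool.Agent.Zk89.QM.Few
import Pool.Agent.Zk89.QM.Sec

/-!
# Convergence to zero for effectively mixing actions
-/

set_option autoImplicit false
set_option linter.unusedSectionVars false

open Filter Topology MeasureTheory

noncomputable section

namespace Pool.Agent.Zk89.QM

open Pool.Agent.W761.Box
open Pool.Agent.Zk89.KS (bx_avg tendsto_coord sum_fiber)

theorem bxc_fiber {k : ℕ} (i : Fin k) (N : Fin k → ℕ) (a : (Fin k → ℕ) → ℂ) :
    bxc k N a = bxc k (Function.update N i 1) (fun m => (N i : ℂ)⁻¹ *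
      ∑ t ∈ Finset.range (N i), a (Function.update m i t)) := by
  have h : ∏ j, (N j : ℂ) = (N i : ℂ) * ∏ j, (Function.update N i 1 j : ℂ) := by
    rw [← Finset.mul_prod_erase _ (fun j => (N j : ℂ)) (Finset.mem_univ i),
      ← Finset.mul_prod_erase _ (fun j => ((Function.update N i 1 j : ℕ) : ℂ)) (Finset.mem_univ i)]
    simp only [Function.update_self, Nat.cast_one, one_mul]
    congr 1
    refine Finset.prod_congr rfl fun j hj => ?_
    rw [Function.update_of_ne (Finset.ne_of_mem_erase hj)]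
  rw [bxc, bxc, h, sum_fiber i N a, ← Finset.mul_sum, mul_inv]
  ring

theorem bxc_avg {k : ℕ} (i : Fin k) (N : Fin k → ℕ) (a : (Fin k → ℕ) → ℂ) :
    bxc k N a = bxc k N (fun m => (N i : ℂ)⁻¹ *
      ∑ t ∈ Finset.range (N i), a (Function.update m i t)) := by
  conv_lhs => rw [bxc_fiber i N a]
  conv_rhs => rw [bxc_fiber i N]
  congr 1
  funext m
  simp only [Function.update_idem]
  rw [Finset.sum_const, Finset.card_range, nsmul_eq_mul]
  rcases Nat.eq_zero_or_pos (N i) with h | h
  · simp [h]
  · have : (N i : ℂ) ≠ 0 := by exact_mod_cast h.ne'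
    field_simp

theorem prod_filter_le {J : Type*} [Fintype J] (P : J → Prop) [DecidablePred P] (c : J → ℝ)
    (hc : ∀ j, 1 ≤ c j) : ∏ j with P j, c j ≤ ∏ j, c j := by
  rw [← Finset.prod_filter_mul_prod_filter_not Finset.univ P c]
  refine le_mul_of_one_le_right (Finset.prod_nonneg fun j _ => by linarith [hc j]) ?_
  calc (1 : ℝ) = ∏ _j ∈ Finset.univ.filter (fun j => ¬ P j), (1 : ℝ) := by simp
    _ ≤ _ := Finset.prod_le_prod (fun _ _ => zero_le_one) fun j _ => hc j

variable {X G : Type*} [Group G] [MeasurableSpace X] {μ : Measure X} [IsProbabilityMeasure μ]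
  {Φ : G →* Equiv.Perm X} {ρ : G → ℝ} {𝒮 : Set (X → ℂ)} {Nm : (X → ℂ) → ℝ} {A : ℝ} {a : ℕ}
  {k : ℕ}

/-- dependence on a coordinate -/
def Dep (s : (Fin k → ℕ) → G) (i : Fin k) : Prop := ∃ m t, s (Function.update m i t) ≠ s m

/-- finiteness of the balls -/
theorem EM.ball_finite (h : EM μ Φ ρ 𝒮 Nm A a) (R : ℝ) : {g : G | ρ g ≤ R}.Finite := by
  classical
  obtain ⟨C, Q, hb⟩ := h.ball
  by_contra hinf
  obtain ⟨n, hn⟩ := exists_nat_gt (C * (max R 1) ^ Q)
  obtain ⟨S, hS1, hS2⟩ := (Set.not_finite.1 hinf).exists_subset_card_eq n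
  have h1 := hb (max R 1) (le_max_right _ _) S fun g hg => (hS1 hg).trans (le_max_left _ _)
  rw [hS2] at h1
  linarith

/-- the means tend to zero -/
theorem EM.mean [Nonempty X] (h : EM μ Φ ρ 𝒮 Nm A a) {V : Type} [Fintype V] [DecidableEq V]
    [Nonempty V] (f : V → X → ℂ) (hf : ∀ v, f v ∈ 𝒮) (hf0 : ∀ v, ∫ x, f v x ∂μ = 0)
    (s : V → (Fin k → ℕ) → G)
    (hs : ∀ v w, v ≠ w → (∃ D, Few D fun m => s v m * (s w m)⁻¹) ∧
      ∀ g, ∃ m, s v m * (s w m)⁻¹ ≠ g) :
    Tendsto (fun N => bx k N fun m => ‖∫ x, Fp Φ f (fun v => s v m) x ∂μ‖) atTop (𝓝 0) := by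
  classical
  obtain ⟨C, δ, hC, hδ, hmix⟩ := h.mix' (μ := μ) (Fintype.card V)
  set P : ℝ := ∏ v, Nm (f v) with hP
  have hP0 : 0 ≤ P := Finset.prod_nonneg fun v _ => h.nonneg (hf v)
  set K := KF Nm f with hK
  have hK1 : 1 ≤ K := KF_one f
  rw [Metric.tendsto_atTop]
  intro ε hε
  obtain ⟨R, hR1, hR⟩ : ∃ R : ℝ, 1 ≤ R ∧ C * P * R ^ (-δ) ≤ ε / 4 := by
    have h1 : Tendsto (fun R : ℝ => C * P * R ^ (-δ)) atTop (𝓝 (C * P * 0)) :=
      (tendsto_rpow_neg_atTop hδ).const_mul _
    rw [mul_zero] at h1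
    obtain ⟨R, hR⟩ := ((h1.eventually (ge_mem_nhds (show (0 : ℝ) < ε / 4 by positivity))).and
      (eventually_ge_atTop 1)).exists
    exact ⟨R, hR.2, hR.1⟩
  set S : Finset G := (h.ball_finite R).toFinset with hS
  have hSmem : ∀ g, g ∈ S ↔ ρ g ≤ R := fun g => by
    rw [hS, Set.Finite.mem_toFinset]
    rfl
  have hpt : ∀ m, ‖∫ x, Fp Φ f (fun v => s v m) x ∂μ‖ ≤ ε / 4 +
      ∑ vw : V × V, K * (if vw.1 ≠ vw.2 ∧ s vw.1 m * (s vw.2 m)⁻¹ ∈ S then 1 else 0) := by
    intro m
    by_cases hm : ∃ v w, v ≠ w ∧ s v m * (s w m)⁻¹ ∈ S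
    · obtain ⟨v, w, hvw, hmem⟩ := hm
      have h1 : ‖∫ x, Fp Φ f (fun v => s v m) x ∂μ‖ ≤ K := norm_int_le (Fp_bdd h hf _)
      have h2 : K * (if (v, w).1 ≠ (v, w).2 ∧ s (v, w).1 m * (s (v, w).2 m)⁻¹ ∈ S then 1 else 0)
          ≤ ∑ vw : V × V, K * (if vw.1 ≠ vw.2 ∧ s vw.1 m * (s vw.2 m)⁻¹ ∈ S then 1 else 0) :=
        Finset.single_le_sum (f := fun vw : V × V =>
          K * (if vw.1 ≠ vw.2 ∧ s vw.1 m * (s vw.2 m)⁻¹ ∈ S then (1 : ℝ) else 0))
          (fun vw _ => by
            have : (0 : ℝ) ≤ if vw.1 ≠ vw.2 ∧ s vw.1 m * (s vw.2 m)⁻¹ ∈ S then 1 else 0 := by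
              split_ifs <;> norm_num
            nlinarith) (Finset.mem_univ (v, w))
      rw [if_pos ⟨hvw, hmem⟩, mul_one] at h2
      linarith
    · push Not at hm
      have h1 := hmix (I := V) Finset.univ (le_of_eq Finset.card_univ) f (fun v => s v m)
        (fun v _ => hf v) R hR1 (fun v _ w _ hvw => by
          have := hm v w hvw
          rw [hSmem, not_le] at this
          exact this.le)
      have h2 : ∏ v, ∫ x, f v x ∂μ = 0 := by
        obtain ⟨v⟩ := ‹Nonempty V›
        exact Finset.prod_eq_zero (Finset.mem_univ v) (hf0 v)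
      rw [h2, sub_zero] at h1
      have h3 : 0 ≤ ∑ vw : V × V, K * (if vw.1 ≠ vw.2 ∧ s vw.1 m * (s vw.2 m)⁻¹ ∈ S
          then (1 : ℝ) else 0) := Finset.sum_nonneg fun vw _ => by
        have : (0 : ℝ) ≤ if vw.1 ≠ vw.2 ∧ s vw.1 m * (s vw.2 m)⁻¹ ∈ S then 1 else 0 := by
          split_ifs <;> norm_num
        nlinarith
      have h4 : ‖∫ x, Fp Φ f (fun v => s v m) x ∂μ‖ ≤ C * P * R ^ (-δ) := h1
      linarith
  have hlim : Tendsto (fun N => ∑ vw : V × V, K * bx k N (fun m =>
      if vw.1 ≠ vw.2 ∧ s vw.1 m * (s vw.2 m)⁻¹ ∈ S then 1 else 0)) atTop (𝓝 0) := by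
    have h1 : ∀ vw : V × V, Tendsto (fun N => K * bx k N (fun m =>
        if vw.1 ≠ vw.2 ∧ s vw.1 m * (s vw.2 m)⁻¹ ∈ S then 1 else 0)) atTop (𝓝 0) := by
      intro vw
      by_cases hvw : vw.1 = vw.2
      · have e : ∀ N, bx k N (fun m => if vw.1 ≠ vw.2 ∧ s vw.1 m * (s vw.2 m)⁻¹ ∈ S then 1
            else 0) = 0 := by
          intro N
          have e2 : (fun m => if vw.1 ≠ vw.2 ∧ s vw.1 m * (s vw.2 m)⁻¹ ∈ S then (1 : ℝ)
            else 0) = fun _ => 0 := by
            funext m
            rw [if_neg fun h => h.1 hvw]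
          rw [e2]
          simp [bx]
        simp only [e, mul_zero]
        exact tendsto_const_nhds
      · obtain ⟨⟨D, hD⟩, hne⟩ := hs vw.1 vw.2 hvw
        have h2 := (few_tendsto_finset hD hne S).const_mul K
        rw [mul_zero] at h2
        refine h2.congr fun N => ?_
        congr 1
        unfold bx
        congr 1
        refine Finset.sum_congr rfl fun m _ => ?_
        simp only [ne_eq, hvw, not_false_eq_true, true_and]
    have h2 := tendsto_finsetSum (Finset.univ : Finset (V × V)) fun vw _ => h1 vw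
    rw [Finset.sum_const_zero] at h2
    exact h2
  obtain ⟨N₀, hN₀⟩ := eventually_atTop.1
    ((tendsto_order.1 hlim).2 (ε / 4) (by positivity))
  refine ⟨N₀, fun N hN => ?_⟩
  rw [Real.dist_eq, sub_zero, abs_of_nonneg (bx_nonneg fun m => norm_nonneg _)]
  calc bx k N (fun m => ‖∫ x, Fp Φ f (fun v => s v m) x ∂μ‖)
      ≤ bx k N (fun m => ε / 4 + ∑ vw : V × V, K *
          (if vw.1 ≠ vw.2 ∧ s vw.1 m * (s vw.2 m)⁻¹ ∈ S then 1 else 0)) := bx_mono hpt
    _ = bx k N (fun _ => ε / 4) + ∑ vw : V × V, K * bx k N (fun m =>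
          if vw.1 ≠ vw.2 ∧ s vw.1 m * (s vw.2 m)⁻¹ ∈ S then 1 else 0) := by
        rw [bx_add, bx_sum]
        congr 1
        refine Finset.sum_congr rfl fun vw _ => ?_
        rw [bx_mul]
    _ ≤ ε / 4 + ε / 4 := add_le_add (bx_const_le (by positivity)) (hN₀ N hN).le
    _ < ε := by linarith

/-- **Convergence to zero.** -/
theorem EM.zero [Nonempty X] (h : EM μ Φ ρ 𝒮 Nm A a) (hA : 1 ≤ A) (hk : 0 < k) {J : Type}
    [Fintype J] [DecidableEq J] (f : J → X → ℂ) (hf : ∀ j, f j ∈ 𝒮)
    (hf0 : ∀ j, ∫ x, f j x ∂μ = 0) (s : J → (Fin k → ℕ) → G)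
    (hfew : ∀ j, ∃ D, Few D (s j))
    (hdiff : ∀ j j', j ≠ j' → (∃ D, Few D fun m => s j m * (s j' m)⁻¹) ∧
      ∀ g, ∃ m, s j m * (s j' m)⁻¹ ≠ g)
    (hev : ∀ j i t t', ∃ D, Few D fun m =>
      s j (Function.update m i t) * (s j (Function.update m i t'))⁻¹)
    (heff : ∀ i, ∃ j, Dep (s j) i) :
    ∀ᵐ x ∂μ, Tendsto (fun N => bxc k N fun m => ∏ j, f j (Φ (s j m) x)) atTop (𝓝 0) := by
  classical
  let V : Fin k → Type := fun i => {j // Dep (s j) i}
  have hne : ∀ i, Nonempty (V i) := fun i => by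
    obtain ⟨j, hj⟩ := heff i
    exact ⟨⟨j, hj⟩⟩
  let F : ∀ i, V i → X → ℂ := fun i v => f v.1
  have hF : ∀ i (v : V i), F i v ∈ 𝒮 := fun i v => hf v.1
  let p : ∀ i, (Fin k → ℕ) → V i → G := fun i m v => s v.1 m
  -- bounds
  set K : ℝ := KF Nm f with hKdef
  have hK1 : 1 ≤ K := KF_one f
  have hKV : ∀ i, KF Nm (F i) ≤ K := by
    intro i
    rw [hKdef]
    unfold KF
    have h1 : ∏ v : V i, max 1 (Nm (f v.1)) = ∏ j with Dep (s j) i, max 1 (Nm (f j)) := by
      rw [← Finset.prod_subtype_eq_prod_filter]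
      refine Finset.prod_congr ?_ fun _ _ => rfl
      ext v
      simp
    show ∏ v : V i, max 1 (Nm (f v.1)) ≤ _
    rw [h1]
    exact prod_filter_le _ _ fun j => le_max_left _ _
  choose Dj hDj using hfew
  set D : ℕ := ∑ j, Dj j with hD
  have hDle : ∀ j, Dj j ≤ D := fun j =>
    Finset.single_le_sum (f := Dj) (fun _ _ => Nat.zero_le _) (Finset.mem_univ j)
  choose C η hC hη hsec using fun i => h.second (μ := μ) hA (F i) (hF i) D
  let R : Fin k → (Fin k → ℕ) → Prop := fun i m =>
    ∃ v : V i, ∀ t, s v.1 (Function.update m i t) = s v.1 m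
  have hRinv : ∀ i m t, R i (Function.update m i t) ↔ R i m := by
    intro i m t
    constructor
    · rintro ⟨v, hv⟩
      refine ⟨v, fun t' => ?_⟩
      have h1 := hv t'
      have h2 := hv (m i)
      rw [Function.update_idem] at h1 h2
      rw [Function.update_eq_self] at h2
      rw [h1, h2]
    · rintro ⟨v, hv⟩
      refine ⟨v, fun t' => ?_⟩
      rw [Function.update_idem, hv t', hv t]
  let Em : Fin k → (Fin k → ℕ) → ℂ := fun i m => ∫ x, Fp Φ (F i) (p i m) x ∂μ
  let y : Fin k → (Fin k → ℕ) → X → ℂ := fun i m x =>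
    if R i m then 0 else Fp Φ (F i) (p i m) x - Em i m
  let e : Fin k → (Fin k → ℕ) → ℝ := fun i m => K * (K * (if R i m then 1 else 0) + ‖Em i m‖)
  have hFb : ∀ i m x, ‖Fp Φ (F i) (p i m) x‖ ≤ K := fun i m x =>
    (Fp_bdd h (hF i) _ x).trans (hKV i)
  have hEb : ∀ i m, ‖Em i m‖ ≤ K := fun i m => norm_int_le (hFb i m)
  have : Nonempty (Fin k) := ⟨⟨0, hk⟩⟩
  refine fib hk (fun m x => ∏ j, f j (Φ (s j m) x)) y ?_ (K := 2 * K) (by positivity) ?_
    (C := ∑ i, C i) (η := Finset.univ.inf' Finset.univ_nonempty η)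
    ((Finset.lt_inf'_iff _).2 fun i _ => hη i) (Finset.sum_nonneg fun i _ => hC i) ?_ e ?_
    (D := K) (by positivity) ?_
  · intro i m
    by_cases hR : R i m
    · simp only [y, if_pos hR]
      exact measurable_const
    · simp only [y, if_neg hR]
      exact (Fp_meas h (hF i) _).sub measurable_const
  · intro i m x
    simp only [y]
    split_ifs
    · rw [norm_zero]
      positivity
    · refine (norm_sub_le _ _).trans ?_
      have h1 := hFb i m x
      have h2 := hEb i m
      linarith
  · intro i m n hn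
    have hn1 : (1 : ℝ) ≤ n := by exact_mod_cast hn
    have hn0 : (0 : ℝ) ≤ (n : ℝ) ^ (-(Finset.univ.inf' Finset.univ_nonempty η)) :=
      Real.rpow_nonneg (by linarith) _
    by_cases hR : R i m
    · have e1 : ∀ t x, y i (Function.update m i t) x = 0 := by
        intro t x
        simp only [y]
        rw [if_pos ((hRinv i m t).2 hR)]
      simp only [e1, Finset.sum_const_zero, mul_zero, norm_zero]
      have : 0 ≤ ∑ i, C i := Finset.sum_nonneg fun i _ => hC i
      simp only [ne_eq, OfNat.ofNat_ne_zero, not_false_eq_true, zero_pow, integral_zero]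
      positivity
    · have e1 : ∀ t x, y i (Function.update m i t) x =
          Fp Φ (F i) (p i (Function.update m i t)) x -
            ∫ x, Fp Φ (F i) (p i (Function.update m i t)) x ∂μ := by
        intro t x
        simp only [y, Em]
        rw [if_neg fun h => hR ((hRinv i m t).1 h)]
      simp only [e1]
      refine (hsec i n hn (fun t => p i (Function.update m i t)) ?_).trans ?_
      · intro v g T hT
        rcases hDj v.1 i m g with h1 | h1
        · exfalso
          apply hR
          refine ⟨v, fun t => ?_⟩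
          have h2 := h1 (m i)
          rw [Function.update_eq_self] at h2
          rw [h1 t, h2]
        · exact (h1 T hT).trans (hDle v.1)
      · have h1 : C i ≤ ∑ i, C i :=
          Finset.single_le_sum (f := C) (fun i _ => hC i) (Finset.mem_univ i)
        have h2 : (n : ℝ) ^ (-(η i)) ≤ (n : ℝ) ^ (-(Finset.univ.inf' Finset.univ_nonempty η)) :=
          Real.rpow_le_rpow_of_exponent_le hn1
            (neg_le_neg (Finset.inf'_le _ (Finset.mem_univ i)))
        have h3 : 0 ≤ (n : ℝ) ^ (-(η i)) := Real.rpow_nonneg (by linarith) _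
        have h4 : 0 ≤ ∑ i, C i := Finset.sum_nonneg fun i _ => hC i
        exact mul_le_mul h1 h2 h3 h4
  · intro i
    have h1 : Tendsto (fun N => bx k N fun m => ‖Em i m‖) atTop (𝓝 0) := by
      have := hne i
      exact h.mean (F i) (hF i) (fun v => hf0 v.1) (fun v => s v.1) fun v w hvw =>
        hdiff v.1 w.1 fun e => hvw (Subtype.ext e)
    have h2 : Tendsto (fun N => bx k N fun m => if R i m then 1 else 0) atTop (𝓝 0) := by
      choose mv tv hv using fun v : V i => v.2
      have h3 : ∀ v : V i, Tendsto (fun N => bx k N fun m =>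
          if s v.1 (Function.update m i (tv v)) * (s v.1 (Function.update m i (mv v i)))⁻¹ = 1
            then 1 else 0) atTop (𝓝 0) := by
        intro v
        obtain ⟨D', hD'⟩ := hev v.1 i (tv v) (mv v i)
        have hne' : s v.1 (Function.update (mv v) i (tv v)) *
            (s v.1 (Function.update (mv v) i (mv v i)))⁻¹ ≠ 1 := by
          rw [Function.update_eq_self]
          intro e
          exact hv v (mul_inv_eq_one.1 e)
        exact few_tendsto hD' hne'
      have h4 := tendsto_finsetSum (Finset.univ : Finset (V i)) fun v _ => h3 v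
      rw [Finset.sum_const_zero] at h4
      refine squeeze_zero' (Eventually.of_forall fun N => bx_nonneg fun m => by
        split_ifs <;> norm_num) (Eventually.of_forall fun N => ?_) h4
      rw [← bx_sum]
      refine bx_mono fun m => ?_
      split_ifs with hR
      · obtain ⟨v, hv'⟩ := hR
        refine le_trans ?_ (Finset.single_le_sum (f := fun v : V i =>
          if s v.1 (Function.update m i (tv v)) * (s v.1 (Function.update m i (mv v i)))⁻¹ = 1
            then (1 : ℝ) else 0) (fun v _ => by split_ifs <;> norm_num) (Finset.mem_univ v))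
        rw [if_pos]
        rw [hv', hv', mul_inv_cancel]
      · exact Finset.sum_nonneg fun v _ => by split_ifs <;> norm_num
    have h3 := ((h2.const_mul K).add h1).const_mul K
    have e0 : K * (K * 0 + 0) = 0 := by ring
    rw [e0] at h3
    refine h3.congr fun N => ?_
    rw [← bx_mul, ← bx_add, ← bx_mul]
  · intro i N x hN
    have hNi : (0 : ℝ) < N i := by exact_mod_cast hN i
    rw [bxc_avg i]
    have hpt : ∀ m, ‖(N i : ℂ)⁻¹ * ∑ t ∈ Finset.range (N i),
        ∏ j, f j (Φ (s j (Function.update m i t)) x)‖ ≤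
        K * ‖(N i : ℂ)⁻¹ * ∑ t ∈ Finset.range (N i), y i (Function.update m i t) x‖ +
        (N i : ℝ)⁻¹ * ∑ t ∈ Finset.range (N i), e i (Function.update m i t) := by
      intro m
      have e1 : ∀ t, ∏ j, f j (Φ (s j (Function.update m i t)) x) =
          (∏ j with ¬ Dep (s j) i, f j (Φ (s j m) x)) *
            Fp Φ (F i) (p i (Function.update m i t)) x := by
        intro t
        rw [← Finset.prod_filter_mul_prod_filter_not Finset.univ (fun j => Dep (s j) i), mul_comm]
        congr 1
        · refine Finset.prod_congr rfl fun j hj => ?_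
          have h1 := (Finset.mem_filter.1 hj).2
          have h2 : s j (Function.update m i t) = s j m := by
            by_contra hcon
            exact h1 ⟨m, t, hcon⟩
          rw [h2]
        · show _ = ∏ v : V i, f v.1 (Φ (s v.1 (Function.update m i t)) x)
          rw [← Finset.prod_subtype_eq_prod_filter]
          refine Finset.prod_congr ?_ fun _ _ => rfl
          ext v
          simp
      have e2 : ∀ t, Fp Φ (F i) (p i (Function.update m i t)) x =
          y i (Function.update m i t) x + (if R i m then Fp Φ (F i) (p i (Function.update m i t)) x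
            else Em i (Function.update m i t)) := by
        intro t
        simp only [y]
        by_cases hR : R i m
        · rw [if_pos ((hRinv i m t).2 hR), if_pos hR, zero_add]
        · rw [if_neg fun h => hR ((hRinv i m t).1 h), if_neg hR, sub_add_cancel]
      have hPb : ‖∏ j with ¬ Dep (s j) i, f j (Φ (s j m) x)‖ ≤ K := by
        rw [norm_prod, hKdef]
        unfold KF
        refine (Finset.prod_le_prod (fun _ _ => norm_nonneg _) fun j _ =>
          (h.bdd _ (hf j) _).trans (le_max_right 1 _)).trans ?_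
        exact prod_filter_le _ _ fun j => le_max_left _ _
      have hsum : ‖(N i : ℂ)⁻¹ * ∑ t ∈ Finset.range (N i),
          (if R i m then Fp Φ (F i) (p i (Function.update m i t)) x
            else Em i (Function.update m i t))‖ ≤
          (N i : ℝ)⁻¹ * ∑ t ∈ Finset.range (N i),
            (K * (if R i (Function.update m i t) then 1 else 0) + ‖Em i (Function.update m i t)‖) := by
        rw [norm_mul, norm_inv, Complex.norm_natCast]
        refine mul_le_mul_of_nonneg_left ((norm_sum_le _ _).trans (Finset.sum_le_sum fun t _ => ?_))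
          (by positivity)
        by_cases hR : R i m
        · rw [if_pos hR, if_pos ((hRinv i m t).2 hR), mul_one]
          have h1 := hFb i (Function.update m i t) x
          have h2 := norm_nonneg (Em i (Function.update m i t))
          linarith
        · rw [if_neg hR, if_neg fun h => hR ((hRinv i m t).1 h), mul_zero, zero_add]
      simp only [e1]
      rw [← Finset.mul_sum]
      have e3 : (N i : ℂ)⁻¹ * ((∏ j with ¬ Dep (s j) i, f j (Φ (s j m) x)) *
          ∑ t ∈ Finset.range (N i), Fp Φ (F i) (p i (Function.update m i t)) x) =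
          (∏ j with ¬ Dep (s j) i, f j (Φ (s j m) x)) *
          ((N i : ℂ)⁻¹ * ∑ t ∈ Finset.range (N i), y i (Function.update m i t) x +
            (N i : ℂ)⁻¹ * ∑ t ∈ Finset.range (N i),
              (if R i m then Fp Φ (F i) (p i (Function.update m i t)) x
                else Em i (Function.update m i t))) := by
        rw [← mul_add, ← Finset.sum_add_distrib]
        simp only [← e2]
        ring
      rw [e3, norm_mul]
      refine (mul_le_mul hPb (norm_add_le _ _) (norm_nonneg _) (by positivity)).trans ?_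
      rw [mul_add]
      refine add_le_add le_rfl ?_
      refine (mul_le_mul_of_nonneg_left hsum (by positivity)).trans (le_of_eq ?_)
      simp only [e]
      rw [← Finset.mul_sum]
      ring
    refine (bxc_norm _ _ _).trans ((bx_mono hpt).trans (le_of_eq ?_))
    rw [bx_add, bx_mul, ← bx_avg i]

end Pool.Agent.Zk89.QM
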